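import Pool.Agent.H78.BN.Generic

/-!
# The generic classification: four letters, five and more letters
-/

namespace Pool.Agent.H78.BN

open Finset

/-- From a congruence to a homogeneous linear equation. -/
theorem hyper_of_dvd {m N : ℕ} (d : Fin (m+1) → ℕ) (hD : 0 < total d) (l : Fin (m+1))
    (q : Fin m → ℤ) (hq : q ≠ 0) (hqN : ∀ j, |q j| ≤ N)
    (hdvd : (total d : ℤ) ∣ ∑ j, q j * (d (l.succAbove j) : ℤ)) :
    ∃ h : Fin (m+1) → ℤ, h ≠ 0 ∧ (∀ i, |h i| ≤ ((2 * N : ℕ) : ℤ)) ∧ ∑ i, h i * (d i : ℤ) = 0 := by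
  obtain ⟨t, ht⟩ := hdvd
  have hsum : (total d : ℤ) = d l + ∑ j, (d (l.succAbove j) : ℤ) := by
    unfold total
    push_cast
    rw [Fin.sum_univ_succAbove _ l]
  have habs : |∑ j, q j * (d (l.succAbove j) : ℤ)| ≤ N * total d := by
    calc |∑ j, q j * (d (l.succAbove j) : ℤ)| ≤ ∑ j, |q j * (d (l.succAbove j) : ℤ)| :=
          Finset.abs_sum_le_sum_abs _ _
      _ ≤ ∑ j, (N:ℤ) * (d (l.succAbove j) : ℤ) := by
          apply Finset.sum_le_sum
          intro j _
          rw [abs_mul, abs_of_nonneg (by positivity : (0:ℤ) ≤ (d (l.succAbove j) : ℤ))]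
          exact mul_le_mul_of_nonneg_right (hqN j) (by positivity)
      _ ≤ N * total d := by
          rw [← Finset.mul_sum, hsum]
          have : (0:ℤ) ≤ d l := by positivity
          nlinarith
  have htN : |t| ≤ N := by
    rw [ht, abs_mul, abs_of_nonneg (by positivity : (0:ℤ) ≤ (total d : ℤ))] at habs
    have hDpos : (0:ℤ) < total d := by exact_mod_cast hD
    rw [mul_comm (N:ℤ)] at habs
    exact le_of_mul_le_mul_left habs hDpos
  refine ⟨Fin.insertNth l (-t) (fun j => q j - t), ?_, ?_, ?_⟩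
  · intro h0
    apply hq
    have h1 : t = 0 := by
      have := congrFun h0 l
      simpa using this
    funext j
    have := congrFun h0 (l.succAbove j)
    simp only [Fin.insertNth_apply_succAbove, Pi.zero_apply, h1] at this
    simpa using this
  · intro i
    rcases Fin.eq_self_or_eq_succAbove l i with h | ⟨j, h⟩
    · rw [h, Fin.insertNth_apply_same, abs_neg]
      push_cast
      have : (0:ℤ) ≤ N := by positivity
      linarith
    · rw [h, Fin.insertNth_apply_succAbove]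
      push_cast
      have := abs_sub (q j) t
      have := hqN j
      linarith
  · rw [Fin.sum_univ_succAbove _ l]
    simp only [Fin.insertNth_apply_same, Fin.insertNth_apply_succAbove]
    have h1 : ∑ j, (q j - t) * (d (l.succAbove j) : ℤ)
        = ∑ j, q j * (d (l.succAbove j) : ℤ) - t * ∑ j, (d (l.succAbove j) : ℤ) := by
      rw [Finset.mul_sum, ← Finset.sum_sub_distrib]
      apply Finset.sum_congr rfl
      intro j _; ring
    rw [h1, ht, hsum]; ring

/-- (4) At least five letters. -/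
theorem five_letters (n : ℕ) (hn : 5 ≤ n) : ∃ C : ℕ, ∀ d : Fin n → ℕ, (∀ i, 0 < d i) →
    Bstar d < 3/4 → ∃ h : Fin n → ℤ, h ≠ 0 ∧ (∀ i, |h i| ≤ (C:ℤ)) ∧ ∑ i, h i * (d i : ℤ) = 0 := by
  obtain ⟨m, rfl⟩ : ∃ m, n = m + 1 := ⟨n - 1, by omega⟩
  have hn0 : (0:ℝ) < ((m + 1 : ℕ) : ℝ) := by positivity
  obtain ⟨N, hN⟩ := box_hit m (1 / (20 * ((m + 1 : ℕ) : ℝ))) (by positivity)
  refine ⟨2 * N, ?_⟩
  intro d hd hB
  have hD : 0 < total d := by
    unfold total
    exact Finset.sum_pos (fun i _ => hd i) ⟨0, mem_univ _⟩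
  have hD' : (0:ℝ) < total d := by exact_mod_cast hD
  by_contra hcon
  obtain ⟨k, hk, hbox⟩ := hN (total d) hD (fun j => (d ((0 : Fin (m+1)).succAbove j) : ℤ))
    (fun _ => -(1 / ((m + 1 : ℕ) : ℝ))) (by
      intro q hq hqN hdvd
      exact hcon (hyper_of_dvd d hD 0 q hq hqN hdvd))
  choose t ht using hbox
  have hpre := prefix_of_Bstar_lt d hD hB k (le_of_lt hk)
  set δ : ℝ := 1 / (20 * ((m + 1 : ℕ) : ℝ)) with hδ
  set ν : ℝ := 1 / ((m + 1 : ℕ) : ℝ) with hν
  have hδν : δ = ν / 20 := by rw [hδ, hν]; field_simp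
  have hν5 : ν ≤ 1/5 := by
    rw [hν, div_le_div_iff₀ hn0 (by norm_num)]
    have : (5:ℝ) ≤ ((m + 1 : ℕ) : ℝ) := by exact_mod_cast hn
    linarith
  have hν0 : 0 < ν := by rw [hν]; positivity
  have hmν : (m:ℝ) * ν ≤ 1 := by
    have : ((m + 1 : ℕ) : ℝ) * ν = 1 := by rw [hν]; field_simp
    push_cast at this
    nlinarith
  have hmν' : (m:ℝ) * ν = 1 - ν := by
    have : ((m + 1 : ℕ) : ℝ) * ν = 1 := by rw [hν]; field_simp
    push_cast at this
    linarith
  -- positions
  have hpos : ∀ j, |(k:ℝ) * rate d ((0 : Fin (m+1)).succAbove j) + ν - t j| < δ := by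
    intro j
    have := ht j
    unfold rate
    push_cast at this ⊢
    rw [sub_neg_eq_add] at this
    exact this
  have hF : ∀ j, Fl (rate d ((0 : Fin (m+1)).succAbove j)) k = t j := by
    intro j
    have h1 := abs_lt.mp (hpos j)
    unfold Fl
    rw [Int.floor_eq_iff]
    push_cast
    constructor <;> linarith [h1.1, h1.2]
  have hsumη : |∑ j, ((k:ℝ) * rate d ((0 : Fin (m+1)).succAbove j) + ν - t j)| ≤ 1/20 := by
    calc _ ≤ ∑ j, |(k:ℝ) * rate d ((0 : Fin (m+1)).succAbove j) + ν - t j| :=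
          Finset.abs_sum_le_sum_abs _ _
      _ ≤ ∑ _j : Fin m, δ := Finset.sum_le_sum (fun j _ => le_of_lt (hpos j))
      _ = m * δ := by simp
      _ ≤ 1/20 := by rw [hδν]; linarith
  have hlast : (k:ℝ) * rate d 0 = ((k - ∑ j, t j + 1 : ℤ) : ℝ) - ν -
      ∑ j, ((k:ℝ) * rate d ((0 : Fin (m+1)).succAbove j) + ν - t j) := by
    have h1 := sum_rate d hD
    rw [Fin.sum_univ_succAbove _ 0] at h1
    rw [Finset.sum_sub_distrib, Finset.sum_add_distrib, ← Finset.mul_sum]
    simp only [Finset.sum_const, card_univ, Fintype.card_fin, nsmul_eq_mul]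
    push_cast
    rw [hmν']
    linear_combination (k:ℝ) * h1
  have hF0 : Fl (rate d 0) k = k - ∑ j, t j + 1 := by
    unfold Fl
    rw [Int.floor_eq_iff]
    have h1 := abs_le.mp hsumη
    rw [Int.cast_natCast, hlast]
    constructor <;> linarith [h1.1, h1.2]
  rw [Fin.sum_univ_succAbove _ 0, hF0, Finset.sum_congr rfl (fun j _ => hF j)] at hpre
  linarith

/-- The exceptional congruence for four letters. -/
def BadMod (d : Fin 4 → ℕ) : Prop := ∃ g c : ℕ, Odd c ∧ ∀ i, ∃ t : ℕ, d i = g * (4 * t + c)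

theorem badMod_of_time (d : Fin 4 → ℕ) (hd : ∀ i, 0 < d i) (b : ℤ)
    (h : ∀ i, ∃ t : ℤ, 4 * b * d i + total d = 4 * total d * t) : BadMod d := by
  have hD : 0 < total d := by
    unfold total
    exact Finset.sum_pos (fun i _ => hd i) ⟨0, mem_univ _⟩
  choose t ht using h
  obtain ⟨D', hD'⟩ : (4:ℕ) ∣ total d := by
    have : (4:ℤ) ∣ (total d : ℤ) := ⟨total d * t 0 - b * d 0, by have := ht 0; linarith⟩
    exact_mod_cast this
  have hD'pos : 0 < D' := by omega
  have h1 : ∀ i, b * d i = D' * (4 * t i - 1) := by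
    intro i
    have := ht i
    rw [hD'] at this
    push_cast at this
    linarith
  -- divide by the gcd
  set g := Int.gcd b D' with hg
  have hgpos : 0 < g := Int.gcd_pos_of_ne_zero_right _ (by omega)
  obtain ⟨b', hb'⟩ : (g:ℤ) ∣ b := Int.gcd_dvd_left ..
  obtain ⟨D'', hD''⟩ : (g:ℤ) ∣ (D':ℤ) := Int.gcd_dvd_right ..
  have hcop : IsCoprime b' D'' := by
    have h2 : Int.gcd (g * b') (g * D'') = g := by rw [← hb', ← hD'']
    rw [Int.gcd_mul_left] at h2
    rw [Int.isCoprime_iff_gcd_eq_one]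
    have h3 : (g:ℤ).natAbs = g := by simp
    rw [h3] at h2
    have h4 : g * Int.gcd b' D'' = g * 1 := by rw [h2, mul_one]
    exact Nat.eq_of_mul_eq_mul_left hgpos h4
  have h2 : ∀ i, b' * d i = D'' * (4 * t i - 1) := by
    intro i
    have h3 := h1 i
    rw [hb', hD''] at h3
    have h4 : (g:ℤ) * (b' * d i) = g * (D'' * (4 * t i - 1)) := by linarith
    have hg' : (g:ℤ) ≠ 0 := by positivity
    exact mul_left_cancel₀ hg' h4
  have hD''pos : 0 < D'' := by
    by_contra hcon
    push Not at hcon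
    have : (g:ℤ) * D'' ≤ 0 := by nlinarith
    rw [← hD''] at this
    omega
  have h3 : ∀ i, ∃ f : ℤ, (d i : ℤ) = D'' * f := by
    intro i
    have : D'' ∣ b' * d i := ⟨_, h2 i⟩
    exact hcop.symm.dvd_of_dvd_mul_left this
  choose f hf using h3
  have h4 : ∀ i, b' * f i = 4 * t i - 1 := by
    intro i
    have h5 := h2 i
    rw [hf i] at h5
    have h6 : D'' * (b' * f i) = D'' * (4 * t i - 1) := by linarith
    exact mul_left_cancel₀ (ne_of_gt hD''pos) h6
  have hfpos : ∀ i, 0 < f i := by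
    intro i
    by_contra hcon
    push Not at hcon
    have h5 := hd i
    have h6 : (0:ℤ) < d i := by exact_mod_cast h5
    rw [hf i] at h6
    nlinarith
  -- residues mod 4
  have hmod : ∀ i, f i % 4 = (3 * b') % 4 := by
    intro i
    have h5 := h4 i
    have h6 : (b' * f i) % 4 = 3 := by rw [h5]; omega
    rw [Int.mul_emod] at h6
    have hb4 : b' % 4 = 0 ∨ b' % 4 = 1 ∨ b' % 4 = 2 ∨ b' % 4 = 3 := by omega
    have hf4 : f i % 4 = 0 ∨ f i % 4 = 1 ∨ f i % 4 = 2 ∨ f i % 4 = 3 := by omega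
    rcases hb4 with hb | hb | hb | hb <;> rcases hf4 with hf' | hf' | hf' | hf' <;>
      rw [hb, hf'] at h6 <;> omega
  set c := (3 * b') % 4 with hc
  have hc01 : c = 1 ∨ c = 3 := by
    have h5 := h4 0
    have h6 : (b' * f 0) % 4 = 3 := by rw [h5]; omega
    rw [Int.mul_emod] at h6
    have hb4 : b' % 4 = 0 ∨ b' % 4 = 1 ∨ b' % 4 = 2 ∨ b' % 4 = 3 := by omega
    have hf4 : f 0 % 4 = 0 ∨ f 0 % 4 = 1 ∨ f 0 % 4 = 2 ∨ f 0 % 4 = 3 := by omega
    rcases hb4 with hb | hb | hb | hb <;> rcases hf4 with hf' | hf' | hf' | hf' <;>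
      rw [hb, hf'] at h6 <;> omega
  refine ⟨D''.toNat, c.toNat, ?_, ?_⟩
  · rcases hc01 with h | h <;> rw [h] <;> decide
  · intro i
    refine ⟨(f i / 4).toNat, ?_⟩
    have h5 := hmod i
    have h6 := hfpos i
    have h7 := hf i
    have e1 : ((D''.toNat : ℕ) : ℤ) = D'' := Int.toNat_of_nonneg (le_of_lt hD''pos)
    have e2 : ((c.toNat : ℕ) : ℤ) = c := Int.toNat_of_nonneg (by omega)
    have e3 : (((f i / 4).toNat : ℕ) : ℤ) = f i / 4 := Int.toNat_of_nonneg (by omega)
    have e4 : 4 * (f i / 4) + c = f i := by omega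
    have : (d i : ℤ) = ((D''.toNat * (4 * (f i / 4).toNat + c.toNat) : ℕ) : ℤ) := by
      push_cast [e1, e2, e3]
      rw [e4, h7]
    exact_mod_cast this

theorem time_of_badMod (d : Fin 4 → ℕ) (hd : ∀ i, 0 < d i) (h : BadMod d) :
    ∃ b : ℕ, b < total d ∧ ∀ i, ∃ t : ℤ, 4 * (b:ℤ) * d i + total d = 4 * total d * t := by
  have hD : 0 < total d := by
    unfold total
    exact Finset.sum_pos (fun i _ => hd i) ⟨0, mem_univ _⟩
  obtain ⟨g, c, ⟨s, hs⟩, ht⟩ := h
  choose t ht using ht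
  have hDe : (total d : ℤ) = 4 * (g * (t 0 + t 1 + t 2 + t 3 + c)) := by
    unfold total
    push_cast
    rw [Fin.sum_univ_four, ht 0, ht 1, ht 2, ht 3]
    push_cast; ring
  set E : ℕ := t 0 + t 1 + t 2 + t 3 + c with hE
  have hDe' : (total d : ℤ) = 4 * (g * E) := by rw [hDe, hE]; push_cast; ring
  refine ⟨(3 * c * E) % total d, Nat.mod_lt _ hD, ?_⟩
  intro i
  have h1 : (((3 * c * E) % total d : ℕ) : ℤ)
      = 3 * c * E - total d * (((3 * c * E) / total d : ℕ) : ℤ) := by
    have := Nat.mod_add_div (3 * c * E) (total d)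
    have h2 : (((3 * c * E) % total d + total d * ((3 * c * E) / total d) : ℕ) : ℤ)
      = ((3 * c * E : ℕ) : ℤ) := by rw [this]
    push_cast at h2 ⊢
    linarith
  rw [h1]
  refine ⟨3 * c * t i + (3 * s * s + 3 * s + 1) - (((3 * c * E) / total d : ℕ) : ℤ) * d i, ?_⟩
  generalize (((3 * c * E) / total d : ℕ) : ℤ) = u
  have h3 : (d i : ℤ) = g * (4 * t i + c) := by rw [ht i]; push_cast; ring
  have h4 : (c:ℤ) = 2 * s + 1 := by rw [hs]; push_cast; ring
  have h5 : 4 * (3 * (c:ℤ) * E) * d i + total d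
      = 4 * total d * (3 * c * t i + (3 * s * s + 3 * s + 1)) := by
    rw [hDe', h3, h4]; ring
  linear_combination h5

/-- (2) Four letters, the exact criterion under the rounding condition. -/
theorem four_letters (d : Fin 4 → ℕ) (hd : ∀ i, 0 < d i)
    (hR : ∀ L : ℕ, 1 ≤ L → (∃ l, 2 * L * d l < total d) →
      ∑ i, ⌊(L:ℝ) * d i / total d + 1/2⌋ ≤ (L:ℤ)) :
    Bstar d < 3/4 ↔ ¬ BadMod d := by
  have hD : 0 < total d := by
    unfold total
    exact Finset.sum_pos (fun i _ => hd i) ⟨0, mem_univ _⟩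
  have hD' : (0:ℝ) < total d := by exact_mod_cast hD
  constructor
  · intro hB hbad
    obtain ⟨b, hb, ht⟩ := time_of_badMod d hd hbad
    choose t ht using ht
    have hpre := prefix_of_Bstar_lt d hD hB b (le_of_lt hb)
    have h1 : ∀ i, (b:ℝ) * rate d i + 1/4 = (t i : ℝ) := by
      intro i
      have h2 : ((4 * (b:ℤ) * d i + total d : ℤ) : ℝ) = ((4 * total d * t i : ℤ) : ℝ) := by
        rw [ht i]
      push_cast at h2
      unfold rate
      field_simp
      linarith
    have h2 : ∀ i, Fl (rate d i) b = t i := by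
      intro i
      unfold Fl
      rw [Int.cast_natCast, h1 i, Int.floor_intCast]
    have h3 : ((∑ i, Fl (rate d i) b : ℤ) : ℝ) = b + 1 := by
      push_cast
      have : ∀ i, ((Fl (rate d i) b : ℤ) : ℝ) = (b:ℝ) * rate d i + 1/4 := by
        intro i; rw [h2 i, h1 i]
      rw [Finset.sum_congr rfl (fun i _ => this i), Finset.sum_add_distrib, ← Finset.mul_sum,
        sum_rate d hD]
      simp
    have h4 : ((∑ i, Fl (rate d i) b : ℤ) : ℝ) ≤ (b:ℝ) := by exact_mod_cast hpre
    linarith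
  · intro hbad
    apply Bstar_lt_of_prefix_round d hd hD _ hR
    intro b
    by_contra hcon
    push Not at hcon
    have h1 := sum_Fl_le d hD b
    have h2 : ((b:ℤ):ℝ) + 1 ≤ ((∑ i, Fl (rate d i) b : ℤ) : ℝ) := by exact_mod_cast hcon
    apply hbad
    apply badMod_of_time d hd b
    intro i
    -- equality everywhere
    have h3 : ∀ j, ((Fl (rate d j) b : ℤ) : ℝ) ≤ (b:ℝ) * rate d j + 1/4 := by
      intro j; unfold Fl; exact Int.floor_le _
    have h4 : ∑ j, (((b:ℝ) * rate d j + 1/4) - ((Fl (rate d j) b : ℤ) : ℝ)) ≤ 0 := by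
      rw [Finset.sum_sub_distrib, Finset.sum_add_distrib, ← Finset.mul_sum, sum_rate d hD]
      push_cast at h2
      simp
      linarith
    have h5 := Finset.single_le_sum
      (f := fun j => ((b:ℝ) * rate d j + 1/4) - ((Fl (rate d j) b : ℤ) : ℝ))
      (fun j _ => by have := h3 j; linarith) (mem_univ i)
    have h6 : (b:ℝ) * rate d i + 1/4 = ((Fl (rate d i) b : ℤ) : ℝ) := by
      have := h3 i
      linarith
    refine ⟨Fl (rate d i) b, ?_⟩
    unfold rate at h6
    have h7 : ((4 * b * d i + total d : ℤ) : ℝ) = ((4 * total d * Fl (rate d i) b : ℤ) : ℝ) := by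
      push_cast
      unfold rate
      field_simp at h6
      linarith
    exact_mod_cast h7

/-- (3) Four letters, generic failure when the rounding condition fails. -/
theorem four_letters_generic (L : ℕ) (ε : ℝ) (hε : 0 < ε) : ∃ C : ℕ, ∀ (d : Fin 4 → ℕ)
    (l : Fin 4), (∀ i, 0 < d i) → 2 * L * d l < total d →
    (∀ i, i ≠ l → 1/2 + ε ≤ Int.fract ((L:ℝ) * d i / total d)) →
    (L:ℤ) < ∑ i, ⌊(L:ℝ) * d i / total d + 1/2⌋ →
    Bstar d < 3/4 → ∃ h : Fin 4 → ℤ, h ≠ 0 ∧ (∀ i, |h i| ≤ (C:ℤ)) ∧ ∑ i, h i * (d i : ℤ) = 0 := by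
  obtain ⟨N, hN⟩ := box_hit 3 (ε / 2) (by positivity)
  refine ⟨2 * N, ?_⟩
  intro d l hd hl hfr hsum hB
  have hD : 0 < total d := by
    unfold total
    exact Finset.sum_pos (fun i _ => hd i) ⟨0, mem_univ _⟩
  have hD' : (0:ℝ) < total d := by exact_mod_cast hD
  by_contra hcon
  -- the numbers u_j
  set y : Fin 3 → ℝ := fun j => (L:ℝ) * rate d (l.succAbove j) with hy
  have hyeq : ∀ j, (L:ℝ) * d (l.succAbove j) / total d = y j := by
    intro j; rw [hy]; simp only; unfold rate; ring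
  set u : Fin 3 → ℝ := fun j => 1 - Int.fract (y j) with hu
  have hu1 : ∀ j, u j ≤ 1/2 - ε := by
    intro j
    have := hfr (l.succAbove j) (Fin.succAbove_ne l j)
    rw [hyeq] at this
    rw [hu]; simp only; linarith
  have hu0 : ∀ j, 0 < u j := by
    intro j
    have := Int.fract_lt_one (y j)
    rw [hu]; simp only; linarith
  have hfl : ∀ j, ⌊y j + 1/2⌋ = ⌊y j⌋ + 1 := by
    intro j
    have h1 := hfr (l.succAbove j) (Fin.succAbove_ne l j)
    rw [hyeq] at h1
    have h2 := Int.fract_lt_one (y j)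
    have h3 := Int.floor_add_fract (y j)
    rw [Int.floor_eq_iff]
    push_cast
    constructor <;> linarith
  have h0 : ⌊(L:ℝ) * d l / total d + 1/2⌋ = 0 := by
    rw [Int.floor_eq_iff]
    have h1 : (2:ℝ) * L * d l < total d := by exact_mod_cast hl
    have h2 : (L:ℝ) * d l / total d < 1/2 := by rw [div_lt_iff₀ hD']; linarith
    have h3 : 0 ≤ (L:ℝ) * d l / total d := by positivity
    push_cast
    constructor <;> linarith
  have hsum2 : (L:ℤ) + 1 ≤ ∑ j, (⌊y j⌋ + 1) := by
    rw [Fin.sum_univ_succAbove _ l, h0, zero_add] at hsum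
    have : ∀ j, ⌊(L:ℝ) * d (l.succAbove j) / total d + 1/2⌋ = ⌊y j⌋ + 1 := by
      intro j; rw [hyeq, hfl]
    rw [Finset.sum_congr rfl (fun j _ => this j)] at hsum
    omega
  have husum : 1 ≤ ∑ j, u j := by
    have h1 : ((L:ℤ):ℝ) + 1 ≤ ∑ j, ((⌊y j⌋ : ℝ) + 1) := by exact_mod_cast hsum2
    have h2 : ∀ j, (⌊y j⌋ : ℝ) + 1 = y j + u j := by
      intro j
      have := Int.floor_add_fract (y j)
      rw [hu]; simp only; linarith
    rw [Finset.sum_congr rfl (fun j _ => h2 j), Finset.sum_add_distrib] at h1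
    have h3 : ∑ j, y j ≤ L := by
      rw [hy]; simp only
      rw [← Finset.mul_sum]
      have h4 := sum_rate d hD
      rw [Fin.sum_univ_succAbove _ l] at h4
      have h5 := rate_nonneg d l
      have h6 : ∑ j, rate d (l.succAbove j) ≤ 1 := by linarith
      have h7 : (0:ℝ) ≤ L := by positivity
      nlinarith
    push_cast at h1
    linarith
  have hu2 : ∀ j, 2 * ε ≤ u j := by
    intro j
    rw [Fin.sum_univ_three] at husum
    have e0 := hu1 0
    have e1 := hu1 1
    have e2 := hu1 2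
    fin_cases j <;> simp only <;> first | (show 2 * ε ≤ u 0; linarith) | (show 2 * ε ≤ u 1; linarith) | (show 2 * ε ≤ u 2; linarith)
  obtain ⟨a, ha, hbox⟩ := hN (total d) hD (fun j => (d (l.succAbove j) : ℤ))
    (fun j => (max 0 (u j - 1/4) + min (1/4) (u j)) / 2) (by
      intro q hq hqN hdvd
      exact hcon (hyper_of_dvd d hD l q hq hqN hdvd))
  choose t ht using hbox
  have hhall := hall_of_Bstar_lt d hD hB a (a + L) (by omega)
  have hξ : ∀ j, max 0 (u j - 1/4) ≤ (a:ℝ) * rate d (l.succAbove j) - t j ∧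
      (a:ℝ) * rate d (l.succAbove j) - t j ≤ min (1/4) (u j) := by
    intro j
    have h1 := abs_lt.mp (ht j)
    have h2 : (a:ℝ) * (((d (l.succAbove j) : ℤ) : ℝ) / total d) = a * rate d (l.succAbove j) := by
      unfold rate; push_cast; ring
    simp only [h2] at h1
    have hlen : max 0 (u j - 1/4) + ε ≤ min (1/4) (u j) := by
      have e1 := hu1 j
      have e2 := hu2 j
      have e3 := hu0 j
      apply le_min
      · rcases le_total 0 (u j - 1/4) with h | h
        · rw [max_eq_right h]; linarith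
        · rw [max_eq_left h]; linarith
      · rcases le_total 0 (u j - 1/4) with h | h
        · rw [max_eq_right h]; linarith
        · rw [max_eq_left h]; linarith
    constructor <;> linarith [h1.1, h1.2]
  have hNj : ∀ j, ⌊y j⌋ + 1 ≤ Fl (rate d (l.succAbove j)) ((a + L : ℕ) : ℤ)
      - Cl (rate d (l.succAbove j)) (a:ℤ) := by
    intro j
    obtain ⟨h1, h2⟩ := hξ j
    have h3 : (0:ℝ) ≤ (a:ℝ) * rate d (l.succAbove j) - t j := le_trans (le_max_left _ _) h1
    have h4 : u j - 1/4 ≤ (a:ℝ) * rate d (l.succAbove j) - t j := le_trans (le_max_right _ _) h1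
    have h5 : (a:ℝ) * rate d (l.succAbove j) - t j ≤ 1/4 := le_trans h2 (min_le_left _ _)
    have hC : Cl (rate d (l.succAbove j)) (a:ℤ) ≤ t j := by
      unfold Cl
      rw [Int.ceil_le]
      push_cast
      linarith
    have hFF : t j + ⌊y j⌋ + 1 ≤ Fl (rate d (l.succAbove j)) ((a + L : ℕ) : ℤ) := by
      unfold Fl
      rw [Int.le_floor]
      have h6 := Int.floor_add_fract (y j)
      have h7 : u j = 1 - Int.fract (y j) := rfl
      have h8 : (((a + L : ℕ) : ℤ) : ℝ) * rate d (l.succAbove j)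
          = (a:ℝ) * rate d (l.succAbove j) + y j := by
        rw [hy]; push_cast; ring
      rw [h8]
      push_cast
      linarith
    linarith
  have h9 : ∑ j, (⌊y j⌋ + 1) ≤ ∑ i, max 0 (Fl (rate d i) ((a + L : ℕ) : ℤ)
      - Cl (rate d i) (a:ℤ)) := by
    rw [Fin.sum_univ_succAbove _ l]
    have h10 : ∑ j, (⌊y j⌋ + 1) ≤ ∑ j, max 0 (Fl (rate d (l.succAbove j)) ((a + L : ℕ) : ℤ)
      - Cl (rate d (l.succAbove j)) (a:ℤ)) :=
      Finset.sum_le_sum (fun j _ => le_trans (hNj j) (le_max_right _ _))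
    have h11 : 0 ≤ max 0 (Fl (rate d l) ((a + L : ℕ) : ℤ) - Cl (rate d l) (a:ℤ)) := le_max_left _ _
    linarith
  push_cast at hhall h9
  linarith

end Pool.Agent.H78.BN
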