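import Mathlib

/-!
# Hitting boxes by multiples of a rational point

If `(d₁,…,d_m)/D` satisfies no nontrivial congruence `∑ qᵢ dᵢ ≡ 0 (mod D)` with `|qᵢ| ≤ N`, then
the multiples `k (d₁,…,d_m)/D` come `δ`-close to every point of the torus (N = N(m,δ)).
-/

namespace Pool.Agent.H78.BN

open Finset Complex

/-- `e(x) = exp(2πix)` -/
noncomputable def ee (x : ℝ) : ℂ := Complex.exp (2 * Real.pi * Complex.I * x)

theorem ee_add (x y : ℝ) : ee (x + y) = ee x * ee y := by
  unfold ee; rw [← Complex.exp_add]; congr 1; push_cast; ring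

theorem ee_zero : ee 0 = 1 := by unfold ee; simp

theorem ee_int (t : ℤ) : ee t = 1 := by
  unfold ee
  rw [Complex.exp_eq_one_iff]
  exact ⟨t, by push_cast; ring⟩

theorem ee_sum {ι : Type*} (s : Finset ι) (f : ι → ℝ) : ee (∑ i ∈ s, f i) = ∏ i ∈ s, ee (f i) := by
  classical
  induction s using Finset.induction_on with
  | empty => simp [ee_zero]
  | insert a s ha ih => rw [Finset.sum_insert ha, Finset.prod_insert ha, ee_add, ih]

theorem ee_nat_mul (k : ℕ) (x : ℝ) : ee (k * x) = ee x ^ k := by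
  unfold ee; rw [← Complex.exp_nat_mul]; congr 1; push_cast; ring

/-- the nonnegative kernel `((1+cos 2πx)/2)^N` as a trigonometric polynomial -/
theorem kernel_eq (N : ℕ) (x : ℝ) :
    ((((1 + Real.cos (2 * Real.pi * x)) / 2) ^ N : ℝ) : ℂ)
      = ∑ j ∈ Finset.range (2 * N + 1), ((Nat.choose (2 * N) j : ℂ) / 4 ^ N) *
          ee (((j:ℝ) - N) * x) := by
  have h1 : (((1 + Real.cos (2 * Real.pi * x)) / 2 : ℝ) : ℂ) = (1 + ee x) ^ 2 * ee (-x) / 4 := by
    have h2 : ((Real.cos (2 * Real.pi * x) : ℝ) : ℂ) = (ee x + ee (-x)) / 2 := by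
      unfold ee
      rw [Complex.ofReal_cos, Complex.cos]
      congr 2
      · congr 1; push_cast; ring
      · congr 1; push_cast; ring
    push_cast at h2 ⊢
    rw [h2]
    have h3 : ee x * ee (-x) = 1 := by rw [← ee_add]; simp [ee_zero]
    have h4 : (1 + ee x) ^ 2 * ee (-x) = ee (-x) + 2 * (ee x * ee (-x)) + ee x * (ee x * ee (-x)) := by
      ring
    rw [h4, h3]; ring
  have h5 : ((((1 + Real.cos (2 * Real.pi * x)) / 2) ^ N : ℝ) : ℂ)
      = (1 + ee x) ^ (2 * N) * ee (-(N * x)) / 4 ^ N := by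
    rw [Complex.ofReal_pow, h1, div_pow, mul_pow, ← pow_mul]
    congr 2
    rw [← ee_nat_mul]; congr 1; ring
  rw [h5, add_comm 1 (ee x), add_pow, Finset.sum_mul, Finset.sum_div]
  apply Finset.sum_congr rfl
  intro j _
  have h6 : ee (((j:ℝ) - N) * x) = ee x ^ j * ee (-(N * x)) := by
    rw [← ee_nat_mul, ← ee_add]; congr 1; ring
  rw [h6, one_pow]; ring

/-- sum of the character `k ↦ e(k q / D)` -/
theorem char_sum (D : ℕ) (hD : 0 < D) (q : ℤ) (hq : ¬ (D:ℤ) ∣ q) :
    ∑ k ∈ Finset.range D, ee ((k:ℝ) * ((q:ℝ) / D)) = 0 := by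
  have h1 : ∀ k ∈ Finset.range D, ee ((k:ℝ) * ((q:ℝ) / D)) = ee ((q:ℝ) / D) ^ k := by
    intro k _; rw [ee_nat_mul]
  rw [Finset.sum_congr rfl h1]
  have hD' : (D:ℝ) ≠ 0 := by positivity
  have h2 : ee ((q:ℝ) / D) ^ D = 1 := by
    rw [← ee_nat_mul]
    rw [show (D:ℝ) * ((q:ℝ) / D) = ((q:ℤ):ℝ) by field_simp]
    exact ee_int q
  have h3 : ee ((q:ℝ) / D) ≠ 1 := by
    intro h
    unfold ee at h
    rw [Complex.exp_eq_one_iff] at h
    obtain ⟨t, ht⟩ := h
    have hpi : (2 * (Real.pi:ℂ) * Complex.I) ≠ 0 := by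
      simp [Real.pi_ne_zero]
    have h4 : (((q:ℝ) / D : ℝ) : ℂ) = (t:ℂ) := by
      have : (2 * (Real.pi:ℂ) * Complex.I) * (((q:ℝ) / D : ℝ) : ℂ) =
        (2 * (Real.pi:ℂ) * Complex.I) * (t:ℂ) := by rw [ht]; ring
      exact mul_left_cancel₀ hpi this
    have h5 : (q:ℝ) / D = t := by exact_mod_cast h4
    apply hq
    rw [div_eq_iff hD'] at h5
    refine ⟨t, ?_⟩
    have : (q:ℝ) = ((D * t : ℤ) : ℝ) := by rw [h5]; push_cast; ring
    exact_mod_cast this
  have h6 := geom_sum_eq h3 D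
  rw [h6, h2]; simp

/-- The mean of the product kernel. -/
theorem mean_kernel {m : ℕ} (N : ℕ) (D : ℕ) (hD : 0 < D) (d : Fin m → ℤ) (c : Fin m → ℝ)
    (hq : ∀ q : Fin m → ℤ, q ≠ 0 → (∀ i, |q i| ≤ N) → ¬ (D:ℤ) ∣ ∑ i, q i * d i) :
    ∑ k ∈ Finset.range D, ∏ i, ((1 + Real.cos (2 * Real.pi * ((k:ℝ) * ((d i:ℝ) / D) - c i))) / 2) ^ N
      = D * ((Nat.centralBinom N : ℝ) / 4 ^ N) ^ m := by
  have hD' : (D:ℝ) ≠ 0 := by positivity
  have key : (((∑ k ∈ Finset.range D, ∏ i,
      ((1 + Real.cos (2 * Real.pi * ((k:ℝ) * ((d i:ℝ) / D) - c i))) / 2) ^ N : ℝ)) : ℂ)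
      = D * ((Nat.centralBinom N : ℂ) / 4 ^ N) ^ m := by
    rw [Complex.ofReal_sum]
    have h1 : ∀ k ∈ Finset.range D, ((∏ i,
      ((1 + Real.cos (2 * Real.pi * ((k:ℝ) * ((d i:ℝ) / D) - c i))) / 2) ^ N : ℝ) : ℂ)
      = ∑ J ∈ Fintype.piFinset (fun _ : Fin m => Finset.range (2 * N + 1)),
          (∏ i, ((Nat.choose (2 * N) (J i) : ℂ) / 4 ^ N)) *
            (ee (-∑ i, ((J i:ℝ) - N) * c i) *
              ee ((k:ℝ) * (((∑ i, ((J i:ℤ) - N) * d i : ℤ) : ℝ) / D))) := by
      intro k _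
      rw [Complex.ofReal_prod]
      simp only [kernel_eq]
      rw [Finset.prod_univ_sum]
      apply Finset.sum_congr rfl
      intro J _
      rw [Finset.prod_mul_distrib]
      congr 1
      rw [← ee_sum, ← ee_add]
      congr 1
      push_cast
      rw [Finset.sum_div, Finset.mul_sum, ← Finset.sum_neg_distrib, ← Finset.sum_add_distrib]
      apply Finset.sum_congr rfl
      intro i _
      ring
    rw [Finset.sum_congr rfl h1, Finset.sum_comm]
    rw [Finset.sum_eq_single (fun _ => N)]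
    · have h2 : ∀ k ∈ Finset.range D, (∏ _i : Fin m, ((Nat.choose (2 * N) N : ℂ) / 4 ^ N)) *
            (ee (-∑ i, ((N:ℝ) - N) * c i) *
              ee ((k:ℝ) * (((∑ i, ((N:ℤ) - N) * d i : ℤ) : ℝ) / D)))
            = ((Nat.centralBinom N : ℂ) / 4 ^ N) ^ m := by
        intro k _
        simp [ee_zero, Nat.centralBinom, div_pow]
      rw [Finset.sum_congr rfl h2]
      simp
    · intro J hJ hne
      rw [← Finset.mul_sum, ← Finset.mul_sum]
      rw [char_sum D hD _ (hq (fun i => (J i:ℤ) - N) ?_ ?_)]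
      · simp
      · intro h0
        apply hne
        funext i
        have := congrFun h0 i
        simp only [Pi.zero_apply] at this
        omega
      · intro i
        rw [Fintype.mem_piFinset] at hJ
        have := hJ i
        rw [Finset.mem_range] at this
        rw [abs_le]
        constructor <;> omega
    · intro hcon
      exfalso
      apply hcon
      rw [Fintype.mem_piFinset]
      intro i
      rw [Finset.mem_range]; omega
  apply Complex.ofReal_injective
  rw [key]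
  push_cast
  rfl

/-- away from the centre the kernel is small -/
theorem kernel_small {δ x : ℝ} (hδ : 0 < δ) (hδ2 : δ ≤ 1/2) (h : ∀ t : ℤ, δ ≤ |x - t|) :
    Real.cos (2 * Real.pi * x) ≤ Real.cos (2 * Real.pi * δ) := by
  set t := round x with ht
  have h1 : |x - t| ≤ 1/2 := abs_sub_round x
  have h2 : Real.cos (2 * Real.pi * x) = Real.cos (2 * Real.pi * |x - t|) := by
    rw [show 2 * Real.pi * |x - t| = |2 * Real.pi * (x - t)| by
      rw [abs_mul, abs_of_pos (by positivity : (0:ℝ) < 2 * Real.pi)], Real.cos_abs]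
    rw [show 2 * Real.pi * (x - t) = 2 * Real.pi * x - t * (2 * Real.pi) by ring,
      Real.cos_sub_int_mul_two_pi]
  rw [h2]
  apply Real.cos_le_cos_of_nonneg_of_le_pi
  · positivity
  · nlinarith [Real.pi_pos]
  · have := h t
    nlinarith [Real.pi_pos]

/-- **Box lemma.** -/
theorem box_hit (m : ℕ) (δ : ℝ) (hδ : 0 < δ) : ∃ N : ℕ, ∀ (D : ℕ), 0 < D →
    ∀ (d : Fin m → ℤ) (c : Fin m → ℝ),
    (∀ q : Fin m → ℤ, q ≠ 0 → (∀ i, |q i| ≤ N) → ¬ (D:ℤ) ∣ ∑ i, q i * d i) →
    ∃ k : ℕ, k < D ∧ ∀ i, ∃ t : ℤ, |(k:ℝ) * ((d i:ℝ) / D) - c i - t| < δ := by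
  set δ' := min δ (1/2) with hδ'
  have h0 : 0 < δ' := lt_min hδ (by norm_num)
  have h1 : δ' ≤ 1/2 := min_le_right _ _
  set θ := (1 + Real.cos (2 * Real.pi * δ')) / 2 with hθ
  have hθ0 : 0 ≤ θ := by
    have := Real.neg_one_le_cos (2 * Real.pi * δ')
    rw [hθ]; linarith
  have hθ1 : θ < 1 := by
    have : Real.cos (2 * Real.pi * δ') < 1 := by
      rw [← Real.cos_zero]
      apply Real.cos_lt_cos_of_nonneg_of_le_pi le_rfl
      · nlinarith [Real.pi_pos]
      · positivity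
    rw [hθ]; linarith
  -- choose N
  have hlim := tendsto_pow_const_mul_const_pow_of_abs_lt_one m (r := θ) (by
    rw [abs_of_nonneg hθ0]; exact hθ1)
  have hev : ∀ᶠ n : ℕ in Filter.atTop, (n:ℝ) ^ m * θ ^ n < 1 / 2 ^ m :=
    hlim.eventually (gt_mem_nhds (by positivity))
  obtain ⟨N, hN, hN1⟩ := (hev.and (Filter.eventually_ge_atTop 1)).exists
  refine ⟨N, ?_⟩
  intro D hD d c hq
  by_contra hcon
  push Not at hcon
  have hmean := mean_kernel N D hD d c hq
  have hub : ∑ k ∈ Finset.range D, ∏ i,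
      ((1 + Real.cos (2 * Real.pi * ((k:ℝ) * ((d i:ℝ) / D) - c i))) / 2) ^ N ≤ D * θ ^ N := by
    calc _ ≤ ∑ _k ∈ Finset.range D, θ ^ N := by
          apply Finset.sum_le_sum
          intro k hk
          rw [Finset.mem_range] at hk
          obtain ⟨i, hi⟩ := hcon k hk
          rw [← Finset.mul_prod_erase univ _ (mem_univ i)]
          have h2 : ((1 + Real.cos (2 * Real.pi * ((k:ℝ) * ((d i:ℝ) / D) - c i))) / 2) ^ N ≤ θ ^ N := by
            apply pow_le_pow_left₀
            · have := Real.neg_one_le_cos (2 * Real.pi * ((k:ℝ) * ((d i:ℝ) / D) - c i))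
              linarith
            · have := kernel_small h0 h1 (x := (k:ℝ) * ((d i:ℝ) / D) - c i)
                (fun t => le_trans (min_le_left _ _) (hi t))
              rw [hθ]; linarith
          have h3 : ∏ j ∈ univ.erase i,
              ((1 + Real.cos (2 * Real.pi * ((k:ℝ) * ((d j:ℝ) / D) - c j))) / 2) ^ N ≤ 1 := by
            apply Finset.prod_le_one
            · intro j _
              have := Real.neg_one_le_cos (2 * Real.pi * ((k:ℝ) * ((d j:ℝ) / D) - c j))
              apply pow_nonneg; linarith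
            · intro j _
              have h4 := Real.neg_one_le_cos (2 * Real.pi * ((k:ℝ) * ((d j:ℝ) / D) - c j))
              have h5 := Real.cos_le_one (2 * Real.pi * ((k:ℝ) * ((d j:ℝ) / D) - c j))
              apply pow_le_one₀ <;> linarith
          have h6 : 0 ≤ ((1 + Real.cos (2 * Real.pi * ((k:ℝ) * ((d i:ℝ) / D) - c i))) / 2) ^ N := by
            have := Real.neg_one_le_cos (2 * Real.pi * ((k:ℝ) * ((d i:ℝ) / D) - c i))
            apply pow_nonneg; linarith
          calc _ ≤ ((1 + Real.cos (2 * Real.pi * ((k:ℝ) * ((d i:ℝ) / D) - c i))) / 2) ^ N * 1 :=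
                mul_le_mul_of_nonneg_left h3 h6
            _ ≤ θ ^ N := by rw [mul_one]; exact h2
      _ = D * θ ^ N := by simp
  rw [hmean] at hub
  have hDpos : (0:ℝ) < D := by exact_mod_cast hD
  have hub2 : ((Nat.centralBinom N : ℝ) / 4 ^ N) ^ m ≤ θ ^ N := le_of_mul_le_mul_left hub hDpos
  have hcb : (1:ℝ) / (2 * N) ≤ (Nat.centralBinom N : ℝ) / 4 ^ N := by
    have h2 := Nat.four_pow_le_two_mul_self_mul_centralBinom N (by omega)
    have h3 : (4:ℝ) ^ N ≤ 2 * N * Nat.centralBinom N := by exact_mod_cast h2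
    have hNpos : (0:ℝ) < N := by exact_mod_cast (by omega : 0 < N)
    rw [div_le_div_iff₀ (by positivity) (by positivity)]
    linarith
  have h7 : ((1:ℝ) / (2 * N)) ^ m ≤ θ ^ N :=
    le_trans (pow_le_pow_left₀ (by positivity) hcb m) hub2
  have hNpos : (0:ℝ) < N := by exact_mod_cast (by omega : 0 < N)
  rw [div_pow, one_pow, mul_pow, div_le_iff₀ (by positivity)] at h7
  rw [lt_div_iff₀ (by positivity)] at hN
  nlinarith

end Pool.Agent.H78.BN
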