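import Pool.Agent.H78.BN.Bst
import Pool.Agent.H78.BN.Box

/-!
# The generic classification
-/

namespace Pool.Agent.H78.BN

open Finset

variable {n : ℕ}

theorem Fl_add_mul (d : Fin n → ℕ) (hD : 0 < total d) (i : Fin n) (k : ℤ) (q : ℤ) :
    Fl (rate d i) (k + q * total d) = Fl (rate d i) k + q * d i := by
  unfold Fl
  have h1 : (((k + q * total d : ℤ)) : ℝ) * rate d i + 1/4
      = ((k:ℝ) * rate d i + 1/4) + ((q * d i : ℤ) : ℝ) := by
    push_cast
    have := total_mul_rate d hD i
    linear_combination (q:ℝ) * this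
  rw [h1, Int.floor_add_intCast]

theorem Cl_eq_neg_Fl (r : ℝ) (k : ℤ) : Cl r k = - Fl r (-k) := by
  unfold Cl Fl
  rw [← Int.ceil_neg]
  congr 1; push_cast; ring

theorem Cl_add_mul (d : Fin n → ℕ) (hD : 0 < total d) (i : Fin n) (k : ℤ) (q : ℤ) :
    Cl (rate d i) (k + q * total d) = Cl (rate d i) k + q * d i := by
  rw [Cl_eq_neg_Fl, Cl_eq_neg_Fl, show -(k + q * (total d : ℤ)) = -k + (-q) * total d by ring,
    Fl_add_mul d hD]
  ring

/-- Necessity of Hall's condition, for all windows (also those crossing a multiple of `D`). -/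
theorem hall_of_Bstar_lt (d : Fin n → ℕ) (hD : 0 < total d) (h : Bstar d < 3/4) (a b : ℕ)
    (hab : a ≤ b) :
    ∑ i, max 0 (Fl (rate d i) b - Cl (rate d i) a) ≤ (b:ℤ) - a := by
  rw [Bstar_lt_iff d hD] at h
  obtain ⟨s, hs, hs2⟩ := h
  have hbd : ∀ i k, k ≤ total d → Fl (rate d i) k ≤ (occ s i k : ℤ) ∧
      (occ s i k : ℤ) ≤ Cl (rate d i) k := by
    intro i k hk
    rcases Nat.eq_zero_or_pos k with h0 | h0
    · subst h0; simp [Fl_zero, Cl_zero, occ_zero]
    have h2 := abs_lt.mp (hs2 i k h0 hk)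
    constructor
    · have h3 : ((Fl (rate d i) k : ℤ) : ℝ) ≤ (k:ℝ) * rate d i + 1/4 := by
        unfold Fl; exact_mod_cast Int.floor_le _
      have h4 : ((Fl (rate d i) k : ℤ) : ℝ) < ((occ s i k : ℤ) : ℝ) + 1 := by
        push_cast; linarith [h2.1]
      have h5 : Fl (rate d i) k < (occ s i k : ℤ) + 1 := by exact_mod_cast h4
      omega
    · have h3 : (k:ℝ) * rate d i - 1/4 ≤ ((Cl (rate d i) k : ℤ) : ℝ) := by
        unfold Cl; exact_mod_cast Int.le_ceil _
      have h4 : ((occ s i k : ℤ) : ℝ) < ((Cl (rate d i) k : ℤ) : ℝ) + 1 := by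
        push_cast; linarith [h2.2]
      have h5 : (occ s i k : ℤ) < Cl (rate d i) k + 1 := by exact_mod_cast h4
      omega
  have hoccle : ∀ i k, occ s i k ≤ d i := by
    intro i k
    rw [← hs i]
    unfold occ
    apply card_le_card
    intro t ht
    rw [mem_filter] at ht ⊢
    exact ⟨ht.1, ht.2.2⟩
  have hoccmono : ∀ i k k', k ≤ k' → occ s i k ≤ occ s i k' := by
    intro i k k' hkk
    unfold occ
    apply card_le_card
    intro t ht
    rw [mem_filter] at ht ⊢
    exact ⟨ht.1, by omega, ht.2.2⟩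
  let X : Fin n → ℕ → ℕ := fun i k => (k / total d) * d i + occ s i (k % total d)
  have hX : ∀ (i : Fin n) (k : ℕ), Fl (rate d i) (k:ℤ) ≤ (X i k : ℤ) ∧
      (X i k : ℤ) ≤ Cl (rate d i) (k:ℤ) := by
    intro i k
    have h1 : (k:ℤ) = ((k % total d : ℕ) : ℤ) + ((k / total d : ℕ) : ℤ) * total d := by
      have := Nat.mod_add_div k (total d)
      have h2 : ((k % total d + total d * (k / total d) : ℕ) : ℤ) = k := by rw [this]
      rw [← h2]
      push_cast
      ring
    have h2 := hbd i (k % total d) (le_of_lt (Nat.mod_lt _ hD))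
    rw [h1, Fl_add_mul d hD, Cl_add_mul d hD]
    simp only [X]
    push_cast
    push_cast at h2
    constructor <;> linarith [h2.1, h2.2]
  have hXmono : ∀ i, X i a ≤ X i b := by
    intro i
    simp only [X]
    rcases Nat.lt_or_ge (a / total d) (b / total d) with h1 | h1
    · have h2 := hoccle i (a % total d)
      have h3 : (a / total d + 1) * d i ≤ (b / total d) * d i := Nat.mul_le_mul_right _ h1
      have h4 : (a / total d + 1) * d i = (a / total d) * d i + d i := by ring
      omega
    · have h2 : a / total d = b / total d := le_antisymm (Nat.div_le_div_right hab) h1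
      have h3 : a % total d ≤ b % total d := by
        have e1 := Nat.mod_add_div a (total d)
        have e2 := Nat.mod_add_div b (total d)
        rw [h2] at e1
        omega
      have := hoccmono i _ _ h3
      rw [h2]; omega
  have hXsum : ∀ k, ∑ i, X i k = k := by
    intro k
    simp only [X]
    rw [Finset.sum_add_distrib, ← Finset.mul_sum, sum_occ d s _ (le_of_lt (Nat.mod_lt _ hD))]
    have : ∑ i, d i = total d := rfl
    rw [this]
    have := Nat.mod_add_div k (total d)
    rw [mul_comm] at this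
    linarith
  calc ∑ i, max 0 (Fl (rate d i) b - Cl (rate d i) a)
      ≤ ∑ i, ((X i b : ℤ) - X i a) := by
        apply Finset.sum_le_sum
        intro i _
        apply max_le
        · have : (X i a : ℤ) ≤ X i b := by exact_mod_cast hXmono i
          omega
        · have h1 := (hX i b).1
          have h2 := (hX i a).2
          omega
    _ = ((∑ i, X i b : ℕ) : ℤ) - ((∑ i, X i a : ℕ) : ℤ) := by
        push_cast; rw [Finset.sum_sub_distrib]
    _ = (b:ℤ) - a := by rw [hXsum, hXsum]

/-- A sufficient condition valid for every number of letters: the prefix condition together with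
the rounding condition for short windows. -/
theorem Bstar_lt_of_prefix_round (d : Fin n → ℕ) (_hd : ∀ i, 0 < d i) (hD : 0 < total d)
    (hP : ∀ b : ℤ, ∑ i, Fl (rate d i) b ≤ b)
    (hR : ∀ L : ℕ, 1 ≤ L → (∃ l, 2 * L * d l < total d) →
      ∑ i, ⌊(L:ℝ) * d i / total d + 1/2⌋ ≤ (L:ℤ)) :
    Bstar d < 3/4 := by
  have hD' : (0:ℝ) < total d := by exact_mod_cast hD
  apply Bstar_lt_of_hall d hD
  intro a b hab _
  by_cases hneg : ∃ l, Fl (rate d l) b - Cl (rate d l) a < 0
  · obtain ⟨l, hl⟩ := hneg
    have hlt : 2 * (b - a) * d l < total d := by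
      have h1 : (b:ℝ) * rate d l + 1/4 - 1 < ((Fl (rate d l) b : ℤ) : ℝ) := by
        unfold Fl; exact_mod_cast Int.sub_one_lt_floor _
      have h2 : ((Cl (rate d l) a : ℤ) : ℝ) < (a:ℝ) * rate d l - 1/4 + 1 := by
        unfold Cl; exact_mod_cast Int.ceil_lt_add_one _
      have h3 : ((Fl (rate d l) b : ℤ) : ℝ) + 1 ≤ ((Cl (rate d l) a : ℤ) : ℝ) := by
        exact_mod_cast (by omega : Fl (rate d l) b + 1 ≤ Cl (rate d l) a)
      have h4 : ((b:ℝ) - a) * rate d l < 1/2 := by linarith
      unfold rate at h4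
      rw [mul_div_assoc', div_lt_iff₀ hD'] at h4
      have h5 : ((2 * (b - a) * d l : ℕ) : ℝ) < total d := by
        push_cast
        rw [Nat.cast_sub (le_of_lt hab)]
        linarith
      exact_mod_cast h5
    have h6 := hR (b - a) (by omega) ⟨l, hlt⟩
    have h7 : ∀ i, max 0 (Fl (rate d i) b - Cl (rate d i) a)
        ≤ ⌊((b - a : ℕ):ℝ) * d i / total d + 1/2⌋ := by
      intro i
      rw [Nat.cast_sub (le_of_lt hab)]
      apply max_le
      · apply Int.floor_nonneg.mpr
        have : (0:ℝ) ≤ (b:ℝ) - a := by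
          have : (a:ℝ) ≤ b := by exact_mod_cast le_of_lt hab
          linarith
        positivity
      · rw [Int.le_floor]
        have h1 : ((Fl (rate d i) b : ℤ) : ℝ) ≤ (b:ℝ) * rate d i + 1/4 := by
          unfold Fl; exact_mod_cast Int.floor_le _
        have h2 : (a:ℝ) * rate d i - 1/4 ≤ ((Cl (rate d i) a : ℤ) : ℝ) := by
          unfold Cl; exact_mod_cast Int.le_ceil _
        have h3 : ((b:ℝ) - a) * d i / total d = b * rate d i - a * rate d i := by
          unfold rate; ring
        rw [h3]; push_cast; linarith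
    calc _ ≤ ∑ i, ⌊((b - a : ℕ):ℝ) * d i / total d + 1/2⌋ := Finset.sum_le_sum (fun i _ => h7 i)
      _ ≤ ((b - a : ℕ) : ℤ) := h6
      _ = (b:ℤ) - a := by rw [Nat.cast_sub (le_of_lt hab)]
  · push Not at hneg
    have h1 := hP b
    have h2 := hP (-a)
    have h3 : ∑ i, max 0 (Fl (rate d i) b - Cl (rate d i) a)
        = ∑ i, Fl (rate d i) b + ∑ i, Fl (rate d i) (-a) := by
      rw [← Finset.sum_add_distrib]
      apply Finset.sum_congr rfl
      intro i _
      rw [max_eq_right (hneg i), Cl_eq_neg_Fl]; ring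
    rw [h3]; omega

/-- the sum of the exact positions -/
theorem sum_rate (d : Fin n → ℕ) (hD : 0 < total d) : ∑ i, rate d i = 1 := by
  unfold rate
  rw [← Finset.sum_div]
  have : ∑ i, (d i : ℝ) = total d := by unfold total; push_cast; rfl
  rw [this]
  have hD' : (total d : ℝ) ≠ 0 := by positivity
  field_simp

theorem sum_Fl_le (d : Fin n → ℕ) (hD : 0 < total d) (b : ℤ) :
    ((∑ i, Fl (rate d i) b : ℤ) : ℝ) ≤ b + n / 4 := by
  push_cast
  calc ∑ i, ((Fl (rate d i) b : ℤ) : ℝ) ≤ ∑ i, ((b:ℝ) * rate d i + 1/4) := by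
        apply Finset.sum_le_sum
        intro i _
        unfold Fl; exact Int.floor_le _
    _ = b + n / 4 := by
        rw [Finset.sum_add_distrib, ← Finset.mul_sum, sum_rate d hD]
        simp; ring

/-- (1) At most three letters. -/
theorem Bstar_lt_three (hn : n ≤ 3) (d : Fin n → ℕ) (hd : ∀ i, 0 < d i) (hD : 0 < total d) :
    Bstar d < 3/4 := by
  have hn' : (n:ℝ) ≤ 3 := by exact_mod_cast hn
  apply Bstar_lt_of_prefix_round d hd hD
  · intro b
    have h1 := sum_Fl_le d hD b
    have h2 : ((∑ i, Fl (rate d i) b : ℤ) : ℝ) < ((b:ℤ):ℝ) + 1 := by linarith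
    have h3 : (∑ i, Fl (rate d i) b : ℤ) < b + 1 := by exact_mod_cast h2
    omega
  · rintro L hL ⟨l, hl⟩
    have hD' : (0:ℝ) < total d := by exact_mod_cast hD
    have h0 : ⌊(L:ℝ) * d l / total d + 1/2⌋ = 0 := by
      rw [Int.floor_eq_iff]
      have h1 : (2:ℝ) * L * d l < total d := by exact_mod_cast hl
      have h2 : (L:ℝ) * d l / total d < 1/2 := by rw [div_lt_iff₀ hD']; linarith
      have h3 : 0 ≤ (L:ℝ) * d l / total d := by positivity
      push_cast
      constructor <;> linarith
    have h4 : ((∑ i, ⌊(L:ℝ) * d i / total d + 1/2⌋ : ℤ) : ℝ) < L + 1 := by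
      rw [← Finset.add_sum_erase _ _ (mem_univ l), h0, zero_add]
      push_cast
      have h5 : ∑ i ∈ univ.erase l, ((⌊(L:ℝ) * d i / total d + 1/2⌋ : ℤ) : ℝ)
          ≤ ∑ i ∈ univ.erase l, ((L:ℝ) * rate d i + 1/2) := by
        apply Finset.sum_le_sum
        intro i _
        have := Int.floor_le ((L:ℝ) * d i / total d + 1/2)
        unfold rate
        rw [mul_div_assoc] at this
        rw [mul_div_assoc]
        exact this
      have h6 : ∑ i ∈ univ.erase l, rate d i = 1 - rate d l := by
        have := sum_rate d hD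
        rw [← Finset.add_sum_erase _ _ (mem_univ l)] at this
        linarith
      have h7 : 0 < (L:ℝ) * rate d l := by
        unfold rate
        have h8 : (0:ℝ) < d l := by exact_mod_cast hd l
        have h9 : (0:ℝ) < L := by exact_mod_cast hL
        positivity
      rw [Finset.sum_add_distrib, ← Finset.mul_sum, h6] at h5
      have h8 : ∑ _i ∈ univ.erase l, ((1:ℝ)/2) ≤ 1 := by
        rw [Finset.sum_const, card_erase_of_mem (mem_univ l), card_univ, Fintype.card_fin,
          nsmul_eq_mul]
        have : ((n - 1 : ℕ) : ℝ) ≤ 2 := by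
          have : n - 1 ≤ 2 := by omega
          exact_mod_cast this
        linarith
      linarith
    have h5 : (∑ i, ⌊(L:ℝ) * d i / total d + 1/2⌋ : ℤ) < L + 1 := by exact_mod_cast h4
    omega

end Pool.Agent.H78.BN
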