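import Mathlib

/-!
# Bottleneck deviation of sequences (MP_3a77f1_co): definitions

Exactly the definitions of the problem file.  Positions are `0, …, D-1` (position `t` is the
problem's position `t+1`), so that the first `k` letters are the positions `t < k`.
-/

namespace Pool.Agent.H78.BN

open Finset

/-- The total demand `D = ∑ dᵢ` of an instance `d = (d₁,…,dₙ)`. -/
def total {n : ℕ} (d : Fin n → ℕ) : ℕ := ∑ i, d i

/-- `s` is a sequence for `d`: a word of length `D` in which each letter `i` occurs exactly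
`d i` times. -/
def IsSequence {n : ℕ} (d : Fin n → ℕ) (s : Fin (total d) → Fin n) : Prop :=
  ∀ i, (univ.filter (fun t => s t = i)).card = d i

/-- `x_{ik}`: the number of occurrences of the letter `i` among the first `k` letters of `s`. -/
def occ {n D : ℕ} (s : Fin D → Fin n) (i : Fin n) (k : ℕ) : ℕ :=
  (univ.filter (fun t : Fin D => (t : ℕ) < k ∧ s t = i)).card

/-- The bottleneck (maximum) deviation of a word `s`: the maximum of `|x_{ik} - k dᵢ/D|` over all
letters `i` and all `k = 1, …, D`. -/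
noncomputable def deviation {n : ℕ} (d : Fin n → ℕ) (s : Fin (total d) → Fin n) : ℝ :=
  ⨆ p : Fin n × Fin (total d),
    |(occ s p.1 ((p.2 : ℕ) + 1) : ℝ) - (((p.2 : ℕ) + 1 : ℕ) : ℝ) * ((d p.1 : ℝ) / (total d : ℝ))|

/-- The optimal bottleneck deviation `B*(d)`: the minimum of the bottleneck deviation over all
sequences for `d`. -/
noncomputable def Bstar {n : ℕ} (d : Fin n → ℕ) : ℝ :=
  sInf {b | ∃ s, IsSequence d s ∧ b = deviation d s}

/-! ### The family of instances -/

/-- The pairs `2^(e+1) Q - ρ₀, 2^(e+1) Q + ρ₀, 2^(e+2) Q - ρ₁, 2^(e+2) Q + ρ₁, …`. -/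
def pairsFrom (Q : ℕ) : ℕ → List ℕ → List ℕ
  | _, [] => []
  | e, r :: ρ => (2 ^ (e + 1) * Q - r) :: (2 ^ (e + 1) * Q + r) :: pairsFrom Q (e + 1) ρ

/-- The instance `(Q, Q, Q, Q, 4Q, 8Q, 16Q, 16Q - ρ₀, 16Q + ρ₀, 32Q - ρ₁, 32Q + ρ₁, …)`. -/
def fam (Q : ℕ) (ρ : List ℕ) : List ℕ :=
  [Q, Q, Q, Q, 4 * Q, 8 * Q, 16 * Q] ++ pairsFrom Q 3 ρ

/-- The list of offsets encoding the graph with vertex set `Fin V` and edge list `E`. -/
def colorRho (V : ℕ) (E : List (Fin V × Fin V)) : List ℕ :=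
  (List.finRange V).map (fun i : Fin V => 12 * 27 ^ (V - 1 - (i:ℕ))) ++
    E.map (fun e : Fin V × Fin V =>
      2 * 27 ^ V + 4 * 27 ^ (V - 1 - (e.1:ℕ)) - 4 * 27 ^ (V - 1 - (e.2:ℕ)))

/-- The instance encoding the graph with vertex set `Fin V` and edge list `E`. -/
def colorInstance (V : ℕ) (E : List (Fin V × Fin V)) : List ℕ := fam (27 ^ V) (colorRho V E)

end Pool.Agent.H78.BN
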