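import Pool.Agent.H78.BN.Family4

/-!
# Graph 3-colourability inside the family
-/

namespace Pool.Agent.H78.BN

open Finset

theorem pow_split {V : ℕ} (i : Fin V) : 27 ^ V = 27 ^ ((i:ℕ) + 1) * 27 ^ (V - 1 - (i:ℕ)) := by
  rw [← pow_add]; congr 1; have := i.isLt; omega

theorem pow_le {V : ℕ} (i : Fin V) : 27 * 27 ^ (V - 1 - (i:ℕ)) ≤ 27 ^ V := by
  rw [pow_split i]
  apply Nat.mul_le_mul_right
  calc 27 = 27 ^ 1 := by norm_num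
    _ ≤ 27 ^ ((i:ℕ) + 1) := Nat.pow_le_pow_right (by norm_num) (by omega)

theorem colorRho_length (V : ℕ) (E : List (Fin V × Fin V)) :
    (colorRho V E).length = V + E.length := by simp [colorRho]

theorem colorRho_lt (V : ℕ) (E : List (Fin V × Fin V)) : ∀ r ∈ colorRho V E, r < 8 * 27 ^ V := by
  intro r hr
  simp only [colorRho, List.mem_append, List.mem_map] at hr
  rcases hr with ⟨i, _, rfl⟩ | ⟨e, _, rfl⟩
  · have := pow_le i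
    have : 0 < 27 ^ V := by positivity
    omega
  · have := pow_le e.1
    have : 0 < 27 ^ V := by positivity
    omega

theorem odd27 (k : ℕ) : ∃ m, 27 ^ k = 2 * m + 1 := by
  have : Odd (27 ^ k) := Odd.pow (by decide)
  exact this

theorem colorRho_ndvd (V : ℕ) (E : List (Fin V × Fin V)) : ∀ r ∈ colorRho V E, ¬ 32 ∣ r := by
  intro r hr
  simp only [colorRho, List.mem_append, List.mem_map] at hr
  rcases hr with ⟨i, _, rfl⟩ | ⟨e, _, rfl⟩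
  · obtain ⟨m, hm⟩ := odd27 (V - 1 - (i:ℕ))
    rw [hm]; omega
  · have h1 := pow_le e.1
    have h2 := pow_le e.2
    obtain ⟨m1, hm1⟩ := odd27 (V - 1 - (e.1:ℕ))
    obtain ⟨m2, hm2⟩ := odd27 (V - 1 - (e.2:ℕ))
    obtain ⟨m3, hm3⟩ := odd27 V
    rw [hm1, hm3] at h1
    rw [hm2, hm3] at h2
    rw [hm1, hm2, hm3]
    omega

/-- base-27 digits realise every colouring -/
theorem exists_digits (c : ℕ → ℕ) (hc : ∀ i, c i ≤ 2) : ∀ m : ℕ, ∃ w : ℕ, w < 27 ^ m ∧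
    ∀ i < m, ∃ t ε : ℕ, w = 27 ^ (i+1) * t + 9 * 27 ^ i * c i + ε ∧ ε < 27 ^ i := by
  intro m
  induction m with
  | zero => exact ⟨0, by norm_num, fun i hi => by omega⟩
  | succ m ih =>
    obtain ⟨w, hw, h⟩ := ih
    refine ⟨w + 9 * 27 ^ m * c m, ?_, ?_⟩
    · have h1 := hc m
      have h2 : 9 * 27 ^ m * c m ≤ 9 * 27 ^ m * 2 := Nat.mul_le_mul_left _ h1
      have h3 : 27 ^ (m+1) = 27 * 27 ^ m := by ring
      omega
    · intro i hi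
      rcases Nat.lt_succ_iff_lt_or_eq.mp hi with h1 | h1
      · obtain ⟨t, ε, ht, hε⟩ := h i h1
        refine ⟨t + 9 * 27 ^ (m - (i+1)) * c m, ε, ?_, hε⟩
        have h2 : 27 ^ m = 27 ^ (i+1) * 27 ^ (m - (i+1)) := by
          rw [← pow_add]; congr 1; omega
        rw [ht, h2]; ring
      · subst h1
        exact ⟨0, w, by ring, hw⟩

theorem color_of_witness (V : ℕ) (E : List (Fin V × Fin V))
    (h : OddWitness (27 ^ V) (colorRho V E)) :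
    ∃ c : Fin V → Fin 3, ∀ e ∈ E, c e.1 ≠ c e.2 := by
  obtain ⟨w, ⟨k, hk⟩, hw⟩ := h
  have hv : ∀ i : Fin V, ∃ t : ℤ,
      |w * ((12 * 27 ^ (V - 1 - (i:ℕ)) : ℕ) : ℤ) - 4 * ((27 ^ V : ℕ) : ℤ) * t|
        ≤ ((27 ^ V : ℕ) : ℤ) := by
    intro i
    apply hw
    simp only [colorRho, List.mem_append, List.mem_map]
    exact Or.inl ⟨i, List.mem_finRange i, rfl⟩
  choose t ht using hv
  refine ⟨fun i => ⟨(t i % 3).toNat, by omega⟩, ?_⟩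
  intro e he hcon
  simp only [Fin.mk.injEq] at hcon
  obtain ⟨u, hu⟩ : ∃ u, t e.1 = t e.2 + 3 * u := ⟨(t e.1 - t e.2) / 3, by omega⟩
  obtain ⟨t', ht'⟩ := hw (2 * 27 ^ V + 4 * 27 ^ (V - 1 - (e.1:ℕ)) - 4 * 27 ^ (V - 1 - (e.2:ℕ)))
    (by
      simp only [colorRho, List.mem_append, List.mem_map]
      exact Or.inr ⟨e, he, rfl⟩)
  have h1 := ht e.1
  have h2 := ht e.2
  have h3 := pow_le e.2
  rw [Nat.cast_sub (by omega)] at ht'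
  push_cast at h1 h2 ht'
  have hQ : (0:ℤ) < 27 ^ V := by positivity
  generalize (27:ℤ) ^ V = Q at *
  generalize (27:ℤ) ^ (V - 1 - (e.1:ℕ)) = a at *
  generalize (27:ℤ) ^ (V - 1 - (e.2:ℕ)) = b at *
  rw [hu] at h1
  rw [abs_le] at h1 h2 ht'
  set m := k + u - t' with hm
  -- 3 * edge - (vertex1 - vertex2)
  have key : 3 * (w * (2 * Q + 4 * a - 4 * b) - 4 * Q * t')
      - (w * (12 * a) - 4 * Q * (t e.2 + 3 * u)) + (w * (12 * b) - 4 * Q * t e.2)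
      = 6 * Q * (2 * m + 1) := by
    rw [hm, hk]; ring
  have k1 : 6 * Q * (2 * m + 1) ≤ 5 * Q := by
    rw [← key]; linarith [h1.1, h2.2, ht'.2]
  have k2 : -(5 * Q) ≤ 6 * Q * (2 * m + 1) := by
    rw [← key]; linarith [h1.2, h2.1, ht'.1]
  rcases le_or_gt 0 m with hm0 | hm0
  · nlinarith
  · have : m ≤ -1 := by omega
    nlinarith

theorem witness_of_color (V : ℕ) (E : List (Fin V × Fin V))
    (h : ∃ c : Fin V → Fin 3, ∀ e ∈ E, c e.1 ≠ c e.2) :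
    OddWitness (27 ^ V) (colorRho V E) := by
  obtain ⟨c, hc⟩ := h
  obtain ⟨w0, _, hw0⟩ := exists_digits (fun i => if hi : i < V then (c ⟨i, hi⟩ : ℕ) else 0)
    (by intro i; split_ifs with hi
        · have := (c ⟨i, hi⟩).isLt; omega
        · omega) V
  -- make it odd
  obtain ⟨w, hwodd, hw⟩ : ∃ w : ℕ, Odd w ∧ ∀ i : Fin V, ∃ t ε : ℕ,
      w = 27 ^ ((i:ℕ)+1) * t + 9 * 27 ^ (i:ℕ) * (c i : ℕ) + ε ∧ ε < 27 ^ (i:ℕ) := by
    have h0 : ∀ i : Fin V, ∃ t ε : ℕ,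
      w0 = 27 ^ ((i:ℕ)+1) * t + 9 * 27 ^ (i:ℕ) * (c i : ℕ) + ε ∧ ε < 27 ^ (i:ℕ) := by
      intro i
      obtain ⟨t, ε, h1, h2⟩ := hw0 i i.isLt
      refine ⟨t, ε, ?_, h2⟩
      simp only [i.isLt, dif_pos] at h1
      exact h1
    rcases Nat.even_or_odd w0 with hev | hod
    · refine ⟨w0 + 27 ^ V, ?_, ?_⟩
      · exact hev.add_odd (Odd.pow (by decide))
      · intro i
        obtain ⟨t, ε, h1, h2⟩ := h0 i
        refine ⟨t + 27 ^ (V - 1 - (i:ℕ)), ε, ?_, h2⟩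
        rw [h1, pow_split i]; ring
    · exact ⟨w0, hod, h0⟩
  refine ⟨(w:ℤ), by exact_mod_cast hwodd, ?_⟩
  intro r hr
  simp only [colorRho, List.mem_append, List.mem_map] at hr
  rcases hr with ⟨i, _, rfl⟩ | ⟨e, he, rfl⟩
  · obtain ⟨t, ε, h1, h2⟩ := hw i
    refine ⟨3 * t + (c i : ℕ), ?_⟩
    have h3 := pow_split i
    have h4 : 27 ^ ((i:ℕ)+1) = 27 * 27 ^ (i:ℕ) := by ring
    have e1 : ((w:ℕ):ℤ) * ((12 * 27 ^ (V - 1 - (i:ℕ)) : ℕ) : ℤ)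
        - 4 * ((27 ^ V : ℕ) : ℤ) * (3 * t + ((c i : ℕ) : ℤ))
        = 12 * ((27 ^ (V - 1 - (i:ℕ)) : ℕ) : ℤ) * ε := by
      rw [h3, h1, h4]; push_cast; ring
    rw [e1, abs_of_nonneg (by positivity)]
    have h5 : 12 * 27 ^ (V - 1 - (i:ℕ)) * ε ≤ 27 ^ V := by
      rw [h3, h4]
      calc 12 * 27 ^ (V - 1 - (i:ℕ)) * ε ≤ 12 * 27 ^ (V - 1 - (i:ℕ)) * 27 ^ (i:ℕ) :=
            Nat.mul_le_mul_left _ (le_of_lt h2)
        _ ≤ 27 * 27 ^ (i:ℕ) * 27 ^ (V - 1 - (i:ℕ)) := by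
            have : 12 * 27 ^ (V - 1 - (i:ℕ)) * 27 ^ (i:ℕ) = 12 * (27 ^ (i:ℕ) * 27 ^ (V - 1 - (i:ℕ))) := by
              ring
            rw [this]
            have : 27 * 27 ^ (i:ℕ) * 27 ^ (V - 1 - (i:ℕ)) = 27 * (27 ^ (i:ℕ) * 27 ^ (V - 1 - (i:ℕ))) := by
              ring
            rw [this]
            apply Nat.mul_le_mul_right; norm_num
    exact_mod_cast h5
  · have hne := hc e he
    obtain ⟨t1, ε1, h1, h2⟩ := hw e.1
    obtain ⟨t2, ε2, h3, h4⟩ := hw e.2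
    obtain ⟨k, hk⟩ := hwodd
    have hpow2 := pow_le e.2
    have hV : 27 ^ V = 27 * 27 ^ (V - 1) := by
      rw [← pow_succ']; congr 1; have := e.1.isLt; omega
    have p1 : 27 ^ (e.1:ℕ) * 27 ^ (V - 1 - (e.1:ℕ)) = 27 ^ (V - 1) := by
      rw [← pow_add]; congr 1; have := e.1.isLt; omega
    have p2 : 27 ^ (e.2:ℕ) * 27 ^ (V - 1 - (e.2:ℕ)) = 27 ^ (V - 1) := by
      rw [← pow_add]; congr 1; have := e.2.isLt; omega
    rw [Nat.cast_sub (by omega)]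
    -- set up integers
    have hp1 : ((27:ℤ) ^ (e.1:ℕ)) * 27 ^ (V - 1 - (e.1:ℕ)) = 27 ^ (V - 1) := by exact_mod_cast p1
    have hp2 : ((27:ℤ) ^ (e.2:ℕ)) * 27 ^ (V - 1 - (e.2:ℕ)) = 27 ^ (V - 1) := by exact_mod_cast p2
    have hVz : (27:ℤ) ^ V = 27 * 27 ^ (V - 1) := by exact_mod_cast hV
    have hw1 : (w:ℤ) = 27 * 27 ^ (e.1:ℕ) * t1 + 9 * 27 ^ (e.1:ℕ) * ((c e.1 : ℕ):ℤ) + ε1 := by
      rw [h1]; push_cast; ring
    have hw2 : (w:ℤ) = 27 * 27 ^ (e.2:ℕ) * t2 + 9 * 27 ^ (e.2:ℕ) * ((c e.2 : ℕ):ℤ) + ε2 := by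
      rw [h3]; push_cast; ring
    have hwk : (w:ℤ) = 2 * k + 1 := by rw [hk]; push_cast; ring
    set a := (27:ℤ) ^ (V - 1 - (e.1:ℕ)) with ha
    set b := (27:ℤ) ^ (V - 1 - (e.2:ℕ)) with hb
    set P := (27:ℤ) ^ (V - 1) with hP
    have hε1 : 0 ≤ a * ε1 ∧ a * ε1 ≤ P := by
      refine ⟨by positivity, ?_⟩
      have h5 : (ε1:ℤ) ≤ 27 ^ (e.1:ℕ) := by exact_mod_cast le_of_lt h2
      calc a * ε1 ≤ a * 27 ^ (e.1:ℕ) := mul_le_mul_of_nonneg_left h5 (by positivity)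
        _ = P := by rw [mul_comm]; exact hp1
    have hε2 : 0 ≤ b * ε2 ∧ b * ε2 ≤ P := by
      refine ⟨by positivity, ?_⟩
      have h5 : (ε2:ℤ) ≤ 27 ^ (e.2:ℕ) := by exact_mod_cast le_of_lt h4
      calc b * ε2 ≤ b * 27 ^ (e.2:ℕ) := mul_le_mul_of_nonneg_left h5 (by positivity)
        _ = P := by rw [mul_comm]; exact hp2
    have hPpos : 0 < P := by positivity
    have eq1 : 4 * a * (w:ℤ) = 108 * P * t1 + 36 * P * ((c e.1 : ℕ):ℤ) + 4 * (a * ε1) := by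
      rw [hw1, ← hp1]; ring
    have eq2 : 4 * b * (w:ℤ) = 108 * P * t2 + 36 * P * ((c e.2 : ℕ):ℤ) + 4 * (b * ε2) := by
      rw [hw2, ← hp2]; ring
    -- main formula
    have main : ∀ T : ℤ, (w:ℤ) * (((2 * 27 ^ V + 4 * 27 ^ (V - 1 - (e.1:ℕ)) : ℕ) : ℤ)
        - ((4 * 27 ^ (V - 1 - (e.2:ℕ)) : ℕ) : ℤ))
        - 4 * ((27 ^ V : ℕ) : ℤ) * (k + t1 - t2 + T)
        = P * (54 + 36 * (((c e.1 : ℕ):ℤ) - ((c e.2 : ℕ):ℤ)) - 108 * T)
          + 4 * (a * ε1 - b * ε2) := by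
      intro T
      have : (w:ℤ) * (((2 * 27 ^ V + 4 * 27 ^ (V - 1 - (e.1:ℕ)) : ℕ) : ℤ)
        - ((4 * 27 ^ (V - 1 - (e.2:ℕ)) : ℕ) : ℤ)) = 54 * P * w + 4 * a * w - 4 * b * w := by
        push_cast
        rw [hVz]
        ring
      rw [this, eq1, eq2]
      push_cast
      rw [hVz, hwk]
      ring
    have hQ27 : ((27 ^ V : ℕ) : ℤ) = 27 * P := by push_cast; exact hVz
    have hc1 := (c e.1).isLt
    have hc2 := (c e.2).isLt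
    have hne' : (c e.1 : ℕ) ≠ (c e.2 : ℕ) := fun h => hne (Fin.ext h)
    have hcases : ∃ T : ℤ, (54 + 36 * (((c e.1 : ℕ):ℤ) - ((c e.2 : ℕ):ℤ)) - 108 * T = 18) ∨
        (54 + 36 * (((c e.1 : ℕ):ℤ) - ((c e.2 : ℕ):ℤ)) - 108 * T = -18) := by
      have : ((c e.1 : ℕ):ℤ) - ((c e.2 : ℕ):ℤ) = 1 ∨ ((c e.1 : ℕ):ℤ) - ((c e.2 : ℕ):ℤ) = -1 ∨
        ((c e.1 : ℕ):ℤ) - ((c e.2 : ℕ):ℤ) = 2 ∨ ((c e.1 : ℕ):ℤ) - ((c e.2 : ℕ):ℤ) = -2 := by
        omega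
      rcases this with h | h | h | h <;> rw [h]
      · exact ⟨1, Or.inr (by norm_num)⟩
      · exact ⟨0, Or.inl (by norm_num)⟩
      · exact ⟨1, Or.inl (by norm_num)⟩
      · exact ⟨0, Or.inr (by norm_num)⟩
    obtain ⟨T, hT⟩ := hcases
    refine ⟨k + t1 - t2 + T, ?_⟩
    rw [main T, hQ27, abs_le]
    obtain ⟨g1, g2⟩ := hε1
    obtain ⟨g3, g4⟩ := hε2
    rcases hT with hT | hT <;> rw [hT] <;> constructor <;> linarith

theorem color_iff (V : ℕ) (E : List (Fin V × Fin V)) :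
    OddWitness (27 ^ V) (colorRho V E) ↔ ∃ c : Fin V → Fin 3, ∀ e ∈ E, c e.1 ≠ c e.2 :=
  ⟨color_of_witness V E, witness_of_color V E⟩

end Pool.Agent.H78.BN
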