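import Pool.Agent.H78.BN.Seq

/-!
# `B*(d) < 3/4` in terms of sequences
-/

namespace Pool.Agent.H78.BN

open Finset

variable {n : ℕ}

theorem exists_sequence (d : Fin n → ℕ) : ∃ s : Fin (total d) → Fin n, IsSequence d s := by
  classical
  have hcardJ : Fintype.card (Fin (total d)) = Fintype.card (Σ i : Fin n, Fin (d i)) := by
    rw [Fintype.card_sigma]; simp only [Fintype.card_fin]; rfl
  let e : Fin (total d) ≃ (Σ i : Fin n, Fin (d i)) := Fintype.equivOfCardEq hcardJ
  refine ⟨fun t => (e t).1, ?_⟩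
  intro i
  have h1 : (univ.filter (fun t : Fin (total d) => (e t).1 = i)).card
      = (univ : Finset (Fin (d i))).card := by
    symm
    apply card_bij (fun (j : Fin (d i)) _ => e.symm ⟨i, j⟩)
    · intro j _
      simp
    · intro j _ j' _ hjj
      have := e.symm.injective hjj
      simpa using this
    · intro t ht
      rw [mem_filter] at ht
      obtain ⟨_, ht⟩ := ht
      subst ht
      exact ⟨(e t).2, mem_univ _, by simp⟩
  rw [h1, card_univ, Fintype.card_fin]

theorem deviation_lt_iff (d : Fin n → ℕ) (hD : 0 < total d) (s : Fin (total d) → Fin n) (c : ℝ) :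
    deviation d s < c ↔
      ∀ i k, 1 ≤ k → k ≤ total d → |(occ s i k : ℝ) - (k:ℝ) * rate d i| < c := by
  have hn : Nonempty (Fin n) := by
    by_contra h
    rw [not_nonempty_iff] at h
    unfold total at hD
    rw [Finset.univ_eq_empty, Finset.sum_empty] at hD
    omega
  have hF : Nonempty (Fin (total d)) := ⟨⟨0, hD⟩⟩
  unfold deviation
  constructor
  · intro h i k hk1 hk2
    refine lt_of_le_of_lt ?_ h
    have := le_ciSup (f := fun p : Fin n × Fin (total d) =>
      |(occ s p.1 ((p.2 : ℕ) + 1) : ℝ) - (((p.2 : ℕ) + 1 : ℕ) : ℝ) *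
        ((d p.1 : ℝ) / (total d : ℝ))|) (Set.toFinite _).bddAbove (i, ⟨k - 1, by omega⟩)
    simp only at this
    rw [show k - 1 + 1 = k by omega] at this
    exact this
  · intro h
    obtain ⟨p, hp⟩ := exists_eq_ciSup_of_finite (f := fun p : Fin n × Fin (total d) =>
      |(occ s p.1 ((p.2 : ℕ) + 1) : ℝ) - (((p.2 : ℕ) + 1 : ℕ) : ℝ) *
        ((d p.1 : ℝ) / (total d : ℝ))|)
    rw [← hp]
    exact h p.1 (p.2 + 1) (by omega) (by have := p.2.isLt; omega)

theorem Bstar_lt_iff (d : Fin n → ℕ) (hD : 0 < total d) (c : ℝ) :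
    Bstar d < c ↔ ∃ s : Fin (total d) → Fin n, IsSequence d s ∧
      ∀ i k, 1 ≤ k → k ≤ total d → |(occ s i k : ℝ) - (k:ℝ) * rate d i| < c := by
  unfold Bstar
  constructor
  · intro h
    obtain ⟨s0, hs0⟩ := exists_sequence d
    have hne : {b | ∃ s, IsSequence d s ∧ b = deviation d s}.Nonempty :=
      ⟨deviation d s0, s0, hs0, rfl⟩
    obtain ⟨b, ⟨s, hs, rfl⟩, hb⟩ := exists_lt_of_csInf_lt hne h
    exact ⟨s, hs, (deviation_lt_iff d hD s c).mp hb⟩
  · rintro ⟨s, hs, hs2⟩
    have h1 := (deviation_lt_iff d hD s c).mpr hs2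
    refine lt_of_le_of_lt (csInf_le ?_ ⟨s, hs, rfl⟩) h1
    have : {b | ∃ s, IsSequence d s ∧ b = deviation d s} ⊆ Set.range (deviation d) := by
      rintro b ⟨s, _, rfl⟩; exact ⟨s, rfl⟩
    exact ((Set.finite_range (deviation d)).subset this).bddBelow

/-- The sum of the occurrence numbers is the length of the prefix. -/
theorem sum_occ (d : Fin n → ℕ) (s : Fin (total d) → Fin n) (k : ℕ) (hk : k ≤ total d) :
    ∑ i, occ s i k = k := by
  unfold occ
  have h1 : ∀ i, (univ.filter (fun t : Fin (total d) => (t:ℕ) < k ∧ s t = i))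
      = ((univ.filter (fun t : Fin (total d) => (t:ℕ) < k)).filter (fun t => s t = i)) := by
    intro i; rw [filter_filter]
  simp only [h1]
  rw [← card_eq_sum_card_fiberwise (f := s) (t := univ) (fun _ _ => mem_coe.mpr (mem_univ _))]
  have : (univ.filter (fun t : Fin (total d) => (t:ℕ) < k)).card
      = (Finset.univ : Finset (Fin k)).card := by
    symm
    apply card_bij (fun (j : Fin k) _ => Fin.castLE hk j)
    · intro j _
      rw [mem_filter]; exact ⟨mem_univ _, by simp⟩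
    · intro j _ j' _ hjj
      simpa using hjj
    · intro t ht
      rw [mem_filter] at ht
      exact ⟨⟨t, ht.2⟩, mem_univ _, by ext; simp⟩
  rw [this]; simp

theorem occ_zero {D : ℕ} (s : Fin D → Fin n) (i : Fin n) : occ s i 0 = 0 := by
  unfold occ; simp

/-- Necessary condition (prefix condition). -/
theorem prefix_of_Bstar_lt (d : Fin n → ℕ) (hD : 0 < total d) (h : Bstar d < 3/4) :
    ∀ k : ℕ, k ≤ total d → ∑ i, Fl (rate d i) k ≤ (k : ℤ) := by
  intro k hk
  rw [Bstar_lt_iff d hD] at h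
  obtain ⟨s, hs, hs2⟩ := h
  rcases Nat.eq_zero_or_pos k with h0 | h0
  · subst h0; simp [Fl_zero]
  have h1 : ∀ i, Fl (rate d i) k ≤ (occ s i k : ℤ) := by
    intro i
    have h2 := (abs_lt.mp (hs2 i k h0 hk)).1
    have h3 : ((Fl (rate d i) k : ℤ) : ℝ) ≤ (k:ℝ) * rate d i + 1/4 := by
      unfold Fl; exact_mod_cast Int.floor_le _
    have h4 : ((Fl (rate d i) k : ℤ) : ℝ) < ((occ s i k : ℤ) : ℝ) + 1 := by
      push_cast; linarith
    have h5 : Fl (rate d i) k < (occ s i k : ℤ) + 1 := by exact_mod_cast h4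
    omega
  calc ∑ i, Fl (rate d i) k ≤ ∑ i, (occ s i k : ℤ) := Finset.sum_le_sum (fun i _ => h1 i)
    _ = ((∑ i, occ s i k : ℕ) : ℤ) := by push_cast; rfl
    _ = (k:ℤ) := by rw [sum_occ d s k hk]

/-- Sufficient condition (Hall's condition). -/
theorem Bstar_lt_of_hall (d : Fin n → ℕ) (hD : 0 < total d)
    (h : ∀ a b : ℕ, a < b → b ≤ total d →
      ∑ i, max 0 (Fl (rate d i) b - Cl (rate d i) a) ≤ (b:ℤ) - a) :
    Bstar d < 3/4 := by
  rw [Bstar_lt_iff d hD]
  obtain ⟨s, hs, hs2⟩ := exists_seq_of_hall d hD (by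
    intro a b hab hb
    rcases Nat.eq_or_lt_of_le hab with h0 | h0
    · subst h0
      rw [sub_self]
      apply le_of_eq
      apply Finset.sum_eq_zero
      intro i _
      have := Fl_le_Cl (rate d i) (a:ℤ)
      rw [max_eq_left]; omega
    · exact h a b h0 hb)
  refine ⟨s, hs, ?_⟩
  intro i k _ hk2
  obtain ⟨h1, h2⟩ := hs2 i k hk2
  rw [abs_lt]
  constructor
  · have h3 : (k:ℝ) * rate d i + 1/4 - 1 < ((Fl (rate d i) k : ℤ) : ℝ) := by
      unfold Fl; exact_mod_cast Int.sub_one_lt_floor _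
    have h4 : ((Fl (rate d i) k : ℤ) : ℝ) ≤ ((occ s i k : ℤ) : ℝ) := by exact_mod_cast h1
    push_cast at h4
    linarith
  · have h3 : ((Cl (rate d i) k : ℤ) : ℝ) < (k:ℝ) * rate d i - 1/4 + 1 := by
      unfold Cl; exact_mod_cast Int.ceil_lt_add_one _
    have h4 : ((occ s i k : ℤ) : ℝ) ≤ ((Cl (rate d i) k : ℤ) : ℝ) := by exact_mod_cast h2
    push_cast at h4
    linarith

end Pool.Agent.H78.BN
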