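import Pool.Agent.H78.BN.Defs

/-!
# Dyadic instances: definitions
-/

namespace Pool.Agent.H78.BN

/-- The upper levels of a dyadic instance: for `e = 0, 1, …` level `e` has total demand
`2^(e+2) Q`; it is either one letter (`none`) or the two letters `p` and `2^(e+2) Q - p`
(`some p`). -/
def levelsFrom (Q : ℕ) : ℕ → List (Option ℕ) → List ℕ
  | _, [] => []
  | e, none :: t => (2 ^ (e + 2) * Q) :: levelsFrom Q (e + 1) t
  | e, some p :: t => p :: (2 ^ (e + 2) * Q - p) :: levelsFrom Q (e + 1) t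

/-- The condition on a split level `e`: both letters exceed a quarter of the level, and
`p` is not congruent to half of the level modulo `2^(e+2)`. -/
def GoodSplit (Q e p : ℕ) : Prop :=
  2 ^ e * Q < p ∧ p < 3 * (2 ^ e * Q) ∧ ¬ 2 ^ (e + 2) ∣ p + 2 ^ (e + 1) * Q

/-- The instance `(Q, Q, Q, Q)` followed by the levels. -/
def dyadic4 (Q : ℕ) (t : List (Option ℕ)) : List ℕ := [Q, Q, Q, Q] ++ levelsFrom Q 0 t

/-- The instance `(Q, Q, 2Q)` followed by the levels. -/
def dyadic3 (Q : ℕ) (t : List (Option ℕ)) : List ℕ := [Q, Q, 2 * Q] ++ levelsFrom Q 0 t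

end Pool.Agent.H78.BN
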