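import Pool.Agent.H78.BN.Family3

/-!
# `B*(fam Q ρ) < 3/4` iff there is no odd witness
-/

namespace Pool.Agent.H78.BN

open Finset

theorem total_get (l : List ℕ) : total l.get = l.sum := by
  unfold total
  simp only [List.get_eq_getElem]
  exact Fin.sum_univ_getElem l

theorem sum_get (l : List ℕ) (f : ℕ → ℤ) : ∑ i : Fin l.length, f (l.get i) = (l.map f).sum := by
  simp only [List.get_eq_getElem]
  exact Fin.sum_univ_fun_getElem l f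

theorem fam_total (Q : ℕ) (ρ : List ℕ) (hρ : ∀ r ∈ ρ, r < 8 * Q) :
    total (fam Q ρ).get = 2 ^ (5 + ρ.length) * Q := by
  rw [total_get, fam_sum Q ρ hρ]

theorem fam_Fl (Q : ℕ) (hQ : 0 < Q) (ρ : List ℕ) (hρ : ∀ r ∈ ρ, r < 8 * Q) (i) (b : ℤ) :
    Fl (rate (fam Q ρ).get i) b = FF Q ((b:ℝ) / 2 ^ (3 + ρ.length)) ((fam Q ρ).get i) := by
  unfold Fl FF rate
  rw [fam_total Q ρ hρ]
  have hQ' : (Q:ℝ) ≠ 0 := by positivity
  congr 2
  push_cast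
  rw [show 5 + ρ.length = (3 + ρ.length) + 2 by ring, pow_add]
  field_simp
  ring

theorem fam_Cl (Q : ℕ) (hQ : 0 < Q) (ρ : List ℕ) (hρ : ∀ r ∈ ρ, r < 8 * Q) (i) (b : ℤ) :
    Cl (rate (fam Q ρ).get i) b = CC Q ((b:ℝ) / 2 ^ (3 + ρ.length)) ((fam Q ρ).get i) := by
  unfold Cl CC rate
  rw [fam_total Q ρ hρ]
  have hQ' : (Q:ℝ) ≠ 0 := by positivity
  congr 2
  push_cast
  rw [show 5 + ρ.length = (3 + ρ.length) + 2 by ring, pow_add]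
  field_simp
  ring

/-- normalising the witness -/
theorem witness_mod (Q : ℕ) (hQ : 0 < Q) (ρ : List ℕ) (h : OddWitness Q ρ) :
    ∃ v : ℕ, v + 1 ≤ Q ∧ ∀ r ∈ ρ, ∃ t : ℤ, |(4 * v + 3 : ℤ) * r - 4 * Q * t| ≤ Q := by
  obtain ⟨w, hodd, hw⟩ := h
  obtain ⟨s, hs⟩ := hodd
  have hmod : ∀ (w' c : ℤ), w' = w + 4 * Q * c →
      ∀ r ∈ ρ, ∃ t : ℤ, |w' * r - 4 * Q * t| ≤ Q := by
    intro w' c hc r hr
    obtain ⟨t, ht⟩ := hw r hr
    refine ⟨t + c * r, ?_⟩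
    rw [hc]
    rw [show (w + 4 * Q * c) * r - 4 * Q * (t + c * r) = w * r - 4 * Q * t by ring]
    exact ht
  have hneg : ∀ (w' : ℤ), (∀ r ∈ ρ, ∃ t : ℤ, |w' * r - 4 * Q * t| ≤ Q) →
      ∀ r ∈ ρ, ∃ t : ℤ, |(-w') * r - 4 * Q * t| ≤ Q := by
    intro w' h' r hr
    obtain ⟨t, ht⟩ := h' r hr
    refine ⟨-t, ?_⟩
    rw [show -w' * r - 4 * Q * -t = -(w' * r - 4 * Q * t) by ring, abs_neg]
    exact ht
  have hQ4 : (0:ℤ) < 4 * Q := by positivity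
  set w1 := w % (4 * Q) with hw1
  have h1 : 0 ≤ w1 := Int.emod_nonneg _ (by omega)
  have h2 : w1 < 4 * Q := Int.emod_lt_of_pos _ hQ4
  have h3 : w1 = w + 4 * Q * (-(w / (4 * Q))) := by
    have := Int.emod_add_mul_ediv w (4 * Q)
    linarith
  have h4 : w1 % 2 = 1 := by
    have h5 : w1 = w - 2 * (2 * (Q * (w / (4 * Q)))) := by rw [h3]; ring
    generalize (Q:ℤ) * (w / (4 * Q)) = u at h5
    omega
  rcases (by omega : w1 % 4 = 3 ∨ w1 % 4 = 1) with h5 | h5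
  · refine ⟨(w1 / 4).toNat, ?_, ?_⟩
    · omega
    · have h6 : (4 * ((w1 / 4).toNat : ℤ) + 3) = w1 := by omega
      rw [h6]
      exact hmod w1 _ h3
  · refine ⟨((4 * Q - w1) / 4).toNat, ?_, ?_⟩
    · omega
    · have h6 : (4 * (((4 * Q - w1) / 4).toNat : ℤ) + 3) = 4 * Q - w1 := by omega
      rw [h6]
      intro r hr
      obtain ⟨t, ht⟩ := hneg w1 (hmod w1 _ h3) r hr
      refine ⟨t + r, ?_⟩
      rw [show (4 * (Q:ℤ) - w1) * r - 4 * Q * (t + r) = -w1 * r - 4 * Q * t by ring]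
      exact ht

/-- **Exact criterion.** -/
theorem fam_iff (Q : ℕ) (hQ : 0 < Q) (ρ : List ℕ) (hρ : ∀ r ∈ ρ, r < 8 * Q)
    (h32 : ∀ r ∈ ρ, ¬ 32 ∣ r) :
    Bstar (fam Q ρ).get < 3/4 ↔ ¬ OddWitness Q ρ := by
  have hD : 0 < total (fam Q ρ).get := by rw [fam_total Q ρ hρ]; positivity
  constructor
  · intro hB hodd
    obtain ⟨v, hv, hw⟩ := witness_mod Q hQ ρ hodd
    have hpre := prefix_of_Bstar_lt (fam Q ρ).get hD hB (2 ^ (3 + ρ.length) * (4 * v + 3)) (by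
      rw [fam_total Q ρ hρ, show 5 + ρ.length = (3 + ρ.length) + 2 by ring,
        pow_add 2 (3 + ρ.length) 2, mul_assoc (2 ^ (3 + ρ.length)) (2 ^ 2) Q]
      apply Nat.mul_le_mul_left
      omega)
    have h1 : ∀ i, Fl (rate (fam Q ρ).get i) ((2 ^ (3 + ρ.length) * (4 * v + 3) : ℕ) : ℤ)
        = FF Q ((4 * v + 3 : ℤ) : ℝ) ((fam Q ρ).get i) := by
      intro i
      rw [fam_Fl Q hQ ρ hρ]
      congr 1
      push_cast
      field_simp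
    simp only [h1] at hpre
    rw [sum_get (fam Q ρ) (FF Q ((4 * v + 3 : ℤ) : ℝ)), fam_sum_FF, FF_Q Q hQ, FF_mul Q hQ,
      FF_mul Q hQ, FF_mul Q hQ] at hpre
    have h2 := pairs_int_ge Q hQ (4 * v + 3) ρ hρ hw 3 le_rfl
    set S : ℤ := (List.map (FF Q ((4 * (v:ℤ) + 3 : ℤ) : ℝ)) (pairsFrom Q 3 ρ)).sum with hS
    have e0 : ⌊((4 * v + 3 : ℤ) : ℝ) / 4 + 1/4⌋ = v + 1 := by
      rw [show ((4 * v + 3 : ℤ) : ℝ) / 4 + 1/4 = ((v + 1 : ℤ) : ℝ) by push_cast; ring,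
        Int.floor_intCast]
    have e1 : ∀ k : ℕ, ⌊(k:ℝ) * ((4 * v + 3 : ℤ) : ℝ) + 1/4⌋ = k * (4 * v + 3) := by
      intro k
      rw [Int.floor_eq_iff]
      push_cast
      constructor <;> linarith
    rw [e0, e1, e1, e1] at hpre
    push_cast at hpre
    have : (2:ℤ)^3 * (4 * v + 3) = 8 * (4 * v + 3) := by ring
    linarith
  · intro hno
    apply Bstar_lt_of_hall _ hD
    intro a b hab _
    have h1 : ∀ i, max 0 (Fl (rate (fam Q ρ).get i) (b:ℤ) - Cl (rate (fam Q ρ).get i) (a:ℤ))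
        = (fun x => max 0 (FF Q (((b:ℤ):ℝ) / 2 ^ (3 + ρ.length)) x
          - CC Q (((a:ℤ):ℝ) / 2 ^ (3 + ρ.length)) x)) ((fam Q ρ).get i) := by
      intro i
      rw [fam_Fl Q hQ ρ hρ, fam_Cl Q hQ ρ hρ]
    simp only [h1]
    rw [sum_get (fam Q ρ) (fun x => max 0 (FF Q (((b:ℤ):ℝ) / 2 ^ (3 + ρ.length)) x
          - CC Q (((a:ℤ):ℝ) / 2 ^ (3 + ρ.length)) x))]
    exact fam_hall Q hQ ρ hρ h32 hno a b (by exact_mod_cast hab)

end Pool.Agent.H78.BN
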