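import Pool.Agent.H78.BN.DyDefs
import Pool.Agent.H78.BN.Family4

/-!
# Dyadic instances: the exact criterion
-/

namespace Pool.Agent.H78.BN

open Finset

/-- admissible list of levels starting at level `e` -/
def Adm (Q : ℕ) : ℕ → List (Option ℕ) → Prop
  | _, [] => True
  | e, none :: t => Adm Q (e + 1) t
  | e, some p :: t => GoodSplit Q e p ∧ Adm Q (e + 1) t

theorem adm_of_forall (Q : ℕ) (t : List (Option ℕ)) : ∀ e0,
    (∀ e p, t[e]? = some (some p) → GoodSplit Q (e0 + e) p) → Adm Q e0 t := by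
  induction t with
  | nil => intro e0 _; trivial
  | cons x t ih =>
    intro e0 h
    have h1 : Adm Q (e0 + 1) t := by
      apply ih
      intro e p hp
      have := h (e + 1) p (by simpa using hp)
      rw [show e0 + 1 + e = e0 + (e + 1) by ring]; exact this
    cases x with
    | none => exact h1
    | some p => exact ⟨h 0 p (by simp), h1⟩

theorem levels_sum (Q : ℕ) (t : List (Option ℕ)) : ∀ e, Adm Q e t →
    (levelsFrom Q e t).sum + 2 ^ (e + 2) * Q = 2 ^ (e + 2 + t.length) * Q := by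
  induction t with
  | nil => intro e _; simp [levelsFrom]
  | cons x t ih =>
    intro e h
    have h6 : 2 ^ (e + 2 + (t.length + 1)) * Q = 2 ^ (e + 1 + 2 + t.length) * Q := by
      congr 2; ring
    have h4 : 2 ^ (e + 1 + 2) * Q = 2 * (2^(e+2) * Q) := by ring
    cases x with
    | none =>
      have h1 := ih (e+1) h
      simp only [levelsFrom, List.sum_cons, List.length_cons]
      omega
    | some p =>
      obtain ⟨⟨hp1, hp2, _⟩, h'⟩ := h
      have h1 := ih (e+1) h'
      simp only [levelsFrom, List.sum_cons, List.length_cons]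
      have h5 : 2 ^ (e + 2) * Q = 4 * (2^e * Q) := by ring
      omega

theorem levels_ge (Q : ℕ) (t : List (Option ℕ)) : ∀ e, Adm Q e t →
    ∀ x ∈ levelsFrom Q e t, Q ≤ x := by
  induction t with
  | nil => intro e _ x hx; simp [levelsFrom] at hx
  | cons y t ih =>
    intro e h x hx
    have h0 : Q ≤ 2 ^ e * Q := Nat.le_mul_of_pos_left _ (by positivity)
    have h5 : 2 ^ (e + 2) * Q = 4 * (2^e * Q) := by ring
    cases y with
    | none =>
      simp only [levelsFrom, List.mem_cons] at hx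
      rcases hx with hx | hx
      · omega
      · exact ih (e+1) h x hx
    | some p =>
      obtain ⟨⟨hp1, hp2, _⟩, h'⟩ := h
      simp only [levelsFrom, List.mem_cons] at hx
      rcases hx with hx | hx | hx
      · omega
      · omega
      · exact ih (e+1) h' x hx

theorem odd_dvd {s m : ℤ} {x k : ℕ} (hs : Odd s) (h : s * x = 2 ^ k * m) : 2 ^ k ∣ x := by
  have h1 : ((2:ℤ) ^ k) ∣ s * x := ⟨m, h⟩
  have h2 : IsCoprime ((2:ℤ) ^ k) s := by
    have h3 : IsCoprime (2:ℤ) s := by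
      rw [Int.isCoprime_iff_gcd_eq_one]
      obtain ⟨t, ht⟩ := hs
      have := Int.gcd_dvd_left (a := 2) (b := s)
      have h4 : Int.gcd 2 s ∣ 2 := by exact_mod_cast this
      have h5 := Int.gcd_dvd_right (a := 2) (b := s)
      rcases (Nat.dvd_prime Nat.prime_two).mp h4 with h | h
      · exact h
      · rw [h] at h5
        obtain ⟨u, hu⟩ := h5
        push_cast at hu
        omega
    exact h3.pow_left
  have h3 : ((2:ℤ) ^ k) ∣ x := h2.dvd_of_dvd_mul_left h1
  exact_mod_cast h3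

theorem split_ne_floor {Q e p : ℕ} (hQ : 0 < Q) (hp : GoodSplit Q e p) (z : ℝ) :
    ¬ (∃ t₁ t₂ : ℤ, z * (p : ℝ) / (4 * Q) + 1/4 = t₁ ∧
      z * ((2 ^ (e+2) * Q - p : ℕ) : ℝ) / (4 * Q) + 1/4 = t₂) := by
  rintro ⟨t₁, t₂, h1, h2⟩
  obtain ⟨hp1, hp2, hp3⟩ := hp
  have h5 : 2 ^ (e + 2) * Q = 4 * (2^e * Q) := by ring
  rw [Nat.cast_sub (by omega)] at h2
  push_cast at h2
  have hQ' : (Q:ℝ) ≠ 0 := by positivity
  apply hp3
  have hsodd : Odd (2 * (t₁ + t₂) - 1) := ⟨t₁ + t₂ - 1, by ring⟩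
  obtain ⟨u, hu⟩ : ∃ u, 4 * t₁ - 1 + (2 * (t₁ + t₂) - 1) = 2 * u := ⟨3 * t₁ + t₂ - 1, by ring⟩
  apply odd_dvd (s := 2 * (t₁ + t₂) - 1) (m := Q * u) hsodd
  have h4 : (2 * ((t₁:ℝ) + t₂) - 1) = 2 ^ (e+1) * z := by
    rw [← h1, ← h2]; field_simp; ring
  have h6 : z * p = Q * (4 * (t₁:ℝ) - 1) := by
    rw [← h1]; field_simp; ring
  have h7 : (2 * ((t₁:ℝ) + t₂) - 1) * ((p + 2 ^ (e+1) * Q : ℕ) : ℝ)
      = 2 ^ (e+2) * (Q * u) := by
    have hu' : (4 * (t₁:ℝ) - 1 + (2 * ((t₁:ℝ) + t₂) - 1)) = 2 * u := by exact_mod_cast hu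
    push_cast
    have e1 : (2 * ((t₁:ℝ) + t₂) - 1) * p = 2 ^ (e+1) * (Q * (4 * (t₁:ℝ) - 1)) := by
      rw [h4, mul_assoc, h6]
    have e2 : (2:ℝ) ^ (e+2) * (Q * u) = 2 ^ (e+1) * Q * (2 * u) := by ring
    rw [mul_add, e1, e2, ← hu']
    ring
  exact_mod_cast h7

theorem split_ne_ceil {Q e p : ℕ} (hQ : 0 < Q) (hp : GoodSplit Q e p) (z : ℝ) :
    ¬ (∃ t₁ t₂ : ℤ, z * (p : ℝ) / (4 * Q) - 1/4 = t₁ ∧
      z * ((2 ^ (e+2) * Q - p : ℕ) : ℝ) / (4 * Q) - 1/4 = t₂) := by
  rintro ⟨t₁, t₂, h1, h2⟩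
  apply split_ne_floor hQ hp (-z)
  refine ⟨-t₁, -t₂, ?_, ?_⟩
  · push_cast; rw [← h1]; ring
  · push_cast [-Nat.cast_sub]; rw [← h2]; ring

theorem split_sum {Q e p : ℕ} (hQ : 0 < Q) (hp : GoodSplit Q e p) (z : ℝ) :
    z * (p : ℝ) / (4 * Q) + z * ((2 ^ (e+2) * Q - p : ℕ) : ℝ) / (4 * Q) = 2 ^ e * z := by
  obtain ⟨hp1, hp2, hp3⟩ := hp
  have h5 : 2 ^ (e + 2) * Q = 4 * (2^e * Q) := by ring
  rw [Nat.cast_sub (by omega)]
  push_cast
  have hQ' : (Q:ℝ) ≠ 0 := by positivity
  field_simp; ring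

theorem level_eq {Q e : ℕ} (hQ : 0 < Q) (z : ℝ) :
    z * ((2 ^ (e+2) * Q : ℕ) : ℝ) / (4 * Q) = 2 ^ e * z := by
  have hQ' : (Q:ℝ) ≠ 0 := by positivity
  push_cast; field_simp; ring

theorem levels_floor (Q : ℕ) (hQ : 0 < Q) (z : ℝ) (t : List (Option ℕ)) : ∀ e, Adm Q e t →
    ((levelsFrom Q e t).map (FF Q z)).sum ≤ ⌈(2:ℝ) ^ (e + t.length) * z⌉ - ⌈(2:ℝ) ^ e * z⌉ := by
  induction t with
  | nil => intro e _; simp [levelsFrom]
  | cons x t ih =>
    intro e h
    cases x with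
    | none =>
      have h1 := ih (e+1) h
      have h2 := single_floor ((2:ℝ) ^ e * z)
      rw [ceil_two_mul, show 2 * ((2:ℝ) ^ e * z) = 2 ^ (e+1) * z by ring] at h2
      simp only [levelsFrom, List.map_cons, List.sum_cons, List.length_cons]
      rw [show e + (t.length + 1) = e + 1 + t.length by ring]
      have h3 : FF Q z (2 ^ (e+2) * Q) = ⌊(2:ℝ) ^ e * z + 1/4⌋ := by
        unfold FF; rw [level_eq hQ]
      rw [h3]; linarith
    | some p =>
      obtain ⟨hp, h'⟩ := h
      have h1 := ih (e+1) h'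
      have h2 := pair_floor _ _ (split_ne_floor hQ hp z)
      rw [split_sum hQ hp, ceil_two_mul, show 2 * ((2:ℝ) ^ e * z) = 2 ^ (e+1) * z by ring] at h2
      simp only [levelsFrom, List.map_cons, List.sum_cons, List.length_cons]
      rw [show e + (t.length + 1) = e + 1 + t.length by ring]
      unfold FF at h1 ⊢
      linarith

theorem levels_hall (Q : ℕ) (hQ : 0 < Q) (za zb : ℝ) (hab : za < zb) (t : List (Option ℕ)) :
    ∀ e, Adm Q e t →
    ((levelsFrom Q e t).map (fun x => max 0 (FF Q zb x - CC Q za x))).sum ≤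
      (⌈(2:ℝ) ^ (e + t.length) * zb⌉ - ⌈(2:ℝ) ^ e * zb⌉)
      - (⌊(2:ℝ) ^ (e + t.length) * za⌋ - ⌊(2:ℝ) ^ e * za⌋)
      + (if (2:ℝ) ^ e * (zb - za) ≤ 1 then 1 else 0) := by
  induction t with
  | nil =>
    intro e _
    simp only [levelsFrom, List.map_nil, List.sum_nil, List.length_nil, add_zero, sub_self]
    split_ifs <;> norm_num
  | cons x t ih =>
    intro e h
    have hQ' : (0:ℝ) < Q := by exact_mod_cast hQ
    have hpos : 0 < (2:ℝ) ^ e * (zb - za) := by
      have : 0 < zb - za := by linarith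
      positivity
    have h7 : (2:ℝ) ^ (e+1) * (zb - za) = 2 * ((2:ℝ) ^ e * (zb - za)) := by ring
    cases x with
    | none =>
      have h1 := ih (e+1) h
      have h2 := single_hall ((2:ℝ) ^ e * za) ((2:ℝ) ^ e * zb) (by
        have : (0:ℝ) < 2 ^ e := by positivity
        nlinarith)
      rw [ceil_two_mul, floor_two_mul, show 2 * ((2:ℝ) ^ e * zb) = 2 ^ (e+1) * zb by ring,
        show 2 * ((2:ℝ) ^ e * za) = 2 ^ (e+1) * za by ring] at h2
      simp only [levelsFrom, List.map_cons, List.sum_cons, List.length_cons]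
      rw [show e + (t.length + 1) = e + 1 + t.length by ring]
      have h3 : FF Q zb (2 ^ (e+2) * Q) = ⌊(2:ℝ) ^ e * zb + 1/4⌋ := by
        unfold FF; rw [level_eq hQ]
      have h4 : CC Q za (2 ^ (e+2) * Q) = ⌈(2:ℝ) ^ e * za - 1/4⌉ := by
        unfold CC; rw [level_eq hQ]
      rw [h3, h4]
      have hδ : (if (2:ℝ) ^ (e+1) * (zb - za) ≤ 1 then (1:ℤ) else 0)
          ≤ (if (2:ℝ) ^ e * (zb - za) ≤ 1 then 1 else 0) := by
        rw [h7]
        by_cases g1 : (2:ℝ) ^ e * (zb - za) ≤ 1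
        · rw [if_pos g1]; split_ifs <;> norm_num
        · rw [if_neg g1, if_neg (by linarith)]
      linarith
    | some p =>
      obtain ⟨hp, h'⟩ := h
      have h1 := ih (e+1) h'
      obtain ⟨hp1, hp2, _⟩ := id hp
      have h5 : 2 ^ (e + 2) * Q = 4 * (2^e * Q) := by ring
      have hp1' : (2:ℝ) ^ e * Q < p := by exact_mod_cast hp1
      have hp2' : (p:ℝ) < 3 * (2 ^ e * Q) := by exact_mod_cast hp2
      have hcast : ((2 ^ (e+2) * Q - p : ℕ) : ℝ) = 2 ^ (e+2) * Q - p := by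
        rw [Nat.cast_sub (by omega)]; push_cast; ring
      have h2 := pair_hall (za * (p : ℝ) / (4 * Q))
        (za * ((2 ^ (e+2) * Q - p : ℕ) : ℝ) / (4 * Q))
        (zb * (p : ℝ) / (4 * Q))
        (zb * ((2 ^ (e+2) * Q - p : ℕ) : ℝ) / (4 * Q))
        (2 ^ e * (zb - za)) (by
          rw [hcast]; field_simp; ring) (by
          have : 4 * (zb * (p:ℝ) / (4 * Q) - za * p / (4 * Q))
            = (zb - za) * ((p:ℝ) / Q) := by field_simp
          rw [this, mul_comm]
          apply mul_lt_mul_of_pos_left _ (by linarith)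
          rw [lt_div_iff₀ hQ']
          linarith) (by
          rw [hcast]
          have : 4 * (zb * (2 ^ (e + 2) * (Q:ℝ) - p) / (4 * Q) - za * (2 ^ (e + 2) * Q - p) / (4 * Q))
            = (zb - za) * ((2 ^ (e + 2) * (Q:ℝ) - p) / Q) := by field_simp
          rw [this, mul_comm]
          apply mul_lt_mul_of_pos_left _ (by linarith)
          rw [lt_div_iff₀ hQ']
          have : (2:ℝ) ^ (e+2) * Q = 4 * (2 ^ e * Q) := by ring
          linarith) hpos
        (split_ne_floor hQ hp zb)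
        (split_ne_ceil hQ hp za)
      rw [split_sum hQ hp, split_sum hQ hp, ceil_two_mul, floor_two_mul] at h2
      simp only [levelsFrom, List.map_cons, List.sum_cons, List.length_cons]
      rw [show e + (t.length + 1) = e + 1 + t.length by ring]
      rw [show 2 * ((2:ℝ) ^ e * zb) = 2 ^ (e+1) * zb by ring,
        show 2 * ((2:ℝ) ^ e * za) = 2 ^ (e+1) * za by ring] at h2
      have hδ : (if 1 / 2 < (2:ℝ) ^ e * (zb - za) ∧ (2:ℝ) ^ e * (zb - za) ≤ 1 then (1:ℤ) else 0)
          + (if (2:ℝ) ^ (e+1) * (zb - za) ≤ 1 then 1 else 0)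
          ≤ (if (2:ℝ) ^ e * (zb - za) ≤ 1 then 1 else 0) := by
        rw [h7]
        set W := (2:ℝ) ^ e * (zb - za)
        rcases le_or_gt W (1/2) with g | g
        · rw [if_neg (fun g1 : 1 / 2 < W ∧ W ≤ 1 => by linarith [g1.1]),
            if_pos (by linarith : W ≤ 1)]
          split_ifs <;> norm_num
        · rw [if_neg (by linarith : ¬ 2 * W ≤ 1)]
          by_cases g1 : W ≤ 1
          · rw [if_pos g1]; split_ifs <;> norm_num
          · rw [if_neg g1, if_neg (fun g2 : 1 / 2 < W ∧ W ≤ 1 => g1 g2.2)]; norm_num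
      unfold FF CC at h1 ⊢
      linarith

/-! ### integer times -/

theorem int_split {Q p e : ℕ} (hQ : 0 < Q) (hp : GoodSplit Q e p) (w : ℤ) :
    FF Q w p + FF Q w (2 ^ (e+2) * Q - p)
      = 2 ^ e * w + (⌊1/4 - (w:ℝ) * p / (4 * Q)⌋ + ⌊(w:ℝ) * p / (4 * Q) + 1/4⌋) := by
  obtain ⟨hp1, hp2, _⟩ := hp
  have h5 : 2 ^ (e + 2) * Q = 4 * (2^e * Q) := by ring
  unfold FF
  rw [Nat.cast_sub (by omega)]
  push_cast
  have hQ' : (Q:ℝ) ≠ 0 := by positivity
  have e1 : (w:ℝ) * (2 ^ (e + 2) * (Q:ℝ) - p) / (4 * Q) + 1 / 4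
      = (1/4 - (w:ℝ) * p / (4 * Q)) + ((2 ^ e * w : ℤ) : ℝ) := by
    push_cast; field_simp; ring
  rw [e1, Int.floor_add_intCast]
  ring

theorem int_level {Q e : ℕ} (hQ : 0 < Q) (w : ℤ) : FF Q w (2 ^ (e+2) * Q) = 2 ^ e * w := by
  unfold FF
  rw [level_eq hQ, Int.floor_eq_iff]
  push_cast
  constructor <;> linarith

theorem levels_int_le (Q : ℕ) (hQ : 0 < Q) (w : ℤ) (t : List (Option ℕ)) : ∀ e, Adm Q e t →
    ((levelsFrom Q e t).map (FF Q w)).sum ≤ 2 ^ (e + t.length) * w - 2 ^ e * w := by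
  induction t with
  | nil => intro e _; simp [levelsFrom]
  | cons x t ih =>
    intro e h
    have h4 : (2:ℤ) ^ (e+1) * w = 2 * (2 ^ e * w) := by ring
    cases x with
    | none =>
      have h1 := ih (e+1) h
      simp only [levelsFrom, List.map_cons, List.sum_cons, List.length_cons]
      rw [show e + (t.length + 1) = e + 1 + t.length by ring, int_level hQ]
      linarith
    | some p =>
      obtain ⟨hp, h'⟩ := h
      have h1 := ih (e+1) h'
      have h2 := int_split hQ hp w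
      have h3 := gate_le ((w:ℝ) * p / (4 * Q))
      simp only [levelsFrom, List.map_cons, List.sum_cons, List.length_cons]
      rw [show e + (t.length + 1) = e + 1 + t.length by ring]
      linarith

theorem levels_int_lt (Q : ℕ) (hQ : 0 < Q) (w : ℤ) (t : List (Option ℕ))
    (hw : ∃ p, some p ∈ t ∧ ∀ k : ℤ, ¬ |w * p - 4 * Q * k| ≤ Q) : ∀ e, Adm Q e t →
    ((levelsFrom Q e t).map (FF Q w)).sum ≤ 2 ^ (e + t.length) * w - 2 ^ e * w - 1 := by
  induction t with
  | nil => intro e _; obtain ⟨p, hp, _⟩ := hw; simp at hp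
  | cons x t ih =>
    intro e h
    have h4 : (2:ℤ) ^ (e+1) * w = 2 * (2 ^ e * w) := by ring
    obtain ⟨p', hp', hw'⟩ := hw
    cases x with
    | none =>
      have h5 : some p' ∈ t := by simpa using hp'
      have h1 := ih ⟨p', h5, hw'⟩ (e+1) h
      simp only [levelsFrom, List.map_cons, List.sum_cons, List.length_cons]
      rw [show e + (t.length + 1) = e + 1 + t.length by ring, int_level hQ]
      linarith
    | some p =>
      obtain ⟨hp, h'⟩ := h
      have h2 := int_split hQ hp w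
      simp only [levelsFrom, List.map_cons, List.sum_cons, List.length_cons]
      rw [show e + (t.length + 1) = e + 1 + t.length by ring]
      rcases List.mem_cons.mp hp' with h6 | h6
      · have h7 : p' = p := by simpa using h6
        subst h7
        have h1 := levels_int_le Q hQ w t (e+1) h'
        have h3 := gate_closed (u := (w:ℝ) * p' / (4 * Q))
          (fun k hk => hw' k ((abs_iff hQ w k p').mpr hk))
        linarith
      · have h1 := ih ⟨p', h6, hw'⟩ (e+1) h'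
        have h3 := gate_le ((w:ℝ) * p / (4 * Q))
        linarith

theorem levels_int_ge (Q : ℕ) (hQ : 0 < Q) (w : ℤ) (t : List (Option ℕ))
    (hw : ∀ p, some p ∈ t → ∃ k : ℤ, |w * p - 4 * Q * k| ≤ Q) : ∀ e, Adm Q e t →
    2 ^ (e + t.length) * w - 2 ^ e * w ≤ ((levelsFrom Q e t).map (FF Q w)).sum := by
  induction t with
  | nil => intro e _; simp [levelsFrom]
  | cons x t ih =>
    intro e h
    have h4 : (2:ℤ) ^ (e+1) * w = 2 * (2 ^ e * w) := by ring
    have hw' : ∀ p, some p ∈ t → ∃ k : ℤ, |w * p - 4 * Q * k| ≤ Q :=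
      fun p hp => hw p (List.mem_cons_of_mem _ hp)
    cases x with
    | none =>
      have h1 := ih hw' (e+1) h
      simp only [levelsFrom, List.map_cons, List.sum_cons, List.length_cons]
      rw [show e + (t.length + 1) = e + 1 + t.length by ring, int_level hQ]
      linarith
    | some p =>
      obtain ⟨hp, h'⟩ := h
      have h1 := ih hw' (e+1) h'
      have h2 := int_split hQ hp w
      obtain ⟨k, hk⟩ := hw p List.mem_cons_self
      have h3 := gate_open ((abs_iff hQ w k p).mp hk)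
      simp only [levelsFrom, List.map_cons, List.sum_cons, List.length_cons]
      rw [show e + (t.length + 1) = e + 1 + t.length by ring]
      linarith

end Pool.Agent.H78.BN
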