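import Pool.Agent.H78.BN.Dyadic
import Pool.Agent.H78.BN.Generic

/-!
# Dyadic instances: the exact criterion
-/

namespace Pool.Agent.H78.BN

open Finset

theorem list_Fl (Q : ℕ) (hQ : 0 < Q) (M : ℕ) (l : List ℕ) (hl : l.sum = 2 ^ (2 + M) * Q)
    (i : Fin l.length) (b : ℤ) :
    Fl (rate l.get i) b = FF Q ((b:ℝ) / 2 ^ M) (l.get i) := by
  unfold Fl FF rate
  rw [total_get, hl]
  have hQ' : (Q:ℝ) ≠ 0 := by positivity
  congr 2
  push_cast
  rw [pow_add]
  field_simp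
  ring

theorem list_Cl (Q : ℕ) (hQ : 0 < Q) (M : ℕ) (l : List ℕ) (hl : l.sum = 2 ^ (2 + M) * Q)
    (i : Fin l.length) (b : ℤ) :
    Cl (rate l.get i) b = CC Q ((b:ℝ) / 2 ^ M) (l.get i) := by
  rw [Cl_eq_neg_Fl, list_Fl Q hQ M l hl, CC_eq]
  congr 2; push_cast; ring

theorem map_neg_sum (l : List ℕ) (f : ℕ → ℤ) : (l.map (fun x => - f x)).sum = - (l.map f).sum := by
  induction l with
  | nil => simp
  | cons x l ih => simp only [List.map_cons, List.sum_cons, ih]; ring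

/-- General assembly: prefix condition at all integers plus short windows. -/
theorem list_Bstar (Q : ℕ) (hQ : 0 < Q) (M : ℕ) (l : List ℕ) (hl : l.sum = 2 ^ (2 + M) * Q)
    (hlQ : ∀ x ∈ l, Q ≤ x)
    (hP : ∀ b : ℤ, (l.map (FF Q ((b:ℝ) / 2 ^ M))).sum ≤ b)
    (hW : ∀ a b : ℤ, a < b → (b:ℝ) / 2 ^ M - (a:ℝ) / 2 ^ M < 2 →
      (l.map (fun x => max 0 (FF Q ((b:ℝ) / 2 ^ M) x - CC Q ((a:ℝ) / 2 ^ M) x))).sum ≤ b - a) :
    Bstar l.get < 3/4 := by
  have hD : 0 < total l.get := by rw [total_get, hl]; positivity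
  have hQ' : (0:ℝ) < Q := by exact_mod_cast hQ
  apply Bstar_lt_of_hall _ hD
  intro a b hab _
  have h1 : ∀ i, max 0 (Fl (rate l.get i) (b:ℤ) - Cl (rate l.get i) (a:ℤ))
      = (fun x => max 0 (FF Q (((b:ℤ):ℝ) / 2 ^ M) x
        - CC Q (((a:ℤ):ℝ) / 2 ^ M) x)) (l.get i) := by
    intro i
    rw [list_Fl Q hQ M l hl, list_Cl Q hQ M l hl]
  simp only [h1]
  rw [sum_get l (fun x => max 0 (FF Q (((b:ℤ):ℝ) / 2 ^ M) x - CC Q (((a:ℤ):ℝ) / 2 ^ M) x))]
  rcases le_or_gt 2 (((b:ℤ):ℝ) / 2 ^ M - ((a:ℤ):ℝ) / 2 ^ M) with h2 | h2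
  · set zb : ℝ := ((b:ℤ):ℝ) / 2 ^ M with hzb
    set za : ℝ := ((a:ℤ):ℝ) / 2 ^ M with hza
    have h3 : ∀ x ∈ l, max 0 (FF Q zb x - CC Q za x) = FF Q zb x - CC Q za x := by
      intro x hx
      apply max_eq_right
      have h4 := hlQ x hx
      have h5 : (Q:ℝ) ≤ x := by exact_mod_cast h4
      have h6 : 1/2 ≤ zb * x / (4*Q) - za * x / (4*Q) := by
        have : zb * x / (4*Q) - za * x / (4*Q) = (zb - za) * (x / (4 * Q)) := by ring
        rw [this]
        have h7 : (1:ℝ)/4 ≤ x / (4*Q) := by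
          rw [div_le_div_iff₀ (by norm_num) (by positivity)]; linarith
        nlinarith
      unfold FF CC
      have h8 := Int.ceil_lt_add_one (za * x / (4*Q) - 1/4)
      have h9 := Int.sub_one_lt_floor (zb * x / (4*Q) + 1/4)
      have h10 : ((⌈za * x / (4*Q) - 1/4⌉ : ℤ) : ℝ) < (⌊zb * x / (4*Q) + 1/4⌋ : ℝ) + 1 := by
        linarith
      have h11 : ⌈za * x / (4*Q) - 1/4⌉ < ⌊zb * x / (4*Q) + 1/4⌋ + 1 := by exact_mod_cast h10
      omega
    rw [map_sub_sum l (FF Q zb) (CC Q za) _ h3]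
    have hbp := hP b
    have hap := hP (-a)
    have h2' : (l.map (CC Q za)).sum = - (l.map (FF Q (((-a : ℤ):ℝ) / 2 ^ M))).sum := by
      rw [show (CC Q za) = (fun x => - FF Q (((-a : ℤ):ℝ) / 2 ^ M) x) by
          funext x
          rw [CC_eq, hza]
          congr 2
          push_cast; ring]
      exact map_neg_sum l _
    rw [h2']
    have : (l.map (FF Q zb)).sum ≤ b := hbp
    omega
  · exact hW a b (by exact_mod_cast hab) h2

theorem FF_2Q (Q : ℕ) (hQ : 0 < Q) (z : ℝ) : FF Q z (2 * Q) = ⌊z / 2 + 1/4⌋ := by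
  unfold FF
  have hQ' : (Q:ℝ) ≠ 0 := by positivity
  congr 1; push_cast; field_simp; ring

theorem small_zero (Q : ℕ) (hQ : 0 < Q) (za zb : ℝ) (h2 : zb - za < 2) :
    max 0 (FF Q zb Q - CC Q za Q) = 0 := by
  apply max_eq_left
  rw [CC_eq, FF_Q Q hQ, FF_Q Q hQ]
  have h8 := Int.floor_le (zb / 4 + 1/4)
  have h9 := Int.floor_le (-za / 4 + 1/4)
  have h10 : ((⌊zb / 4 + 1/4⌋ : ℤ) : ℝ) + (⌊-za / 4 + 1/4⌋ : ℝ) < 1 := by linarith
  have h11 : ⌊zb / 4 + 1/4⌋ + ⌊-za / 4 + 1/4⌋ < 1 := by exact_mod_cast h10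
  omega

theorem dyadic4_sum (Q : ℕ) (t : List (Option ℕ)) (ht : Adm Q 0 t) :
    (dyadic4 Q t).sum = 2 ^ (2 + t.length) * Q := by
  have := levels_sum Q t 0 ht
  simp only [dyadic4, List.sum_append, List.sum_cons, List.sum_nil]
  norm_num at this ⊢
  omega

theorem dyadic3_sum (Q : ℕ) (t : List (Option ℕ)) (ht : Adm Q 0 t) :
    (dyadic3 Q t).sum = 2 ^ (2 + t.length) * Q := by
  have := levels_sum Q t 0 ht
  simp only [dyadic3, List.sum_append, List.sum_cons, List.sum_nil]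
  norm_num at this ⊢
  omega

theorem dyadic4_ge (Q : ℕ) (t : List (Option ℕ)) (ht : Adm Q 0 t) :
    ∀ x ∈ dyadic4 Q t, Q ≤ x := by
  intro x hx
  simp only [dyadic4, List.mem_append, List.mem_cons, List.not_mem_nil, or_false] at hx
  rcases hx with h | h
  · omega
  · exact levels_ge Q t 0 ht x h

theorem dyadic3_ge (Q : ℕ) (t : List (Option ℕ)) (ht : Adm Q 0 t) :
    ∀ x ∈ dyadic3 Q t, Q ≤ x := by
  intro x hx
  simp only [dyadic3, List.mem_append, List.mem_cons, List.not_mem_nil, or_false] at hx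
  rcases hx with h | h
  · omega
  · exact levels_ge Q t 0 ht x h

/-- The family with three small letters always has `B* < 3/4`. -/
theorem dyadic3_lt (Q : ℕ) (hQ : 0 < Q) (t : List (Option ℕ)) (ht : Adm Q 0 t) :
    Bstar (dyadic3 Q t).get < 3/4 := by
  apply list_Bstar Q hQ t.length _ (dyadic3_sum Q t ht) (dyadic3_ge Q t ht)
  · intro b
    set z : ℝ := (b:ℝ) / 2 ^ t.length with hz
    have hzb : (2:ℝ) ^ t.length * z = b := by rw [hz]; field_simp
    have h1 := levels_floor Q hQ z t 0 ht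
    rw [zero_add, hzb, Int.ceil_intCast, pow_zero, one_mul] at h1
    simp only [dyadic3, List.map_append, List.map_cons, List.map_nil, List.sum_append,
      List.sum_cons, List.sum_nil]
    rw [FF_Q Q hQ, FF_2Q Q hQ]
    have h2 := Int.floor_le (z / 4 + 1/4)
    have h3 := Int.floor_le (z / 2 + 1/4)
    have h4 := Int.le_ceil z
    have h5 : 2 * ((⌊z / 4 + 1/4⌋ : ℤ) : ℝ) + (⌊z / 2 + 1/4⌋ : ℝ) < (⌈z⌉ : ℝ) + 1 := by linarith
    have h6 : 2 * ⌊z / 4 + 1/4⌋ + ⌊z / 2 + 1/4⌋ < ⌈z⌉ + 1 := by exact_mod_cast h5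
    omega
  · intro a b hab h2
    set zb : ℝ := (b:ℝ) / 2 ^ t.length with hzb
    set za : ℝ := (a:ℝ) / 2 ^ t.length with hza
    have hb : (2:ℝ) ^ t.length * zb = b := by rw [hzb]; field_simp
    have ha : (2:ℝ) ^ t.length * za = a := by rw [hza]; field_simp
    have hlt : za < zb := by
      rw [hzb, hza]
      apply div_lt_div_of_pos_right _ (by positivity)
      exact_mod_cast hab
    have h1 := levels_hall Q hQ za zb hlt t 0 ht
    rw [zero_add, hb, ha, Int.ceil_intCast, Int.floor_intCast, pow_zero, one_mul, one_mul] at h1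
    simp only [dyadic3, List.map_append, List.map_cons, List.map_nil, List.sum_append,
      List.sum_cons, List.sum_nil]
    rw [small_zero Q hQ za zb h2]
    have h3 := single_hall (za / 2) (zb / 2) (by linarith)
    rw [ceil_two_mul, floor_two_mul, show 2 * (zb / 2) = zb by ring,
      show 2 * (za / 2) = za by ring] at h3
    have h4 : CC Q za (2 * Q) = ⌈za / 2 - 1/4⌉ := by
      rw [CC_eq, FF_2Q Q hQ, ← Int.ceil_neg]
      congr 1; ring
    rw [FF_2Q Q hQ, h4]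
    have h5 : (if (1:ℝ) * (zb - za) ≤ 1 then (1:ℤ) else 0) ≤ 1 := by split_ifs <;> norm_num
    have h5' : (if zb - za ≤ 1 then (1:ℤ) else 0) ≤ 1 := by split_ifs <;> norm_num
    have h6 : ⌊za / 2⌋ < ⌈zb / 2⌉ := by
      have g1 := Int.floor_le (za / 2)
      have g3 := Int.le_ceil (zb / 2)
      have : ((⌊za / 2⌋ : ℤ) : ℝ) < (⌈zb / 2⌉ : ℝ) := by linarith
      exact_mod_cast this
    simp only [one_mul] at h1
    omega

/-- The Diophantine witness. -/
def Witness (Q : ℕ) (t : List (Option ℕ)) : Prop :=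
  ∃ w : ℤ, Odd w ∧ ∀ p, some p ∈ t → ∃ k : ℤ, |w * p - 4 * Q * k| ≤ Q

theorem dyadic4_lt (Q : ℕ) (hQ : 0 < Q) (t : List (Option ℕ)) (ht : Adm Q 0 t)
    (hno : ¬ Witness Q t) : Bstar (dyadic4 Q t).get < 3/4 := by
  apply list_Bstar Q hQ t.length _ (dyadic4_sum Q t ht) (dyadic4_ge Q t ht)
  · intro b
    set z : ℝ := (b:ℝ) / 2 ^ t.length with hz
    have hzb : (2:ℝ) ^ t.length * z = b := by rw [hz]; field_simp
    have h1 := levels_floor Q hQ z t 0 ht
    rw [zero_add, hzb, Int.ceil_intCast, pow_zero, one_mul] at h1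
    simp only [dyadic4, List.map_append, List.map_cons, List.map_nil, List.sum_append,
      List.sum_cons, List.sum_nil]
    rw [FF_Q Q hQ]
    rcases lt_or_ge ⌈z⌉ (4 * ⌊z / 4 + 1 / 4⌋) with h | h
    · have g1 := Int.floor_le (z / 4 + 1 / 4)
      have g2 := Int.le_ceil z
      have g3 : ((⌈z⌉ : ℤ) : ℝ) + 1 ≤ 4 * ((⌊z / 4 + 1 / 4⌋ : ℤ) : ℝ) := by exact_mod_cast h
      set s := ⌊z / 4 + 1 / 4⌋ with hs
      have h4 : z = ((4 * s - 1 : ℤ) : ℝ) := by push_cast; linarith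
      set w : ℤ := 4 * s - 1 with hw
      have hodd : Odd w := ⟨2 * s - 1, by rw [hw]; ring⟩
      have h5 : ∃ p, some p ∈ t ∧ ∀ k : ℤ, ¬ |w * p - 4 * Q * k| ≤ Q := by
        by_contra hcon
        push Not at hcon
        exact hno ⟨w, hodd, hcon⟩
      have h6 := levels_int_lt Q hQ w t h5 0 ht
      have h7 : b = 2 ^ t.length * w := by
        have : ((b : ℤ) : ℝ) = ((2 ^ t.length * w : ℤ) : ℝ) := by
          rw [← hzb, h4]; push_cast; ring
        exact_mod_cast this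
      rw [h4]
      rw [zero_add, pow_zero, one_mul] at h6
      omega
    · omega
  · intro a b hab h2
    set zb : ℝ := (b:ℝ) / 2 ^ t.length with hzb
    set za : ℝ := (a:ℝ) / 2 ^ t.length with hza
    have hb : (2:ℝ) ^ t.length * zb = b := by rw [hzb]; field_simp
    have ha : (2:ℝ) ^ t.length * za = a := by rw [hza]; field_simp
    have hlt : za < zb := by
      rw [hzb, hza]
      apply div_lt_div_of_pos_right _ (by positivity)
      exact_mod_cast hab
    have h1 := levels_hall Q hQ za zb hlt t 0 ht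
    rw [zero_add, hb, ha, Int.ceil_intCast, Int.floor_intCast, pow_zero, one_mul, one_mul] at h1
    simp only [dyadic4, List.map_append, List.map_cons, List.map_nil, List.sum_append,
      List.sum_cons, List.sum_nil]
    rw [small_zero Q hQ za zb h2]
    have h5' : (if zb - za ≤ 1 then (1:ℤ) else 0) ≤ 1 := by split_ifs <;> norm_num
    have h6 : ⌊za⌋ < ⌈zb⌉ := by
      have g1 := Int.floor_le za
      have g3 := Int.le_ceil zb
      have : ((⌊za⌋ : ℤ) : ℝ) < (⌈zb⌉ : ℝ) := by linarith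
      exact_mod_cast this
    simp only [one_mul] at h1
    omega

theorem witness_mod' (Q : ℕ) (hQ : 0 < Q) (t : List (Option ℕ)) (h : Witness Q t) :
    ∃ v : ℕ, v + 1 ≤ Q ∧ ∀ p, some p ∈ t → ∃ k : ℤ, |(4 * v + 3 : ℤ) * p - 4 * Q * k| ≤ Q := by
  have h1 : OddWitness Q (t.filterMap id) := by
    obtain ⟨w, hw, h⟩ := h
    refine ⟨w, hw, ?_⟩
    intro r hr
    rw [List.mem_filterMap] at hr
    obtain ⟨x, hx, hxr⟩ := hr
    simp only [id] at hxr
    rw [hxr] at hx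
    exact h r hx
  obtain ⟨v, hv, hw⟩ := witness_mod Q hQ _ h1
  refine ⟨v, hv, ?_⟩
  intro p hp
  apply hw
  rw [List.mem_filterMap]
  exact ⟨some p, hp, rfl⟩

theorem dyadic4_not_lt (Q : ℕ) (hQ : 0 < Q) (t : List (Option ℕ)) (ht : Adm Q 0 t)
    (hwit : Witness Q t) : ¬ Bstar (dyadic4 Q t).get < 3/4 := by
  intro hB
  have hl := dyadic4_sum Q t ht
  have hD : 0 < total (dyadic4 Q t).get := by rw [total_get, hl]; positivity
  obtain ⟨v, hv, hw⟩ := witness_mod' Q hQ t hwit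
  have hpre := prefix_of_Bstar_lt (dyadic4 Q t).get hD hB (2 ^ t.length * (4 * v + 3)) (by
    rw [total_get, hl, show 2 + t.length = t.length + 2 by ring,
      pow_add 2 t.length 2, mul_assoc (2 ^ t.length) (2 ^ 2) Q]
    apply Nat.mul_le_mul_left
    omega)
  have h1 : ∀ i, Fl (rate (dyadic4 Q t).get i) ((2 ^ t.length * (4 * v + 3) : ℕ) : ℤ)
      = FF Q ((4 * v + 3 : ℤ) : ℝ) ((dyadic4 Q t).get i) := by
    intro i
    rw [list_Fl Q hQ t.length _ hl]
    congr 1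
    push_cast
    field_simp
  simp only [h1] at hpre
  rw [sum_get (dyadic4 Q t) (FF Q ((4 * v + 3 : ℤ) : ℝ))] at hpre
  simp only [dyadic4, List.map_append, List.map_cons, List.map_nil, List.sum_append,
      List.sum_cons, List.sum_nil] at hpre
  rw [FF_Q Q hQ] at hpre
  have h2 := levels_int_ge Q hQ (4 * v + 3) t hw 0 ht
  have e0 : ⌊((4 * v + 3 : ℤ) : ℝ) / 4 + 1/4⌋ = v + 1 := by
    rw [show ((4 * v + 3 : ℤ) : ℝ) / 4 + 1/4 = ((v + 1 : ℤ) : ℝ) by push_cast; ring,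
      Int.floor_intCast]
  rw [e0] at hpre
  rw [zero_add, pow_zero, one_mul] at h2
  set S : ℤ := (List.map (FF Q ((4 * (v:ℤ) + 3 : ℤ) : ℝ)) (levelsFrom Q 0 t)).sum with hS
  push_cast at hpre
  linarith

end Pool.Agent.H78.BN
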