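import Pool.Agent.H78.BN.Bst

/-!
# The family `Q,Q,Q,Q,4Q,8Q,16Q, 2^(j+4) Q ± ρ_j`
-/

namespace Pool.Agent.H78.BN

open Finset

theorem pairsFrom_length (Q : ℕ) (ρ : List ℕ) : ∀ e, (pairsFrom Q e ρ).length = 2 * ρ.length := by
  induction ρ with
  | nil => intro e; simp [pairsFrom]
  | cons r ρ ih => intro e; simp [pairsFrom, ih]; ring

theorem pairsFrom_sum (Q : ℕ) (ρ : List ℕ) (hρ : ∀ r ∈ ρ, r < 8 * Q) :
    ∀ e, 3 ≤ e → (pairsFrom Q e ρ).sum + 2 ^ (e + 2) * Q = 2 ^ (e + 2 + ρ.length) * Q := by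
  induction ρ with
  | nil => intro e _; simp [pairsFrom]
  | cons r ρ ih =>
    intro e he
    have h1 := ih (fun x hx => hρ x (List.mem_cons_of_mem _ hx)) (e+1) (by omega)
    have h2 := hρ r List.mem_cons_self
    have h3 : 8 * Q ≤ 2 ^ (e+1) * Q := by
      apply Nat.mul_le_mul_right
      calc 8 = 2^3 := by norm_num
        _ ≤ 2^(e+1) := Nat.pow_le_pow_right (by norm_num) (by omega)
    simp only [pairsFrom, List.sum_cons, List.length_cons]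
    have h4 : 2 ^ (e + 1 + 2) * Q = 2 * (2^(e+2) * Q) := by ring
    have h5 : 2 ^ (e + 2) * Q = 2 * (2^(e+1) * Q) := by ring
    have h6 : 2 ^ (e + 2 + (ρ.length + 1)) * Q = 2 ^ (e + 1 + 2 + ρ.length) * Q := by
      congr 2; ring
    omega

theorem pairsFrom_pos (Q : ℕ) (_hQ : 0 < Q) (ρ : List ℕ) (hρ : ∀ r ∈ ρ, r < 8 * Q) :
    ∀ e, 3 ≤ e → ∀ x ∈ pairsFrom Q e ρ, Q ≤ x := by
  induction ρ with
  | nil => intro e _ x hx; simp [pairsFrom] at hx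
  | cons r ρ ih =>
    intro e he x hx
    have h2 := hρ r List.mem_cons_self
    have h3 : 16 * Q ≤ 2 ^ (e+1) * Q := by
      apply Nat.mul_le_mul_right
      calc 16 = 2^4 := by norm_num
        _ ≤ 2^(e+1) := Nat.pow_le_pow_right (by norm_num) (by omega)
    simp only [pairsFrom, List.mem_cons] at hx
    rcases hx with h | h | h
    · omega
    · omega
    · exact ih (fun x hx => hρ x (List.mem_cons_of_mem _ hx)) (e+1) (by omega) x h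

theorem fam_length (Q : ℕ) (ρ : List ℕ) : (fam Q ρ).length = 7 + 2 * ρ.length := by
  simp [fam, pairsFrom_length]; ring

theorem fam_sum (Q : ℕ) (ρ : List ℕ) (hρ : ∀ r ∈ ρ, r < 8 * Q) :
    (fam Q ρ).sum = 2 ^ (5 + ρ.length) * Q := by
  have := pairsFrom_sum Q ρ hρ 3 le_rfl
  simp only [fam, List.sum_append, List.sum_cons, List.sum_nil]
  norm_num at this ⊢
  omega

theorem fam_pos (Q : ℕ) (hQ : 0 < Q) (ρ : List ℕ) (hρ : ∀ r ∈ ρ, r < 8 * Q) :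
    ∀ x ∈ fam Q ρ, Q ≤ x := by
  intro x hx
  simp only [fam, List.mem_append, List.mem_cons, List.not_mem_nil, or_false] at hx
  rcases hx with h | h
  · omega
  · exact pairsFrom_pos Q hQ ρ hρ 3 le_rfl x h

/-! ### floor and ceiling lemmas -/

/-- `⌈2x⌉ = ⌈x⌉ + ⌈x - 1/2⌉` -/
theorem ceil_two_mul (x : ℝ) : ⌈x - 1/2⌉ = ⌈2 * x⌉ - ⌈x⌉ := by
  have h1 := Int.le_ceil x
  have h2 := Int.ceil_lt_add_one x
  rcases le_or_gt x ((⌈x⌉ : ℝ) - 1/2) with h | h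
  · have e1 : ⌈x - 1/2⌉ = ⌈x⌉ - 1 := by
      rw [Int.ceil_eq_iff]; push_cast; constructor <;> linarith
    have e2 : ⌈2*x⌉ = 2 * ⌈x⌉ - 1 := by
      rw [Int.ceil_eq_iff]; push_cast; constructor <;> linarith
    rw [e1, e2]; ring
  · have e1 : ⌈x - 1/2⌉ = ⌈x⌉ := by
      rw [Int.ceil_eq_iff]; constructor <;> linarith
    have e2 : ⌈2*x⌉ = 2 * ⌈x⌉ := by
      rw [Int.ceil_eq_iff]; push_cast; constructor <;> linarith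
    rw [e1, e2]; ring

theorem floor_two_mul (x : ℝ) : ⌊x + 1/2⌋ = ⌊2 * x⌋ - ⌊x⌋ := by
  have h1 := Int.floor_le x
  have h2 := Int.lt_floor_add_one x
  rcases lt_or_ge x ((⌊x⌋ : ℝ) + 1/2) with h | h
  · have e1 : ⌊x + 1/2⌋ = ⌊x⌋ := by
      rw [Int.floor_eq_iff]; constructor <;> linarith
    have e2 : ⌊2*x⌋ = 2 * ⌊x⌋ := by
      rw [Int.floor_eq_iff]; push_cast; constructor <;> linarith
    rw [e1, e2]; ring
  · have e1 : ⌊x + 1/2⌋ = ⌊x⌋ + 1 := by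
      rw [Int.floor_eq_iff]; push_cast; constructor <;> linarith
    have e2 : ⌊2*x⌋ = 2 * ⌊x⌋ + 1 := by
      rw [Int.floor_eq_iff]; push_cast; constructor <;> linarith
    rw [e1, e2]; ring

/-- a pair of letters, not both exactly at `-1/4` -/
theorem pair_floor (y₁ y₂ : ℝ) (hne : ¬ (∃ t₁ t₂ : ℤ, y₁ + 1/4 = t₁ ∧ y₂ + 1/4 = t₂)) :
    ⌊y₁ + 1/4⌋ + ⌊y₂ + 1/4⌋ ≤ ⌈y₁ + y₂ - 1/2⌉ := by
  have h1 := Int.floor_le (y₁ + 1/4)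
  have h2 := Int.floor_le (y₂ + 1/4)
  have h3 := Int.le_ceil (y₁ + y₂ - 1/2)
  by_contra hcon
  push Not at hcon
  have h4 : ((⌈y₁ + y₂ - 1/2⌉ : ℤ) : ℝ) + 1 ≤ (⌊y₁ + 1/4⌋ : ℝ) + (⌊y₂ + 1/4⌋ : ℝ) := by
    exact_mod_cast hcon
  apply hne
  refine ⟨⌊y₁ + 1/4⌋, ⌊y₂ + 1/4⌋, ?_, ?_⟩ <;> linarith

theorem pair_ceil (x₁ x₂ : ℝ) (hne : ¬ (∃ t₁ t₂ : ℤ, x₁ - 1/4 = t₁ ∧ x₂ - 1/4 = t₂)) :
    ⌊x₁ + x₂ + 1/2⌋ ≤ ⌈x₁ - 1/4⌉ + ⌈x₂ - 1/4⌉ := by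
  have h1 := Int.le_ceil (x₁ - 1/4)
  have h2 := Int.le_ceil (x₂ - 1/4)
  have h3 := Int.floor_le (x₁ + x₂ + 1/2)
  by_contra hcon
  push Not at hcon
  have h4 : ((⌈x₁ - 1/4⌉ : ℤ) : ℝ) + (⌈x₂ - 1/4⌉ : ℝ) + 1 ≤ ((⌊x₁ + x₂ + 1/2⌋ : ℤ) : ℝ) := by
    exact_mod_cast hcon
  apply hne
  refine ⟨⌈x₁ - 1/4⌉, ⌈x₂ - 1/4⌉, ?_, ?_⟩ <;> linarith

/-- Hall contribution of a single letter. -/
theorem single_hall (x y : ℝ) (hxy : x < y) :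
    max 0 (⌊y + 1/4⌋ - ⌈x - 1/4⌉) ≤ ⌈y - 1/2⌉ - ⌊x + 1/2⌋ := by
  have h1 := Int.floor_le (y + 1/4)
  have h2 := Int.le_ceil (x - 1/4)
  have h3 := Int.le_ceil (y - 1/2)
  have h4 := Int.floor_le (x + 1/2)
  apply max_le
  · have h5 : ((⌊x + 1/2⌋ : ℤ) : ℝ) < ((⌈y - 1/2⌉ : ℤ) : ℝ) + 1 := by linarith
    have h6 : ⌊x + 1/2⌋ < ⌈y - 1/2⌉ + 1 := by exact_mod_cast h5
    omega
  · have h5 : ((⌊y + 1/4⌋ : ℤ) : ℝ) < ((⌈y - 1/2⌉ : ℤ) : ℝ) + 1 := by linarith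
    have h6 : ((⌊x + 1/2⌋ : ℤ) : ℝ) < ((⌈x - 1/4⌉ : ℤ) : ℝ) + 1 := by linarith
    have h7 : ⌊y + 1/4⌋ < ⌈y - 1/2⌉ + 1 := by exact_mod_cast h5
    have h8 : ⌊x + 1/2⌋ < ⌈x - 1/4⌉ + 1 := by exact_mod_cast h6
    omega

theorem single_floor (y : ℝ) : ⌊y + 1/4⌋ ≤ ⌈y - 1/2⌉ := by
  have h1 := Int.floor_le (y + 1/4)
  have h3 := Int.le_ceil (y - 1/2)
  have h5 : ((⌊y + 1/4⌋ : ℤ) : ℝ) < ((⌈y - 1/2⌉ : ℤ) : ℝ) + 1 := by linarith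
  have h7 : ⌊y + 1/4⌋ < ⌈y - 1/2⌉ + 1 := by exact_mod_cast h5
  omega

/-- Hall contribution of a balanced pair. -/
theorem pair_hall (x₁ x₂ y₁ y₂ : ℝ) (W : ℝ) (hW : W = (y₁ - x₁) + (y₂ - x₂))
    (hb₁ : W < 4 * (y₁ - x₁)) (hb₂ : W < 4 * (y₂ - x₂)) (_hW0 : 0 < W)
    (hney : ¬ (∃ t₁ t₂ : ℤ, y₁ + 1/4 = t₁ ∧ y₂ + 1/4 = t₂))
    (hnex : ¬ (∃ t₁ t₂ : ℤ, x₁ - 1/4 = t₁ ∧ x₂ - 1/4 = t₂)) :
    max 0 (⌊y₁ + 1/4⌋ - ⌈x₁ - 1/4⌉) + max 0 (⌊y₂ + 1/4⌋ - ⌈x₂ - 1/4⌉)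
      ≤ ⌈y₁ + y₂ - 1/2⌉ - ⌊x₁ + x₂ + 1/2⌋ + (if 1/2 < W ∧ W ≤ 1 then 1 else 0) := by
  have hsum1 := pair_floor y₁ y₂ hney
  have hsum2 := pair_ceil x₁ x₂ hnex
  have a1 := Int.floor_le (y₁ + 1/4)
  have a2 := Int.floor_le (y₂ + 1/4)
  have a3 := Int.sub_one_lt_floor (y₁ + 1/4)
  have a4 := Int.sub_one_lt_floor (y₂ + 1/4)
  have b1 := Int.le_ceil (x₁ - 1/4)
  have b2 := Int.le_ceil (x₂ - 1/4)
  have b3 := Int.ceil_lt_add_one (x₁ - 1/4)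
  have b4 := Int.ceil_lt_add_one (x₂ - 1/4)
  have c1 := Int.le_ceil (y₁ + y₂ - 1/2)
  have c2 := Int.floor_le (x₁ + x₂ + 1/2)
  set F₁ := ⌊y₁ + 1/4⌋
  set F₂ := ⌊y₂ + 1/4⌋
  set C₁ := ⌈x₁ - 1/4⌉
  set C₂ := ⌈x₂ - 1/4⌉
  set P := ⌈y₁ + y₂ - 1/2⌉
  set R := ⌊x₁ + x₂ + 1/2⌋
  have hNc : W - 1 ≤ (P:ℝ) - R := by linarith
  have hNc0 : 0 ≤ P - R := by
    have : (R : ℝ) < (P:ℝ) + 1 := by linarith
    have : R < P + 1 := by exact_mod_cast this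
    omega
  have key : ∀ (n₁ n₂ : ℤ) (w₁ w₂ : ℝ), n₁ + n₂ ≤ P - R → W = w₁ + w₂ → W < 4 * w₁ → W < 4 * w₂ →
      w₁ - 3/2 < n₁ → (n₂ : ℝ) ≤ w₂ + 1/2 → n₁ < 0 → 0 ≤ n₂ →
      n₂ ≤ P - R + (if 1/2 < W ∧ W ≤ 1 then 1 else 0) := by
    intro n₁ n₂ w₁ w₂ g1 g2 g3 g4 g5 g6 g7 g8
    have g9 : n₁ = -1 := by
      have : (-2:ℝ) < n₁ := by linarith
      have : (-2:ℤ) < n₁ := by exact_mod_cast this
      omega
    rw [g9] at g5 g1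
    push_cast at g5
    split_ifs with hs
    · omega
    · rw [not_and_or] at hs
      push Not at hs
      rcases hs with hs | hs
      · have : (n₂ : ℝ) < 1 := by linarith
        have : n₂ < 1 := by exact_mod_cast this
        omega
      · have h1 : (n₂ : ℝ) < 2 := by linarith
        have h2 : n₂ < 2 := by exact_mod_cast h1
        have h3 : (0:ℝ) < (P:ℝ) - R := by linarith
        have h4 : (0:ℤ) < P - R := by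
          have : (R:ℝ) < P := by linarith
          have : R < P := by exact_mod_cast this
          omega
        omega
  have hδ : (0:ℤ) ≤ (if 1/2 < W ∧ W ≤ 1 then 1 else 0) := by split_ifs <;> norm_num
  rcases lt_or_ge (F₁ - C₁) 0 with h1 | h1 <;> rcases lt_or_ge (F₂ - C₂) 0 with h2 | h2
  · rw [max_eq_left (le_of_lt h1), max_eq_left (le_of_lt h2)]; omega
  · rw [max_eq_left (le_of_lt h1), max_eq_right h2, zero_add]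
    exact key (F₁ - C₁) (F₂ - C₂) (y₁ - x₁) (y₂ - x₂) (by omega) hW hb₁ hb₂
      (by push_cast; linarith) (by push_cast; linarith) h1 h2
  · rw [max_eq_right h1, max_eq_left (le_of_lt h2), add_zero]
    exact key (F₂ - C₂) (F₁ - C₁) (y₂ - x₂) (y₁ - x₁) (by omega) (by rw [hW]; ring) hb₂ hb₁
      (by push_cast; linarith) (by push_cast; linarith) h2 h1
  · rw [max_eq_right h1, max_eq_right h2]; omega

end Pool.Agent.H78.BN
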