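import Pool.Agent.H78.BN.Family

/-!
# Exact criterion for the family
-/

namespace Pool.Agent.H78.BN

open Finset

/-- position of a letter of demand `x` at (rescaled) time `z`, shifted by `1/4`, rounded down -/
noncomputable def FF (Q : ℕ) (z : ℝ) (x : ℕ) : ℤ := ⌊z * (x:ℝ) / (4 * Q) + 1/4⌋

/-- the same, for the upper bounds -/
noncomputable def CC (Q : ℕ) (z : ℝ) (x : ℕ) : ℤ := ⌈z * (x:ℝ) / (4 * Q) - 1/4⌉

theorem dvd_key {s m : ℤ} {r Q e : ℕ} (he : 3 ≤ e) (hs : Odd s)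
    (h : s * r = 2 ^ (e + 2) * (Q * m)) : 32 ∣ r := by
  have h1 : (32:ℤ) ∣ s * r := by
    rw [h]
    obtain ⟨k, hk⟩ : ∃ k, e + 2 = 5 + k := ⟨e - 3, by omega⟩
    rw [hk, pow_add]
    exact ⟨2 ^ k * (Q * m), by norm_num; ring⟩
  have h2 : IsCoprime (32:ℤ) s := by
    have h3 : IsCoprime (2:ℤ) s := by
      rw [Int.isCoprime_iff_gcd_eq_one]
      obtain ⟨t, ht⟩ := hs
      have := Int.gcd_dvd_left (a := 2) (b := s)
      have h4 : Int.gcd 2 s ∣ 2 := by exact_mod_cast this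
      have h5 := Int.gcd_dvd_right (a := 2) (b := s)
      rcases (Nat.dvd_prime Nat.prime_two).mp h4 with h | h
      · exact h
      · rw [h] at h5
        obtain ⟨u, hu⟩ := h5
        push_cast at hu
        omega
    have : (32:ℤ) = 2^5 := by norm_num
    rw [this]
    exact h3.pow_left
  have h3 : (32:ℤ) ∣ r := h2.dvd_of_dvd_mul_left h1
  exact_mod_cast h3

theorem pair_ne_floor {Q r e : ℕ} (hQ : 0 < Q) (he : 3 ≤ e) (hr : r < 8 * Q) (h32 : ¬ 32 ∣ r)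
    (z : ℝ) : ¬ (∃ t₁ t₂ : ℤ, z * ((2 ^ (e+1) * Q - r : ℕ) : ℝ) / (4 * Q) + 1/4 = t₁ ∧
      z * ((2 ^ (e+1) * Q + r : ℕ) : ℝ) / (4 * Q) + 1/4 = t₂) := by
  rintro ⟨t₁, t₂, h1, h2⟩
  have h3 : 8 * Q ≤ 2 ^ (e+1) * Q := by
    apply Nat.mul_le_mul_right
    calc 8 = 2^3 := by norm_num
      _ ≤ 2^(e+1) := Nat.pow_le_pow_right (by norm_num) (by omega)
  rw [Nat.cast_sub (by omega)] at h1
  push_cast at h1 h2
  have hQ' : (Q:ℝ) ≠ 0 := by positivity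
  apply h32
  apply dvd_key (s := 2 * (t₁ + t₂) - 1) (m := t₂ - t₁) (Q := Q) he ⟨t₁ + t₂ - 1, by ring⟩
  have h4 : (2 * ((t₁:ℝ) + t₂) - 1) = 2 ^ (e+1) * z := by
    rw [← h1, ← h2]; field_simp; ring
  have h5 : z * r = 2 * Q * ((t₂:ℝ) - t₁) := by
    rw [← h1, ← h2]; field_simp; ring
  have h6 : ((2 * ((t₁:ℝ) + t₂) - 1)) * r = 2 ^ (e+2) * (Q * ((t₂:ℝ) - t₁)) := by
    rw [h4, mul_assoc, h5]; ring
  exact_mod_cast h6

theorem pair_ne_ceil {Q r e : ℕ} (hQ : 0 < Q) (he : 3 ≤ e) (hr : r < 8 * Q) (h32 : ¬ 32 ∣ r)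
    (z : ℝ) : ¬ (∃ t₁ t₂ : ℤ, z * ((2 ^ (e+1) * Q - r : ℕ) : ℝ) / (4 * Q) - 1/4 = t₁ ∧
      z * ((2 ^ (e+1) * Q + r : ℕ) : ℝ) / (4 * Q) - 1/4 = t₂) := by
  rintro ⟨t₁, t₂, h1, h2⟩
  have h3 : 8 * Q ≤ 2 ^ (e+1) * Q := by
    apply Nat.mul_le_mul_right
    calc 8 = 2^3 := by norm_num
      _ ≤ 2^(e+1) := Nat.pow_le_pow_right (by norm_num) (by omega)
  rw [Nat.cast_sub (by omega)] at h1
  push_cast at h1 h2
  have hQ' : (Q:ℝ) ≠ 0 := by positivity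
  apply h32
  apply dvd_key (s := 2 * (t₁ + t₂) + 1) (m := t₂ - t₁) (Q := Q) he ⟨t₁ + t₂, by ring⟩
  have h4 : (2 * ((t₁:ℝ) + t₂) + 1) = 2 ^ (e+1) * z := by
    rw [← h1, ← h2]; field_simp; ring
  have h5 : z * r = 2 * Q * ((t₂:ℝ) - t₁) := by
    rw [← h1, ← h2]; field_simp; ring
  have h6 : ((2 * ((t₁:ℝ) + t₂) + 1)) * r = 2 ^ (e+2) * (Q * ((t₂:ℝ) - t₁)) := by
    rw [h4, mul_assoc, h5]; ring
  exact_mod_cast h6

theorem pair_sum {Q r e : ℕ} (hQ : 0 < Q) (he : 3 ≤ e) (hr : r < 8 * Q) (z : ℝ) :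
    z * ((2 ^ (e+1) * Q - r : ℕ) : ℝ) / (4 * Q) + z * ((2 ^ (e+1) * Q + r : ℕ) : ℝ) / (4 * Q)
      = 2 ^ e * z := by
  have h3 : 8 * Q ≤ 2 ^ (e+1) * Q := by
    apply Nat.mul_le_mul_right
    calc 8 = 2^3 := by norm_num
      _ ≤ 2^(e+1) := Nat.pow_le_pow_right (by norm_num) (by omega)
  rw [Nat.cast_sub (by omega)]
  push_cast
  have hQ' : (Q:ℝ) ≠ 0 := by positivity
  field_simp; ring

theorem pairs_floor (Q : ℕ) (hQ : 0 < Q) (z : ℝ) (ρ : List ℕ) (hρ : ∀ r ∈ ρ, r < 8 * Q)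
    (h32 : ∀ r ∈ ρ, ¬ 32 ∣ r) : ∀ e, 3 ≤ e →
    ((pairsFrom Q e ρ).map (FF Q z)).sum ≤ ⌈(2:ℝ) ^ (e + ρ.length) * z⌉ - ⌈(2:ℝ) ^ e * z⌉ := by
  induction ρ with
  | nil => intro e _; simp [pairsFrom]
  | cons r ρ ih =>
    intro e he
    have h1 := ih (fun x hx => hρ x (List.mem_cons_of_mem _ hx))
      (fun x hx => h32 x (List.mem_cons_of_mem _ hx)) (e+1) (by omega)
    have h2 := pair_floor _ _ (pair_ne_floor hQ he (hρ r List.mem_cons_self)
      (h32 r List.mem_cons_self) z)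
    rw [pair_sum hQ he (hρ r List.mem_cons_self), ceil_two_mul] at h2
    simp only [pairsFrom, List.map_cons, List.sum_cons, List.length_cons]
    rw [show e + (ρ.length + 1) = e + 1 + ρ.length by ring]
    rw [show 2 * ((2:ℝ) ^ e * z) = 2 ^ (e+1) * z by ring] at h2
    unfold FF at h1 ⊢
    linarith

theorem pairs_ceil (Q : ℕ) (hQ : 0 < Q) (z : ℝ) (ρ : List ℕ) (hρ : ∀ r ∈ ρ, r < 8 * Q)
    (h32 : ∀ r ∈ ρ, ¬ 32 ∣ r) : ∀ e, 3 ≤ e →
    ⌊(2:ℝ) ^ (e + ρ.length) * z⌋ - ⌊(2:ℝ) ^ e * z⌋ ≤ ((pairsFrom Q e ρ).map (CC Q z)).sum := by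
  induction ρ with
  | nil => intro e _; simp [pairsFrom]
  | cons r ρ ih =>
    intro e he
    have h1 := ih (fun x hx => hρ x (List.mem_cons_of_mem _ hx))
      (fun x hx => h32 x (List.mem_cons_of_mem _ hx)) (e+1) (by omega)
    have h2 := pair_ceil _ _ (pair_ne_ceil hQ he (hρ r List.mem_cons_self)
      (h32 r List.mem_cons_self) z)
    rw [pair_sum hQ he (hρ r List.mem_cons_self), floor_two_mul] at h2
    simp only [pairsFrom, List.map_cons, List.sum_cons, List.length_cons]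
    rw [show e + (ρ.length + 1) = e + 1 + ρ.length by ring]
    rw [show 2 * ((2:ℝ) ^ e * z) = 2 ^ (e+1) * z by ring] at h2
    unfold CC at h1 ⊢
    linarith

theorem pairs_hall (Q : ℕ) (hQ : 0 < Q) (za zb : ℝ) (hab : za < zb) (ρ : List ℕ)
    (hρ : ∀ r ∈ ρ, r < 8 * Q)
    (h32 : ∀ r ∈ ρ, ¬ 32 ∣ r) : ∀ e, 3 ≤ e →
    ((pairsFrom Q e ρ).map (fun x => max 0 (FF Q zb x - CC Q za x))).sum ≤
      (⌈(2:ℝ) ^ (e + ρ.length) * zb⌉ - ⌈(2:ℝ) ^ e * zb⌉)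
      - (⌊(2:ℝ) ^ (e + ρ.length) * za⌋ - ⌊(2:ℝ) ^ e * za⌋)
      + (if (2:ℝ) ^ e * (zb - za) ≤ 1 then 1 else 0) := by
  induction ρ with
  | nil =>
    intro e _
    simp only [pairsFrom, List.map_nil, List.sum_nil, List.length_nil, add_zero, sub_self]
    split_ifs <;> norm_num
  | cons r ρ ih =>
    intro e he
    have hr := hρ r List.mem_cons_self
    have h1 := ih (fun x hx => hρ x (List.mem_cons_of_mem _ hx))
      (fun x hx => h32 x (List.mem_cons_of_mem _ hx)) (e+1) (by omega)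
    have hQ' : (0:ℝ) < Q := by exact_mod_cast hQ
    have h3 : 8 * Q ≤ 2 ^ e * Q := by
      apply Nat.mul_le_mul_right
      calc 8 = 2^3 := by norm_num
        _ ≤ 2^e := Nat.pow_le_pow_right (by norm_num) (by omega)
    have h3' : (r:ℝ) < 2 ^ e * Q := by
      have : r < 2 ^ e * Q := by omega
      exact_mod_cast this
    have hcast : ((2 ^ (e+1) * Q - r : ℕ) : ℝ) = 2 ^ (e+1) * Q - r := by
      rw [Nat.cast_sub (by rw [pow_succ]; nlinarith)]; push_cast; ring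
    have hcast2 : ((2 ^ (e+1) * Q + r : ℕ) : ℝ) = 2 ^ (e+1) * Q + r := by push_cast; ring
    have h2 := pair_hall (za * ((2 ^ (e+1) * Q - r : ℕ) : ℝ) / (4 * Q))
      (za * ((2 ^ (e+1) * Q + r : ℕ) : ℝ) / (4 * Q))
      (zb * ((2 ^ (e+1) * Q - r : ℕ) : ℝ) / (4 * Q))
      (zb * ((2 ^ (e+1) * Q + r : ℕ) : ℝ) / (4 * Q))
      (2 ^ e * (zb - za)) (by
        rw [hcast, hcast2]; field_simp; ring) (by
        rw [hcast]
        have : 4 * (zb * (2 ^ (e + 1) * (Q:ℝ) - r) / (4 * Q) - za * (2 ^ (e + 1) * Q - r) / (4 * Q))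
          = (zb - za) * ((2 ^ (e + 1) * (Q:ℝ) - r) / Q) := by field_simp
        rw [this, mul_comm]
        apply mul_lt_mul_of_pos_left _ (by linarith)
        rw [lt_div_iff₀ hQ']
        rw [pow_succ]; linarith) (by
        rw [hcast2]
        have : 4 * (zb * (2 ^ (e + 1) * (Q:ℝ) + r) / (4 * Q) - za * (2 ^ (e + 1) * Q + r) / (4 * Q))
          = (zb - za) * ((2 ^ (e + 1) * (Q:ℝ) + r) / Q) := by field_simp
        rw [this, mul_comm]
        apply mul_lt_mul_of_pos_left _ (by linarith)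
        rw [lt_div_iff₀ hQ']
        have : (0:ℝ) ≤ r := by positivity
        have h9 : (0:ℝ) < 2 ^ e * Q := by positivity
        rw [pow_succ]; linarith) (by
        have : (0:ℝ) < 2 ^ e := by positivity
        have : 0 < zb - za := by linarith
        positivity)
      (pair_ne_floor hQ he hr (h32 r List.mem_cons_self) zb)
      (pair_ne_ceil hQ he hr (h32 r List.mem_cons_self) za)
    rw [pair_sum hQ he hr, pair_sum hQ he hr, ceil_two_mul, floor_two_mul] at h2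
    simp only [pairsFrom, List.map_cons, List.sum_cons, List.length_cons]
    rw [show e + (ρ.length + 1) = e + 1 + ρ.length by ring]
    rw [show 2 * ((2:ℝ) ^ e * zb) = 2 ^ (e+1) * zb by ring,
      show 2 * ((2:ℝ) ^ e * za) = 2 ^ (e+1) * za by ring] at h2
    have hδ : (if 1 / 2 < (2:ℝ) ^ e * (zb - za) ∧ (2:ℝ) ^ e * (zb - za) ≤ 1 then (1:ℤ) else 0)
        + (if (2:ℝ) ^ (e+1) * (zb - za) ≤ 1 then 1 else 0)
        ≤ (if (2:ℝ) ^ e * (zb - za) ≤ 1 then 1 else 0) := by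
      have hpos : 0 < (2:ℝ) ^ e * (zb - za) := by
        have : 0 < zb - za := by linarith
        positivity
      have h7 : (2:ℝ) ^ (e+1) * (zb - za) = 2 * ((2:ℝ) ^ e * (zb - za)) := by ring
      rw [h7]
      set W := (2:ℝ) ^ e * (zb - za)
      rcases le_or_gt W (1/2) with g | g
      · rw [if_neg (fun g1 : 1 / 2 < W ∧ W ≤ 1 => by linarith [g1.1]),
          if_pos (by linarith : W ≤ 1)]
        split_ifs <;> norm_num
      · rw [if_neg (by linarith : ¬ 2 * W ≤ 1)]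
        by_cases g1 : W ≤ 1
        · rw [if_pos g1]; split_ifs <;> norm_num
        · rw [if_neg g1, if_neg (fun g2 : 1 / 2 < W ∧ W ≤ 1 => g1 g2.2)]; norm_num
    unfold FF CC at h1 ⊢
    linarith

end Pool.Agent.H78.BN
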