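import Pool.Agent.H78.BN.Family2

/-!
# Exact criterion for the family
-/

namespace Pool.Agent.H78.BN

open Finset

/-- The Diophantine condition: some odd `w` has `‖w r /(4Q)‖ ≤ 1/4` for all `r` in the list. -/
def OddWitness (Q : ℕ) (ρ : List ℕ) : Prop :=
  ∃ w : ℤ, Odd w ∧ ∀ r ∈ ρ, ∃ t : ℤ, |w * r - 4 * Q * t| ≤ Q

theorem int_pair {Q r e : ℕ} (hQ : 0 < Q) (he : 3 ≤ e) (hr : r < 8 * Q) (w : ℤ) :
    FF Q w (2 ^ (e+1) * Q - r) + FF Q w (2 ^ (e+1) * Q + r)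
      = 2 ^ e * w + (⌊1/4 - (w:ℝ) * r / (4 * Q)⌋ + ⌊(w:ℝ) * r / (4 * Q) + 1/4⌋) := by
  have h3 : 8 * Q ≤ 2 ^ (e+1) * Q := by
    apply Nat.mul_le_mul_right
    calc 8 = 2^3 := by norm_num
      _ ≤ 2^(e+1) := Nat.pow_le_pow_right (by norm_num) (by omega)
  obtain ⟨k, rfl⟩ : ∃ k, e = k + 1 := ⟨e - 1, by omega⟩
  unfold FF
  rw [Nat.cast_sub (by omega)]
  push_cast
  have hQ' : (Q:ℝ) ≠ 0 := by positivity
  have e1 : (w:ℝ) * (2 ^ (k + 1 + 1) * (Q:ℝ) - r) / (4 * Q) + 1 / 4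
      = (1/4 - (w:ℝ) * r / (4 * Q)) + ((2 ^ k * w : ℤ) : ℝ) := by
    push_cast; field_simp; ring
  have e2 : (w:ℝ) * (2 ^ (k + 1 + 1) * (Q:ℝ) + r) / (4 * Q) + 1 / 4
      = ((w:ℝ) * r / (4 * Q) + 1/4) + ((2 ^ k * w : ℤ) : ℝ) := by
    push_cast; field_simp; ring
  rw [e1, e2, Int.floor_add_intCast, Int.floor_add_intCast]
  ring

theorem abs_iff {Q : ℕ} (hQ : 0 < Q) (w t : ℤ) (r : ℕ) :
    |w * r - 4 * Q * t| ≤ Q ↔ |(w:ℝ) * r / (4 * Q) - t| ≤ 1/4 := by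
  have hQ' : (0:ℝ) < Q := by exact_mod_cast hQ
  have h1 : (w:ℝ) * r / (4 * Q) - t = ((w * r - 4 * Q * t : ℤ) : ℝ) / (4 * Q) := by
    push_cast; field_simp
  rw [h1, abs_div, abs_of_pos (show (0:ℝ) < 4 * Q by positivity), div_le_iff₀ (by positivity)]
  rw [← Int.cast_abs]
  have h2 : (1:ℝ)/4 * (4 * Q) = ((Q:ℤ):ℝ) := by push_cast; ring
  rw [h2, Int.cast_le]

theorem gate_closed {u : ℝ} (h : ∀ t : ℤ, ¬ |u - t| ≤ 1/4) : ⌊1/4 - u⌋ + ⌊u + 1/4⌋ ≤ -1 := by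
  have h1 := Int.floor_le (u + 1/4)
  have h2 := h ⌊u + 1/4⌋
  rw [abs_le, not_and_or] at h2
  push Not at h2
  have h3 := Int.floor_le (1/4 - u)
  rcases h2 with h2 | h2
  · linarith
  · have h4 : ((⌊1/4 - u⌋ : ℤ) : ℝ) + (⌊u + 1/4⌋ : ℝ) < 0 := by linarith
    have h5 : ⌊1/4 - u⌋ + ⌊u + 1/4⌋ < 0 := by exact_mod_cast h4
    omega

theorem gate_open {u : ℝ} {t : ℤ} (h : |u - t| ≤ 1/4) : 0 ≤ ⌊1/4 - u⌋ + ⌊u + 1/4⌋ := by
  rw [abs_le] at h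
  have h1 : -t ≤ ⌊1/4 - u⌋ := by
    rw [Int.le_floor]; push_cast; linarith
  have h2 : t ≤ ⌊u + 1/4⌋ := by
    rw [Int.le_floor]; linarith
  omega

theorem gate_le (u : ℝ) : ⌊1/4 - u⌋ + ⌊u + 1/4⌋ ≤ 0 := by
  have h1 := Int.floor_le (u + 1/4)
  have h3 := Int.floor_le (1/4 - u)
  have h4 : ((⌊1/4 - u⌋ : ℤ) : ℝ) + (⌊u + 1/4⌋ : ℝ) < 1 := by linarith
  have h5 : ⌊1/4 - u⌋ + ⌊u + 1/4⌋ < 1 := by exact_mod_cast h4
  omega

theorem pairs_int_le (Q : ℕ) (hQ : 0 < Q) (w : ℤ) (ρ : List ℕ) (hρ : ∀ r ∈ ρ, r < 8 * Q) :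
    ∀ e, 3 ≤ e → ((pairsFrom Q e ρ).map (FF Q w)).sum ≤ 2 ^ (e + ρ.length) * w - 2 ^ e * w := by
  induction ρ with
  | nil => intro e _; simp [pairsFrom]
  | cons r ρ ih =>
    intro e he
    have h1 := ih (fun x hx => hρ x (List.mem_cons_of_mem _ hx)) (e+1) (by omega)
    have h2 := int_pair hQ he (hρ r List.mem_cons_self) w
    have h3 := gate_le ((w:ℝ) * r / (4 * Q))
    simp only [pairsFrom, List.map_cons, List.sum_cons, List.length_cons]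
    rw [show e + (ρ.length + 1) = e + 1 + ρ.length by ring]
    have h4 : (2:ℤ) ^ (e+1) * w = 2 * (2 ^ e * w) := by ring
    linarith

theorem pairs_int_lt (Q : ℕ) (hQ : 0 < Q) (w : ℤ) (ρ : List ℕ) (hρ : ∀ r ∈ ρ, r < 8 * Q)
    (hw : ∃ r ∈ ρ, ∀ t : ℤ, ¬ |w * r - 4 * Q * t| ≤ Q) :
    ∀ e, 3 ≤ e →
      ((pairsFrom Q e ρ).map (FF Q w)).sum ≤ 2 ^ (e + ρ.length) * w - 2 ^ e * w - 1 := by
  induction ρ with
  | nil => intro e _; obtain ⟨r, hr, _⟩ := hw; simp at hr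
  | cons r ρ ih =>
    intro e he
    have hρ' : ∀ x ∈ ρ, x < 8 * Q := fun x hx => hρ x (List.mem_cons_of_mem _ hx)
    have h2 := int_pair hQ he (hρ r List.mem_cons_self) w
    have h4 : (2:ℤ) ^ (e+1) * w = 2 * (2 ^ e * w) := by ring
    simp only [pairsFrom, List.map_cons, List.sum_cons, List.length_cons]
    rw [show e + (ρ.length + 1) = e + 1 + ρ.length by ring]
    obtain ⟨r', hr', hw'⟩ := hw
    rcases List.mem_cons.mp hr' with h | h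
    · subst h
      have h1 := pairs_int_le Q hQ w ρ hρ' (e+1) (by omega)
      have h3 := gate_closed (u := (w:ℝ) * r' / (4 * Q))
        (fun t ht => hw' t ((abs_iff hQ w t r').mpr ht))
      linarith
    · have h1 := ih hρ' ⟨r', h, hw'⟩ (e+1) (by omega)
      have h3 := gate_le ((w:ℝ) * r / (4 * Q))
      linarith

theorem pairs_int_ge (Q : ℕ) (hQ : 0 < Q) (w : ℤ) (ρ : List ℕ) (hρ : ∀ r ∈ ρ, r < 8 * Q)
    (hw : ∀ r ∈ ρ, ∃ t : ℤ, |w * r - 4 * Q * t| ≤ Q) :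
    ∀ e, 3 ≤ e → 2 ^ (e + ρ.length) * w - 2 ^ e * w ≤ ((pairsFrom Q e ρ).map (FF Q w)).sum := by
  induction ρ with
  | nil => intro e _; simp [pairsFrom]
  | cons r ρ ih =>
    intro e he
    have h1 := ih (fun x hx => hρ x (List.mem_cons_of_mem _ hx))
      (fun x hx => hw x (List.mem_cons_of_mem _ hx)) (e+1) (by omega)
    have h2 := int_pair hQ he (hρ r List.mem_cons_self) w
    obtain ⟨t, ht⟩ := hw r List.mem_cons_self
    have h3 := gate_open ((abs_iff hQ w t r).mp ht)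
    simp only [pairsFrom, List.map_cons, List.sum_cons, List.length_cons]
    rw [show e + (ρ.length + 1) = e + 1 + ρ.length by ring]
    have h4 : (2:ℤ) ^ (e+1) * w = 2 * (2 ^ e * w) := by ring
    linarith

theorem FF_Q (Q : ℕ) (hQ : 0 < Q) (z : ℝ) : FF Q z Q = ⌊z / 4 + 1/4⌋ := by
  unfold FF
  have hQ' : (Q:ℝ) ≠ 0 := by positivity
  congr 1; field_simp

theorem FF_mul (Q : ℕ) (hQ : 0 < Q) (z : ℝ) (k : ℕ) :
    FF Q z (4 * k * Q) = ⌊(k:ℝ) * z + 1/4⌋ := by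
  unfold FF
  have hQ' : (Q:ℝ) ≠ 0 := by positivity
  congr 1; push_cast; field_simp

theorem CC_eq (Q : ℕ) (z : ℝ) (x : ℕ) : CC Q z x = - FF Q (-z) x := by
  unfold CC FF
  rw [← Int.ceil_neg]
  congr 1; ring

theorem fam_sum_FF (Q : ℕ) (ρ : List ℕ) (f : ℕ → ℤ) :
    ((fam Q ρ).map f).sum = 4 * f Q + f (4 * 1 * Q) + f (4 * 2 * Q) + f (4 * 4 * Q)
      + ((pairsFrom Q 3 ρ).map f).sum := by
  simp only [fam, List.map_append, List.sum_append, List.map_cons, List.map_nil, List.sum_cons,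
    List.sum_nil]
  norm_num
  ring

/-- The prefix condition for the family. -/
theorem fam_prefix (Q : ℕ) (hQ : 0 < Q) (ρ : List ℕ) (hρ : ∀ r ∈ ρ, r < 8 * Q)
    (h32 : ∀ r ∈ ρ, ¬ 32 ∣ r) (hno : ¬ OddWitness Q ρ) (b : ℤ) :
    ((fam Q ρ).map (FF Q ((b:ℝ) / 2 ^ (3 + ρ.length)))).sum ≤ b := by
  set z : ℝ := (b:ℝ) / 2 ^ (3 + ρ.length) with hz
  have hzb : (2:ℝ) ^ (3 + ρ.length) * z = b := by rw [hz]; field_simp
  rw [fam_sum_FF, FF_Q Q hQ, FF_mul Q hQ, FF_mul Q hQ, FF_mul Q hQ]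
  have p1 := single_floor ((1:ℕ) * z)
  have p2 := single_floor ((2:ℕ) * z)
  have p3 := single_floor ((4:ℕ) * z)
  rw [ceil_two_mul] at p1 p2 p3
  have p4 := pairs_floor Q hQ z ρ hρ h32 3 le_rfl
  rw [hzb, Int.ceil_intCast] at p4
  have e1 : ((1:ℕ):ℝ) * z = z := by push_cast; ring
  have e2 : 2 * (((1:ℕ):ℝ) * z) = ((2:ℕ):ℝ) * z := by push_cast; ring
  have e3 : 2 * (((2:ℕ):ℝ) * z) = ((4:ℕ):ℝ) * z := by push_cast; ring
  have e4 : 2 * (((4:ℕ):ℝ) * z) = (2:ℝ) ^ 3 * z := by push_cast; ring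
  rw [e2, e1] at p1
  rw [e3] at p2
  rw [e4] at p3
  rw [e1]
  rcases lt_or_ge ⌈z⌉ (4 * ⌊z / 4 + 1 / 4⌋) with h | h
  · -- z = 4 t - 1
    have h1 := Int.floor_le (z / 4 + 1 / 4)
    have h2 := Int.le_ceil z
    have h3 : ((⌈z⌉ : ℤ) : ℝ) + 1 ≤ 4 * ((⌊z / 4 + 1 / 4⌋ : ℤ) : ℝ) := by exact_mod_cast h
    set t := ⌊z / 4 + 1 / 4⌋ with ht
    have h4 : z = ((4 * t - 1 : ℤ) : ℝ) := by push_cast; linarith
    set w : ℤ := 4 * t - 1 with hw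
    have hodd : Odd w := ⟨2 * t - 1, by rw [hw]; ring⟩
    have h5 : ∃ r ∈ ρ, ∀ s : ℤ, ¬ |w * r - 4 * Q * s| ≤ Q := by
      by_contra hcon
      push Not at hcon
      exact hno ⟨w, hodd, hcon⟩
    have h6 := pairs_int_lt Q hQ w ρ hρ h5 3 le_rfl
    have h7 : b = 2 ^ (3 + ρ.length) * w := by
      have : ((b : ℤ) : ℝ) = ((2 ^ (3 + ρ.length) * w : ℤ) : ℝ) := by
        rw [← hzb, h4]; push_cast; ring
      exact_mod_cast this
    rw [h4] at p1 p2 p3 ⊢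
    have e5 : ⌈((w : ℤ) : ℝ)⌉ = w := Int.ceil_intCast w
    have e6 : ⌈((2:ℕ):ℝ) * (w:ℝ)⌉ = 2 * w := by
      rw [show ((2:ℕ):ℝ) * (w:ℝ) = ((2 * w : ℤ) : ℝ) by push_cast; ring, Int.ceil_intCast]
    have e7 : ⌈((4:ℕ):ℝ) * (w:ℝ)⌉ = 4 * w := by
      rw [show ((4:ℕ):ℝ) * (w:ℝ) = ((4 * w : ℤ) : ℝ) by push_cast; ring, Int.ceil_intCast]
    have e8 : ⌈(2:ℝ) ^ 3 * (w:ℝ)⌉ = 8 * w := by
      rw [show (2:ℝ) ^ 3 * (w:ℝ) = ((8 * w : ℤ) : ℝ) by push_cast; ring, Int.ceil_intCast]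
    rw [e5, e6] at p1
    rw [e6, e7] at p2
    rw [e7, e8] at p3
    have : (2:ℤ)^3 * w = 8 * w := by ring
    omega
  · omega

theorem fam_prefix_ceil (Q : ℕ) (hQ : 0 < Q) (ρ : List ℕ) (hρ : ∀ r ∈ ρ, r < 8 * Q)
    (h32 : ∀ r ∈ ρ, ¬ 32 ∣ r) (hno : ¬ OddWitness Q ρ) (a : ℤ) :
    a ≤ ((fam Q ρ).map (CC Q ((a:ℝ) / 2 ^ (3 + ρ.length)))).sum := by
  have h1 := fam_prefix Q hQ ρ hρ h32 hno (-a)
  have h2 : ((fam Q ρ).map (CC Q ((a:ℝ) / 2 ^ (3 + ρ.length)))).sum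
      = - ((fam Q ρ).map (FF Q (((-a : ℤ):ℝ) / 2 ^ (3 + ρ.length)))).sum := by
    rw [show (CC Q ((a:ℝ) / 2 ^ (3 + ρ.length)))
      = (fun x => - FF Q (((-a : ℤ):ℝ) / 2 ^ (3 + ρ.length)) x) by
        funext x
        rw [CC_eq]
        congr 2
        push_cast; ring]
    generalize fam Q ρ = l
    induction l with
    | nil => simp
    | cons x l ih => simp only [List.map_cons, List.sum_cons, ih]; ring
  rw [h2]; omega

theorem map_sub_sum (l : List ℕ) (f g h : ℕ → ℤ) (hl : ∀ x ∈ l, h x = f x - g x) :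
    (l.map h).sum = (l.map f).sum - (l.map g).sum := by
  induction l with
  | nil => simp
  | cons x l ih =>
    simp only [List.map_cons, List.sum_cons]
    rw [ih (fun y hy => hl y (List.mem_cons_of_mem _ hy)), hl x List.mem_cons_self]
    ring

/-- Hall's condition for the family. -/
theorem fam_hall (Q : ℕ) (hQ : 0 < Q) (ρ : List ℕ) (hρ : ∀ r ∈ ρ, r < 8 * Q)
    (h32 : ∀ r ∈ ρ, ¬ 32 ∣ r) (hno : ¬ OddWitness Q ρ) (a b : ℤ) (hab : a < b) :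
    ((fam Q ρ).map (fun x => max 0 (FF Q ((b:ℝ) / 2 ^ (3 + ρ.length)) x
      - CC Q ((a:ℝ) / 2 ^ (3 + ρ.length)) x))).sum ≤ b - a := by
  have hbp := fam_prefix Q hQ ρ hρ h32 hno b
  have hap := fam_prefix_ceil Q hQ ρ hρ h32 hno a
  set zb : ℝ := (b:ℝ) / 2 ^ (3 + ρ.length) with hzb
  set za : ℝ := (a:ℝ) / 2 ^ (3 + ρ.length) with hza
  have hb : (2:ℝ) ^ (3 + ρ.length) * zb = b := by rw [hzb]; field_simp
  have ha : (2:ℝ) ^ (3 + ρ.length) * za = a := by rw [hza]; field_simp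
  have hlt : za < zb := by
    rw [hzb, hza]
    apply div_lt_div_of_pos_right _ (by positivity)
    exact_mod_cast hab
  have hQ' : (0:ℝ) < Q := by exact_mod_cast hQ
  rcases le_or_gt 2 (zb - za) with h2 | h2
  · -- all contributions are nonnegative
    have h3 : ∀ x ∈ fam Q ρ, max 0 (FF Q zb x - CC Q za x) = FF Q zb x - CC Q za x := by
      intro x hx
      apply max_eq_right
      have h4 := fam_pos Q hQ ρ hρ x hx
      have h5 : (Q:ℝ) ≤ x := by exact_mod_cast h4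
      have h6 : 1/2 ≤ zb * x / (4*Q) - za * x / (4*Q) := by
        have : zb * x / (4*Q) - za * x / (4*Q) = (zb - za) * (x / (4 * Q)) := by ring
        rw [this]
        have h7 : (1:ℝ)/4 ≤ x / (4*Q) := by
          rw [div_le_div_iff₀ (by norm_num) (by positivity)]; linarith
        nlinarith
      unfold FF CC
      have h8 := Int.ceil_lt_add_one (za * x / (4*Q) - 1/4)
      have h9 := Int.sub_one_lt_floor (zb * x / (4*Q) + 1/4)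
      have h10 : ((⌈za * x / (4*Q) - 1/4⌉ : ℤ) : ℝ) < (⌊zb * x / (4*Q) + 1/4⌋ : ℝ) + 1 := by
        linarith
      have h11 : ⌈za * x / (4*Q) - 1/4⌉ < ⌊zb * x / (4*Q) + 1/4⌋ + 1 := by exact_mod_cast h10
      omega
    rw [map_sub_sum (fam Q ρ) (FF Q zb) (CC Q za) _ h3]
    omega
  · -- the small letters do not contribute
    rw [fam_sum_FF]
    have s0 : max 0 (FF Q zb Q - CC Q za Q) = 0 := by
      apply max_eq_left
      rw [CC_eq, FF_Q Q hQ, FF_Q Q hQ]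
      have h8 := Int.floor_le (zb / 4 + 1/4)
      have h9 := Int.floor_le (-za / 4 + 1/4)
      have h10 : ((⌊zb / 4 + 1/4⌋ : ℤ) : ℝ) + (⌊-za / 4 + 1/4⌋ : ℝ) < 1 := by linarith
      have h11 : ⌊zb / 4 + 1/4⌋ + ⌊-za / 4 + 1/4⌋ < 1 := by exact_mod_cast h10
      omega
    have s1 : ∀ k : ℕ, 0 < k → max 0 (FF Q zb (4 * k * Q) - CC Q za (4 * k * Q))
        ≤ (⌈2 * ((k:ℝ) * zb)⌉ - ⌈(k:ℝ) * zb⌉) - (⌊2 * ((k:ℝ) * za)⌋ - ⌊(k:ℝ) * za⌋) := by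
      intro k hk
      have hk' : (0:ℝ) < k := by exact_mod_cast hk
      have h1 := single_hall ((k:ℝ) * za) ((k:ℝ) * zb) (by nlinarith)
      rw [ceil_two_mul, floor_two_mul] at h1
      have h3 : CC Q za (4 * k * Q) = ⌈(k:ℝ) * za - 1/4⌉ := by
        rw [CC_eq, FF_mul Q hQ, ← Int.ceil_neg]
        congr 1; ring
      rw [FF_mul Q hQ, h3]
      exact h1
    have q1 := s1 1 (by norm_num)
    have q2 := s1 2 (by norm_num)
    have q3 := s1 4 (by norm_num)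
    have q4 := pairs_hall Q hQ za zb hlt ρ hρ h32 3 le_rfl
    rw [hb, ha, Int.ceil_intCast, Int.floor_intCast] at q4
    have q5 : (if (2:ℝ) ^ 3 * (zb - za) ≤ 1 then (1:ℤ) else 0) ≤ 1 := by split_ifs <;> norm_num
    have q6 : ⌊za⌋ < ⌈zb⌉ := by
      have h1 := Int.floor_le za
      have h3 := Int.le_ceil zb
      have : ((⌊za⌋ : ℤ) : ℝ) < (⌈zb⌉ : ℝ) := by linarith
      exact_mod_cast this
    have e1 : ∀ z : ℝ, ((1:ℕ):ℝ) * z = z := by intro z; push_cast; ring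
    have e2 : ∀ z : ℝ, 2 * (((1:ℕ):ℝ) * z) = ((2:ℕ):ℝ) * z := by intro z; push_cast; ring
    have e3 : ∀ z : ℝ, 2 * (((2:ℕ):ℝ) * z) = ((4:ℕ):ℝ) * z := by intro z; push_cast; ring
    have e4 : ∀ z : ℝ, 2 * (((4:ℕ):ℝ) * z) = (2:ℝ) ^ 3 * z := by intro z; push_cast; ring
    rw [e2, e2, e1, e1] at q1
    rw [e3, e3] at q2
    rw [e4, e4] at q3
    rw [s0]
    omega

end Pool.Agent.H78.BN
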