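import Pool.Agent.H78.BN.Defs

/-!
# Hall's condition for the bottleneck problem with threshold 3/4
-/

namespace Pool.Agent.H78.BN

open Finset

/-- Hall's condition for interval families: only intervals need to be tested. -/
theorem hall_intervals {J : Type*} [DecidableEq J] (A : J → Finset ℕ)
    (hconv : ∀ j, ∀ x ∈ A j, ∀ y ∈ A j, ∀ z, x ≤ z → z ≤ y → z ∈ A j)
    (hne : ∀ j, (A j).Nonempty)
    (hH : ∀ p q, p ≤ q → ∀ T : Finset J, (∀ j ∈ T, A j ⊆ Finset.Ico p q) → T.card ≤ q - p) :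
    ∀ S : Finset J, S.card ≤ (S.biUnion A).card := by
  intro S
  induction' hc : S.card using Nat.strong_induction_on with c ih generalizing S
  rcases S.eq_empty_or_nonempty with h0 | h0
  · subst h0; simp at hc; omega
  set U := S.biUnion A with hU
  have hUne : U.Nonempty := by
    obtain ⟨j, hj⟩ := h0
    obtain ⟨x, hx⟩ := hne j
    exact ⟨x, mem_biUnion.mpr ⟨j, hj, hx⟩⟩
  set mx := U.max' hUne with hmx
  have hmxU : mx ∈ U := U.max'_mem hUne
  -- the smallest p with Icc p mx ⊆ U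
  have hex : ∃ p, p ≤ mx ∧ ∀ z, p ≤ z → z ≤ mx → z ∈ U :=
    ⟨mx, le_rfl, fun z h1 h2 => by rwa [le_antisymm h2 h1]⟩
  classical
  set p := Nat.find hex with hp
  have hp1 : p ≤ mx ∧ ∀ z, p ≤ z → z ≤ mx → z ∈ U := Nat.find_spec hex
  have hp2 : ∀ t, t < p → t + 1 = p → t ∉ U := by
    intro t ht ht1 htU
    apply Nat.find_min hex ht
    refine ⟨by omega, ?_⟩
    intro z hz1 hz2
    rcases Nat.eq_or_lt_of_le hz1 with h | h
    · rwa [← h]
    · exact hp1.2 z (by omega) hz2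
  set S1 := S.filter (fun j => A j ⊆ Finset.Ico p (mx + 1)) with hS1
  set S2 := S.filter (fun j => ¬ A j ⊆ Finset.Ico p (mx + 1)) with hS2
  have hsplit : S1.card + S2.card = S.card := by
    rw [hS1, hS2]; exact card_filter_add_card_filter_not _
  have hS2disj : ∀ j ∈ S2, ∀ x ∈ A j, x < p := by
    intro j hj x hx
    rw [hS2, mem_filter] at hj
    by_contra hxp
    push Not at hxp
    apply hj.2
    intro y hy
    rw [Finset.mem_Ico]
    have hyU : y ∈ U := mem_biUnion.mpr ⟨j, hj.1, hy⟩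
    refine ⟨?_, Nat.lt_succ_of_le (U.le_max' y hyU)⟩
    by_contra hyp
    push Not at hyp
    have hp0 : 0 < p := by omega
    have h1 : p - 1 ∈ A j := hconv j y hy x hx (p-1) (by omega) (by omega)
    exact hp2 (p-1) (by omega) (by omega) (mem_biUnion.mpr ⟨j, hj.1, h1⟩)
  have hS1ne : S1.Nonempty := by
    rw [hU, mem_biUnion] at hmxU
    obtain ⟨j, hj, hjm⟩ := hmxU
    refine ⟨j, ?_⟩
    by_contra hcon
    have hj2 : j ∈ S2 := by
      rw [hS2, mem_filter]; refine ⟨hj, fun h => hcon ?_⟩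
      rw [hS1, mem_filter]; exact ⟨hj, h⟩
    have := hS2disj j hj2 mx hjm
    omega
  have hS1card : S1.card ≤ mx + 1 - p :=
    hH p (mx+1) (by omega) S1 (fun j hj => (mem_filter.mp hj).2)
  have hS2lt : S2.card < c := by
    have := hS1ne.card_pos
    omega
  have hS2card := ih S2.card hS2lt S2 rfl
  have hdisj : Disjoint (S2.biUnion A) (Finset.Ico p (mx+1)) := by
    rw [Finset.disjoint_left]
    intro x hx hx2
    rw [mem_biUnion] at hx
    obtain ⟨j, hj, hxj⟩ := hx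
    have := hS2disj j hj x hxj
    rw [Finset.mem_Ico] at hx2
    omega
  have hsub : (S2.biUnion A) ∪ (Finset.Ico p (mx+1)) ⊆ U := by
    intro x hx
    rw [mem_union] at hx
    rcases hx with hx | hx
    · rw [mem_biUnion] at hx
      obtain ⟨j, hj, hxj⟩ := hx
      exact mem_biUnion.mpr ⟨j, (mem_filter.mp hj).1, hxj⟩
    · rw [Finset.mem_Ico] at hx
      exact hp1.2 x hx.1 (by omega)
  have hcard := card_le_card hsub
  rw [card_union_of_disjoint hdisj, Nat.card_Ico] at hcard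
  omega

variable {n : ℕ}

/-- Lower bound of `x_{ik}`. -/
noncomputable def Fl (r : ℝ) (k : ℤ) : ℤ := ⌊(k : ℝ) * r + 1/4⌋

/-- Upper bound of `x_{ik}`. -/
noncomputable def Cl (r : ℝ) (k : ℤ) : ℤ := ⌈(k : ℝ) * r - 1/4⌉

theorem Fl_mono {r : ℝ} (hr : 0 ≤ r) {a b : ℤ} (h : a ≤ b) : Fl r a ≤ Fl r b := by
  unfold Fl
  apply Int.floor_mono
  have : (a:ℝ) ≤ b := by exact_mod_cast h
  nlinarith

theorem Cl_mono {r : ℝ} (hr : 0 ≤ r) {a b : ℤ} (h : a ≤ b) : Cl r a ≤ Cl r b := by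
  unfold Cl
  apply Int.ceil_mono
  have : (a:ℝ) ≤ b := by exact_mod_cast h
  nlinarith

theorem Fl_le_Cl (r : ℝ) (a : ℤ) : Fl r a ≤ Cl r a := by
  unfold Fl Cl
  by_contra h
  push Not at h
  have h1 : (⌊(a : ℝ) * r + 1/4⌋ : ℝ) ≤ (a:ℝ)*r + 1/4 := Int.floor_le _
  have h2 : (a:ℝ)*r - 1/4 ≤ (⌈(a : ℝ) * r - 1/4⌉ : ℝ) := Int.le_ceil _
  have h3 : ((⌈(a : ℝ) * r - 1/4⌉ : ℤ) : ℝ) + 1 ≤ ((⌊(a : ℝ) * r + 1/4⌋ : ℤ) : ℝ) := by
    exact_mod_cast h
  linarith

theorem Fl_zero (r : ℝ) : Fl r 0 = 0 := by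
  unfold Fl; rw [Int.floor_eq_iff]; norm_num

theorem Cl_zero (r : ℝ) : Cl r 0 = 0 := by
  unfold Cl; rw [Int.ceil_eq_iff]; norm_num

/-- The slots (0-indexed) in which the `(j+1)`-st copy of letter of rate `r` may be placed. -/
noncomputable def slots (D : ℕ) (r : ℝ) (j : ℕ) : Finset ℕ :=
  (Finset.range D).filter (fun t => Fl r (t:ℤ) ≤ (j:ℤ) ∧ (j:ℤ) + 1 ≤ Cl r ((t:ℤ) + 1))

theorem slots_conv {D : ℕ} {r : ℝ} (hr : 0 ≤ r) (j : ℕ) :
    ∀ x ∈ slots D r j, ∀ y ∈ slots D r j, ∀ z, x ≤ z → z ≤ y → z ∈ slots D r j := by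
  intro x hx y hy z hxz hzy
  simp only [slots, mem_filter, mem_range] at *
  refine ⟨by omega, ?_, ?_⟩
  · exact le_trans (Fl_mono hr (by exact_mod_cast hzy)) hy.2.1
  · refine le_trans hx.2.2 (Cl_mono hr ?_)
    have : (x:ℤ) ≤ z := by exact_mod_cast hxz
    linarith

theorem slots_nonempty {D : ℕ} {r : ℝ} (j : ℕ) (hj : (j:ℤ) + 1 ≤ Cl r (D:ℤ)) :
    (slots D r j).Nonempty := by
  classical
  have hex : ∃ t : ℕ, (j:ℤ) + 1 ≤ Cl r (t:ℤ) := ⟨D, hj⟩
  set t := Nat.find hex with ht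
  have h1 : (j:ℤ) + 1 ≤ Cl r (t:ℤ) := Nat.find_spec hex
  have h2 : t ≤ D := Nat.find_min' hex hj
  have h0 : t ≠ 0 := by
    intro h
    rw [h] at h1
    simp only [Nat.cast_zero, Cl_zero] at h1
    omega
  obtain ⟨u, hu⟩ : ∃ u, t = u + 1 := ⟨t - 1, by omega⟩
  refine ⟨u, ?_⟩
  simp only [slots, mem_filter, mem_range]
  have h3 : ¬ ((j:ℤ) + 1 ≤ Cl r (u:ℤ)) := Nat.find_min hex (by omega)
  refine ⟨by omega, ?_, ?_⟩
  · have := Fl_le_Cl r (u:ℤ)
    omega
  · have h4 : ((t:ℕ):ℤ) = (u:ℤ) + 1 := by rw [hu]; push_cast; ring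
    rw [← h4]; exact h1

theorem slots_sub_Ico {D : ℕ} {r : ℝ} (hr : 0 ≤ r) {j p q : ℕ} (hq : q ≤ D)
    (hD : (j:ℤ) + 1 ≤ Fl r (D:ℤ)) (hne : (slots D r j).Nonempty)
    (hsub : slots D r j ⊆ Finset.Ico p q) :
    Cl r (p:ℤ) ≤ j ∧ (j:ℤ) < Fl r (q:ℤ) := by
  obtain ⟨x, hx⟩ := hne
  have hxI := hsub hx
  rw [Finset.mem_Ico] at hxI
  have hx' := hx
  simp only [slots, mem_filter, mem_range] at hx'
  constructor
  · by_contra h
    push Not at h
    -- p > 0
    have hp0 : p ≠ 0 := by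
      intro h0; rw [h0] at h; simp only [Nat.cast_zero, Cl_zero] at h; omega
    obtain ⟨u, hu⟩ : ∃ u, p = u + 1 := ⟨p - 1, by omega⟩
    have : u ∈ slots D r j := by
      simp only [slots, mem_filter, mem_range]
      refine ⟨by omega, ?_, ?_⟩
      · exact le_trans (Fl_mono hr (by exact_mod_cast (by omega : u ≤ x))) hx'.2.1
      · have h4 : ((p:ℕ):ℤ) = (u:ℤ) + 1 := by rw [hu]; push_cast; ring
        rw [← h4]; omega
    have h5 := hsub this
    rw [Finset.mem_Ico] at h5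
    omega
  · by_contra h
    push Not at h
    rcases Nat.eq_or_lt_of_le hq with h0 | h0
    · rw [h0] at h; omega
    have : q ∈ slots D r j := by
      simp only [slots, mem_filter, mem_range]
      refine ⟨h0, h, ?_⟩
      refine le_trans hx'.2.2 (Cl_mono hr ?_)
      have : (x:ℤ) ≤ q := by exact_mod_cast (by omega : x ≤ q)
      linarith
    have h5 := hsub this
    rw [Finset.mem_Ico] at h5
    omega

end Pool.Agent.H78.BN
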