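import Pool.Agent.H78.BN.Hall

/-!
# From Hall's condition to a sequence, and the description of `B*(d) < 3/4`
-/

namespace Pool.Agent.H78.BN

open Finset

variable {n : ℕ}

/-- the rate of letter `i` -/
noncomputable def rate (d : Fin n → ℕ) (i : Fin n) : ℝ := (d i : ℝ) / (total d : ℝ)

theorem rate_nonneg (d : Fin n → ℕ) (i : Fin n) : 0 ≤ rate d i := by unfold rate; positivity

theorem total_mul_rate (d : Fin n → ℕ) (hD : 0 < total d) (i : Fin n) :
    (total d : ℝ) * rate d i = d i := by
  unfold rate
  have : (total d : ℝ) ≠ 0 := by positivity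
  field_simp

theorem Fl_total (d : Fin n → ℕ) (hD : 0 < total d) (i : Fin n) :
    Fl (rate d i) (total d : ℤ) = d i := by
  unfold Fl
  rw [Int.cast_natCast, total_mul_rate d hD, Int.floor_eq_iff]
  push_cast
  constructor <;> linarith

theorem Cl_total (d : Fin n → ℕ) (hD : 0 < total d) (i : Fin n) :
    Cl (rate d i) (total d : ℤ) = d i := by
  unfold Cl
  rw [Int.cast_natCast, total_mul_rate d hD, Int.ceil_eq_iff]
  push_cast
  constructor <;> linarith

theorem exists_seq_of_hall (d : Fin n → ℕ) (hD : 0 < total d)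
    (h : ∀ a b : ℕ, a ≤ b → b ≤ total d →
      ∑ i, max 0 (Fl (rate d i) b - Cl (rate d i) a) ≤ (b:ℤ) - a) :
    ∃ s : Fin (total d) → Fin n, IsSequence d s ∧
      ∀ i k, k ≤ total d → Fl (rate d i) k ≤ (occ s i k : ℤ) ∧ (occ s i k : ℤ) ≤ Cl (rate d i) k := by
  classical
  set D := total d with hDdef
  let A : (Σ i : Fin n, Fin (d i)) → Finset ℕ := fun x => slots D (rate d x.1) x.2
  have hAF : ∀ x : (Σ i : Fin n, Fin (d i)), ((x.2 : ℕ):ℤ) + 1 ≤ Fl (rate d x.1) (D:ℤ) := by
    intro x
    rw [hDdef, Fl_total d hD]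
    have := x.2.isLt
    exact_mod_cast this
  have hAne : ∀ x, (A x).Nonempty := by
    intro x
    apply slots_nonempty
    exact le_trans (hAF x) (Fl_le_Cl _ _)
  have hAconv : ∀ x, ∀ a ∈ A x, ∀ b ∈ A x, ∀ z, a ≤ z → z ≤ b → z ∈ A x :=
    fun x => slots_conv (rate_nonneg d x.1) _
  have hkey : ∀ p q, p ≤ q → q ≤ D → ∀ T : Finset (Σ i : Fin n, Fin (d i)),
      (∀ x ∈ T, A x ⊆ Finset.Ico p q) → T.card ≤ q - p := by
    intro p q hpq hqD T hT
    have hsub : T ⊆ Finset.sigma univ (fun i => univ.filter (fun j : Fin (d i) =>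
        Cl (rate d i) p ≤ ((j:ℕ):ℤ) ∧ ((j:ℕ):ℤ) < Fl (rate d i) q)) := by
      intro x hx
      rw [mem_sigma]
      refine ⟨mem_univ _, ?_⟩
      rw [mem_filter]
      refine ⟨mem_univ _, ?_⟩
      exact slots_sub_Ico (rate_nonneg d x.1) hqD (hAF x) (hAne x) (hT x hx)
    have h1 := card_le_card hsub
    rw [card_sigma] at h1
    have h2 : ∀ i : Fin n, (((univ.filter (fun j : Fin (d i) =>
        Cl (rate d i) p ≤ ((j:ℕ):ℤ) ∧ ((j:ℕ):ℤ) < Fl (rate d i) q)).card : ℕ) : ℤ)
        ≤ max 0 (Fl (rate d i) q - Cl (rate d i) p) := by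
      intro i
      have h3 : (univ.filter (fun j : Fin (d i) =>
        Cl (rate d i) p ≤ ((j:ℕ):ℤ) ∧ ((j:ℕ):ℤ) < Fl (rate d i) q)).card ≤
          (Finset.Ico (Cl (rate d i) p) (Fl (rate d i) q)).card := by
        apply card_le_card_of_injOn (fun j : Fin (d i) => ((j:ℕ):ℤ))
        · intro j hj
          simp only [coe_filter, mem_univ, true_and, Set.mem_ofPred_eq] at hj
          simp only [coe_Ico, Set.mem_Ico]
          exact hj
        · intro j _ j' _ hjj
          simp only [Nat.cast_inj] at hjj
          exact Fin.ext hjj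
      rw [Int.card_Ico] at h3
      calc (((univ.filter (fun j : Fin (d i) =>
        Cl (rate d i) p ≤ ((j:ℕ):ℤ) ∧ ((j:ℕ):ℤ) < Fl (rate d i) q)).card : ℕ) : ℤ) ≤
          (((Fl (rate d i) q - Cl (rate d i) p).toNat : ℕ) : ℤ) := by exact_mod_cast h3
        _ = max 0 (Fl (rate d i) q - Cl (rate d i) p) := by
            rw [Int.toNat_eq_max]; exact max_comm _ _
    have h4 : ((T.card : ℕ) : ℤ) ≤ ∑ i, max 0 (Fl (rate d i) q - Cl (rate d i) p) := by
      calc ((T.card : ℕ) : ℤ) ≤ ((∑ i : Fin n, (univ.filter (fun j : Fin (d i) =>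
        Cl (rate d i) p ≤ ((j:ℕ):ℤ) ∧ ((j:ℕ):ℤ) < Fl (rate d i) q)).card : ℕ) : ℤ) := by
            exact_mod_cast h1
        _ = ∑ i : Fin n, (((univ.filter (fun j : Fin (d i) =>
        Cl (rate d i) p ≤ ((j:ℕ):ℤ) ∧ ((j:ℕ):ℤ) < Fl (rate d i) q)).card : ℕ) : ℤ) := by
            push_cast; rfl
        _ ≤ _ := Finset.sum_le_sum (fun i _ => h2 i)
    have h5 := h p q hpq hqD
    omega
  have hH : ∀ p q, p ≤ q → ∀ T : Finset (Σ i : Fin n, Fin (d i)),
      (∀ x ∈ T, A x ⊆ Finset.Ico p q) → T.card ≤ q - p := by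
    intro p q hpq T hT
    rcases T.eq_empty_or_nonempty with h0 | ⟨y, hy⟩
    · subst h0; simp
    have hT' : ∀ x ∈ T, A x ⊆ Finset.Ico p (min q D) := by
      intro x hx z hz
      have h1 := hT x hx hz
      have h2 : z < D := by
        simp only [A, slots, mem_filter, mem_range] at hz; exact hz.1
      rw [Finset.mem_Ico] at *
      exact ⟨h1.1, lt_min h1.2 h2⟩
    have hpq' : p ≤ min q D := by
      obtain ⟨z, hz⟩ := hAne y
      have := hT' y hy hz
      rw [Finset.mem_Ico] at this
      omega
    have h1 := hkey p (min q D) hpq' (min_le_right _ _) T hT'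
    omega
  obtain ⟨f, hfinj, hf⟩ := (Finset.all_card_le_biUnion_card_iff_exists_injective A).mp
    (hall_intervals A hAconv hAne hH)
  have hflt : ∀ x, f x < D := by
    intro x
    have := hf x
    simp only [A, slots, mem_filter, mem_range] at this
    exact this.1
  let g : (Σ i : Fin n, Fin (d i)) → Fin D := fun x => ⟨f x, hflt x⟩
  have hginj : Function.Injective g := by
    intro x y hxy
    simp only [g, Fin.mk.injEq] at hxy
    exact hfinj hxy
  have hcardJ : Fintype.card (Σ i : Fin n, Fin (d i)) = Fintype.card (Fin D) := by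
    rw [Fintype.card_sigma]; simp only [Fintype.card_fin]; rfl
  have hgbij : Function.Bijective g := (Fintype.bijective_iff_injective_and_card g).mpr
    ⟨hginj, hcardJ⟩
  let e : (Σ i : Fin n, Fin (d i)) ≃ Fin D := Equiv.ofBijective g hgbij
  have he : ∀ x, ((e x : Fin D) : ℕ) = f x := fun x => rfl
  refine ⟨fun t => (e.symm t).1, ?_, ?_⟩
  · intro i
    have h1 : (univ.filter (fun t : Fin D => (e.symm t).1 = i)).card
        = (univ : Finset (Fin (d i))).card := by
      symm
      apply card_bij (fun (j : Fin (d i)) _ => e ⟨i, j⟩)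
      · intro j _
        simp
      · intro j _ j' _ hjj
        have := e.injective hjj
        simpa using this
      · intro t ht
        rw [mem_filter] at ht
        obtain ⟨_, ht⟩ := ht
        subst ht
        exact ⟨(e.symm t).2, mem_univ _, by simp⟩
    rw [h1, card_univ, Fintype.card_fin]
  · intro i k hk
    have hocc : occ (fun t => (e.symm t).1) i k
        = (univ.filter (fun j : Fin (d i) => f ⟨i, j⟩ < k)).card := by
      unfold occ
      symm
      apply card_bij (fun (j : Fin (d i)) _ => e ⟨i, j⟩)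
      · intro j hj
        rw [mem_filter] at hj ⊢
        refine ⟨mem_univ _, ?_, by simp⟩
        rw [he]; exact hj.2
      · intro j _ j' _ hjj
        have := e.injective hjj
        simpa using this
      · intro t ht
        rw [mem_filter] at ht
        obtain ⟨_, ht1, ht⟩ := ht
        subst ht
        refine ⟨(e.symm t).2, ?_, by simp⟩
        rw [mem_filter]
        refine ⟨mem_univ _, ?_⟩
        have : f ⟨(e.symm t).1, (e.symm t).2⟩ = (t:ℕ) := by
          rw [← he]; simp
        rw [this]; exact ht1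
    rw [hocc]
    constructor
    · -- lower bound
      have hF : Fl (rate d i) k ≤ d i := by
        rw [← Fl_total d hD i]
        exact Fl_mono (rate_nonneg d i) (by exact_mod_cast hk)
      rcases le_or_gt (Fl (rate d i) k) 0 with h0 | h0
      · exact le_trans h0 (by positivity)
      obtain ⟨F, hFe⟩ : ∃ F : ℕ, Fl (rate d i) k = F := ⟨(Fl (rate d i) k).toNat, by
        rw [Int.toNat_of_nonneg (le_of_lt h0)]⟩
      rw [hFe] at hF ⊢
      have hF' : F ≤ d i := by exact_mod_cast hF
      have h1 : F ≤ (univ.filter (fun j : Fin (d i) => f ⟨i, j⟩ < k)).card := by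
        calc F = (univ : Finset (Fin F)).card := by simp
          _ ≤ _ := by
            apply card_le_card_of_injOn (fun j : Fin F => (Fin.castLE hF' j : Fin (d i)))
            · intro j _
              simp only [coe_filter, mem_univ, true_and, Set.mem_ofPred_eq]
              by_contra hcon
              push Not at hcon
              have h2 := hf ⟨i, Fin.castLE hF' j⟩
              simp only [A, slots, mem_filter, mem_range, Fin.val_castLE] at h2
              have h3 : Fl (rate d i) k ≤ Fl (rate d i) (f ⟨i, Fin.castLE hF' j⟩ : ℤ) :=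
                Fl_mono (rate_nonneg d i) (by exact_mod_cast hcon)
              have h4 := j.isLt
              have h5 : ((j:ℕ):ℤ) < F := by exact_mod_cast h4
              omega
            · intro j _ j' _ hjj
              simp only [Fin.castLE_inj] at hjj
              exact hjj
      exact_mod_cast h1
    · -- upper bound
      have h1 : (univ.filter (fun j : Fin (d i) => f ⟨i, j⟩ < k)).card ≤
          (Finset.Ico (0:ℤ) (Cl (rate d i) k)).card := by
        apply card_le_card_of_injOn (fun j : Fin (d i) => ((j:ℕ):ℤ))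
        · intro j hj
          simp only [coe_filter, mem_univ, true_and, Set.mem_ofPred_eq] at hj
          simp only [coe_Ico, Set.mem_Ico]
          refine ⟨by positivity, ?_⟩
          have h2 := hf ⟨i, j⟩
          simp only [A, slots, mem_filter, mem_range] at h2
          have h3 : Cl (rate d i) ((f ⟨i, j⟩ : ℤ) + 1) ≤ Cl (rate d i) k :=
            Cl_mono (rate_nonneg d i) (by exact_mod_cast hj)
          omega
        · intro j _ j' _ hjj
          simp only [Nat.cast_inj] at hjj
          exact Fin.ext hjj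
      rw [Int.card_Ico] at h1
      have h2 : 0 ≤ Cl (rate d i) k := by
        rw [← Cl_zero (rate d i)]
        exact Cl_mono (rate_nonneg d i) (by positivity)
      have h3 : (((univ.filter (fun j : Fin (d i) => f ⟨i, j⟩ < k)).card : ℕ) : ℤ) ≤
          (((Cl (rate d i) k - 0).toNat : ℕ) : ℤ) := by exact_mod_cast h1
      rw [Int.toNat_of_nonneg (by omega)] at h3
      omega

end Pool.Agent.H78.BN
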